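import Pool.Agent.GMU.St

/-!
# GMU: the gap (module Core, helper47)
-/

set_option autoImplicit false

namespace Pool.Agent.GMU

open Finset Pool.Agent.Helper53.Generic Pool.Agent.Helper60.Gap

private theorem Core_sg_abs (c : Fin 2) : |sg c| ≤ 1 := by
  unfold sg
  split_ifs
  · rw [abs_one]
  · rw [abs_neg, abs_one]

private theorem Core_vv_abs {n : ℕ} (x : Fin n → Plane) (U W : Finset (Fin n)) (φ : ℝ)
    (ω : Fin n → Fin 2) (a : Fin n) : |vv x U W φ ω a| ≤ 1 := by
  unfold vv
  split_ifs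
  · exact Core_sg_abs _
  · exact Real.abs_sin_le_one _
  · rw [abs_zero]; exact zero_le_one

/-- the arithmetic at the end -/
private theorem Core_arith (k n E v s F G m : ℝ) (hk : 1 ≤ k) (hn : 2048 ≤ n) (hv : 0 ≤ v)
    (hs : 64 * n ≤ s) (hvs : 4 * v ≤ 3 * s)
    (hF : k * (E / 4 + 10 / 2048 * s - 2) ≤ 2 * F) (hE : 0 ≤ E)
    (hG : 2 * G ≤ max (k * (E / 4 + n / 8 + 2 / 2048 * s + 2)) 2)
    (hm : F - G ≤ m) : k * v / 1024 ≤ m + 1 := by
  have hk0 : (0 : ℝ) ≤ k := by linarith
  have hs1 : (131072 : ℝ) ≤ s := by linarith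
  rcases le_max_iff.mp hG with h | h
  · have h1 : k * (3 / 2048 * s) ≤ 2 * m := by
      have h2 : k * (3 / 2048 * s) ≤ k * (E / 4 + 10 / 2048 * s - 2) -
          k * (E / 4 + n / 8 + 2 / 2048 * s + 2) := by
        rw [← mul_sub]
        apply mul_le_mul_of_nonneg_left _ hk0
        linarith
      linarith
    have h3 : k * (4 * v) ≤ k * (3 * s) := mul_le_mul_of_nonneg_left hvs hk0
    have h4 : k * v / 1024 ≤ m := by
      have : k * (3 / 2048 * s) = k * (3 * s) / 2048 := by ring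
      rw [this] at h1
      have h5 : k * (4 * v) = 4 * (k * v) := by ring
      rw [h5] at h3
      linarith
    linarith
  · have h1 : k * (9 / 2048 * s) ≤ 2 * (m + 1) := by
      have h2 : k * (9 / 2048 * s) ≤ k * (E / 4 + 10 / 2048 * s - 2) := by
        apply mul_le_mul_of_nonneg_left _ hk0
        linarith
      linarith
    have h3 : k * (4 * v) ≤ k * (3 * s) := mul_le_mul_of_nonneg_left hvs hk0
    have : k * (9 / 2048 * s) = 3 * (k * (3 * s)) / 2048 := by ring
    rw [this] at h1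
    have h5 : k * (4 * v) = 4 * (k * v) := by ring
    rw [h5] at h3
    have h6 : 0 ≤ k * v := mul_nonneg hk0 hv
    linarith

theorem thm_Core : St_Core := by
  classical
  intro hKT hExp hCos hMean hDiff hVar hUsp hPart hStA hRnd n k N hn hk hu hexp hN
  obtain ⟨A, hA, hAf⟩ := hUsp.1 n
  subst hA
  set x : Fin A.card → Plane := fun i => (A.equivFin.symm i : Plane) with hx
  have hxinj : Function.Injective x := by
    intro i j h
    exact A.equivFin.symm.injective (Subtype.ext h)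
  have hximg : (Finset.univ : Finset (Fin A.card)).image x = A := by
    ext y
    rw [Finset.mem_image]
    constructor
    · rintro ⟨i, -, rfl⟩
      exact (A.equivFin.symm i).2
    · intro hy
      exact ⟨A.equivFin ⟨y, hy⟩, Finset.mem_univ _, by rw [hx]; simp⟩
  have hEd : ∀ d, (Ed x d).card = P A d := by
    intro d
    have h := card_Ed x hxinj d Finset.univ
    rw [hximg] at h
    rw [h]
    congr 1
    ext p
    simp
  have hE : (Ed x 1).card = 2 * u A.card := by rw [hEd, P_even, hAf]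
  have hEle : ∀ d, (Ed x d).card ≤ (Ed x 1).card := by
    intro d
    rw [hE, hEd, P_even]
    exact Nat.mul_le_mul_left _ (hUsp.2.1 A d)
  obtain ⟨U, W, hUW, hW1, hW2⟩ := hPart hUsp x hxinj hE
  -- the size of `A`
  have hubd : u A.card ≤ A.card * A.card := by
    rw [← hAf]
    exact f_le A 1
  have hn2048 : 2048 ≤ A.card := by
    have h1 : 2048 * A.card ≤ A.card * A.card := hu.trans hubd
    exact Nat.le_of_mul_le_mul_right h1 (by omega)
  -- the distances
  set D : Finset ℝ := insert 1 (distances A) with hD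
  have hDcard : D.card ≤ A.card ^ 2 + 1 := by
    refine (Finset.card_insert_le _ _).trans ?_
    have : (distances A).card ≤ A.card ^ 2 := by
      unfold distances
      refine Finset.card_image_le.trans ?_
      rw [Finset.offDiag_card, pow_two]
      exact Nat.sub_le _ _
    omega
  have hDcard' : (D.card : ℝ) ≤ (A.card : ℝ) ^ 2 + 1 := by exact_mod_cast hDcard
  have hexp0 := Real.exp_pos (-((k : ℝ) / 402653184))
  have hexp1 : ((D.card : ℝ) + 1) * Real.exp (-((k : ℝ) / 402653184)) < 1 := by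
    refine lt_of_le_of_lt ?_ hexp
    apply mul_le_mul_of_nonneg_right _ hexp0.le
    have : (0 : ℝ) ≤ (A.card : ℝ) ^ 2 := sq_nonneg _
    linarith
  obtain ⟨φ, ω, hS1, hS2⟩ := hStA hKT hExp hCos hMean hDiff hVar x hxinj hn hk
    (by rw [hE]; omega) hEle U W hUW hW1 hW2 D hexp1
  -- the reals
  set E : ℝ := ((Ed x 1).card : ℝ) with hEdef
  have hEu : E = 2 * (u A.card : ℝ) := by
    rw [hEdef, hE]
    push_cast
    rfl
  set m : ℝ := (A.card : ℝ) with hm
  have hm2048 : (2048 : ℝ) ≤ m := by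
    rw [hm]
    exact_mod_cast hn2048
  have hu' : 2048 * m ≤ (u A.card : ℝ) := by
    rw [hm]
    exact_mod_cast hu
  have hE4096 : 4096 * m ≤ E := by linarith
  have hm0 : (0 : ℝ) < m := by linarith
  have hE0 : (0 : ℝ) < E := by linarith
  set s : ℝ := √(m * E) with hs
  have hs64 : 64 * m ≤ s := by
    rw [hs]
    apply Real.le_sqrt_of_sq_le
    have : m * (4096 * m) ≤ m * E := mul_le_mul_of_nonneg_left hE4096 hm0.le
    calc (64 * m) ^ 2 = m * (4096 * m) := by ring
      _ ≤ m * E := this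
  have hs0 : 0 < s := by linarith
  have hssq : s ^ 2 = m * E := by
    rw [hs]
    exact Real.sq_sqrt (by positivity)
  have hvs : 4 * √(m * (u A.card : ℝ)) ≤ 3 * s := by
    have h1 : 4 * √(m * (u A.card : ℝ)) = √(16 * (m * (u A.card : ℝ))) := by
      rw [Real.sqrt_mul (by norm_num : (0 : ℝ) ≤ 16)]
      congr 1
      rw [show (16 : ℝ) = 4 ^ 2 by norm_num]
      exact (Real.sqrt_sq (by norm_num)).symm
    have h2 : 3 * s = √(9 * (m * E)) := by
      rw [Real.sqrt_mul (by norm_num : (0 : ℝ) ≤ 9), hs]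
      congr 1
      rw [show (9 : ℝ) = 3 ^ 2 by norm_num]
      exact (Real.sqrt_sq (by norm_num)).symm
    rw [h1, h2]
    apply Real.sqrt_le_sqrt
    rw [hEu]
    have : 0 ≤ m * (u A.card : ℝ) := mul_nonneg hm0.le (Nat.cast_nonneg _)
    linarith
  -- the rounding
  set w : Fin k → Fin A.card → ℝ := fun i a => (1 + vv x U W φ (ω i) a) / 2 with hw
  have hw01 : ∀ i a, 0 ≤ w i a ∧ w i a ≤ 1 := by
    intro i a
    have h := abs_le.mp (Core_vv_abs x U W φ (ω i) a)
    rw [hw]
    constructor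
    · simp only
      linarith [h.1]
    · simp only
      linarith [h.2]
  have hlam : 0 < s / 2048 := by positivity
  have hk' : (1 : ℝ) ≤ k := by exact_mod_cast hk
  have hexp2 : 2 * (D.card : ℝ) *
      Real.exp (-((k : ℝ) * (s / 2048) ^ 2 / (24 * (A.card : ℝ) ^ 2))) < 1 := by
    have h1 : (k : ℝ) / 402653184 ≤ (k : ℝ) * (s / 2048) ^ 2 / (24 * (A.card : ℝ) ^ 2) := by
      rw [← hm, div_pow, hssq]
      rw [le_div_iff₀ (by positivity)]
      have h2 : m * (4096 * m) ≤ m * E := mul_le_mul_of_nonneg_left hE4096 hm0.le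
      have h3 : (k : ℝ) * (m * (4096 * m)) ≤ k * (m * E) :=
        mul_le_mul_of_nonneg_left h2 (by linarith)
      have h4 : 0 ≤ (k : ℝ) * m ^ 2 := by positivity
      calc (k : ℝ) / 402653184 * (24 * m ^ 2) = (k * m ^ 2) * (24 / 402653184) := by ring
        _ ≤ (k * m ^ 2) * (4096 / 2048 ^ 2) := by
            apply mul_le_mul_of_nonneg_left _ h4
            norm_num
        _ = (k : ℝ) * (m * (4096 * m)) / 2048 ^ 2 := by ring
        _ ≤ k * (m * E) / 2048 ^ 2 := by
            apply div_le_div_of_nonneg_right h3 (by norm_num)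
        _ = (k : ℝ) * (m * E / 2048 ^ 2) := by ring
    have h5 : Real.exp (-((k : ℝ) * (s / 2048) ^ 2 / (24 * (A.card : ℝ) ^ 2))) ≤
        Real.exp (-((k : ℝ) / 402653184)) := Real.exp_le_exp.mpr (neg_le_neg h1)
    refine lt_of_le_of_lt ?_ hexp
    have h6 : 2 * (D.card : ℝ) ≤ 2 * (m ^ 2 + 2) := by linarith
    exact mul_le_mul h6 h5 (Real.exp_pos _).le (by positivity)
  obtain ⟨S, hS⟩ := hRnd hKT x hxinj hn hk w hw01 D (s / 2048) hlam hexp2
  have hsum : ∀ d, ∑ i, ∑ p ∈ Ed x d, w i p.1 * w i p.2 = ∑ i, hh x U W φ d (ω i) := by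
    intro d
    rfl
  -- the sets
  set B : Fin k → Finset Plane := fun i => (S i).image x with hB
  have hBP : ∀ i d, P (B i) d = ((Ed x d).filter (fun p => p.1 ∈ S i ∧ p.2 ∈ S i)).card := by
    intro i d
    exact card_Ed x hxinj d (S i)
  have hlow : (k : ℝ) * (E / 4 + 10 / 2048 * s - 2) ≤ ((∑ i, P (B i) 1 : ℕ) : ℝ) := by
    have h1 := hS 1 (Finset.mem_insert_self _ _)
    rw [hsum] at h1
    have h2 := (abs_le.mp h1).1
    have h3 : ∑ i, P (B i) 1 = ∑ i, ((Ed x 1).filter (fun p => p.1 ∈ S i ∧ p.2 ∈ S i)).card :=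
      Finset.sum_congr rfl (fun i _ => hBP i 1)
    rw [h3]
    have h4 : (k : ℝ) * (E / 4 + 10 / 2048 * s - 2) =
        k * (E / 4 + 11 / 2048 * s) - k * (s / 2048 + 2) := by ring
    linarith
  have hup : ∀ d, d ≠ 1 → ((∑ i, P (B i) d : ℕ) : ℝ) ≤
      k * (E / 4 + m / 8 + 2 / 2048 * s + 2) := by
    intro d hd1
    have h3 : ∑ i, P (B i) d = ∑ i, ((Ed x d).filter (fun p => p.1 ∈ S i ∧ p.2 ∈ S i)).card :=
      Finset.sum_congr rfl (fun i _ => hBP i d)
    by_cases hd : d ∈ D
    · have h1 := hS d hd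
      rw [hsum] at h1
      have h2 := (abs_le.mp h1).2
      have h5 := hS1 d hd hd1
      rw [h3]
      have h4 : (k : ℝ) * (E / 4 + m / 8 + 2 / 2048 * s + 2) =
          k * (E / 4 + m / 8 + s / 2048) + k * (s / 2048 + 2) := by ring
      linarith
    · have h6 : P A d = 0 := by
        by_contra h
        exact hd (Finset.mem_insert_of_mem (mem_distances.mpr h))
      have h7 : Ed x d = ∅ := by
        rw [← Finset.card_eq_zero, hEd, h6]
      have h8 : ∑ i, P (B i) d = 0 := by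
        apply Finset.sum_eq_zero
        intro i _
        rw [hBP, h7]
        simp
      rw [h8, Nat.cast_zero]
      positivity
  obtain ⟨U₀, hU₀, hU₀P⟩ := family3 (Finset.univ : Finset (Fin k)) B
  have hU₀card : U₀.card ≤ N := by
    rw [hU₀]
    refine le_trans ?_ hN
    calc ∑ i, (B i).card ≤ ∑ _i : Fin k, A.card := by
          apply Finset.sum_le_sum
          intro i _
          refine Finset.card_image_le.trans ((Finset.card_le_univ _).trans ?_)
          rw [Fintype.card_fin]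
      _ = k * A.card := by
          rw [Finset.sum_const, Finset.card_univ, Fintype.card_fin, smul_eq_mul]
  obtain ⟨V, hV, hVP⟩ := pad U₀ hU₀card
  have hF : (k : ℝ) * (E / 4 + 10 / 2048 * s - 2) ≤ 2 * (fr V 1 : ℝ) := by
    have h1 : ∑ i, P (B i) 1 ≤ P V 1 := (hU₀P 1).1.trans (hVP 1).1
    rw [P_even V] at h1
    have h2 : f V 1 ≤ fr V 1 := f_le_fr_one V 1
    have h3 : ((∑ i, P (B i) 1 : ℕ) : ℝ) ≤ 2 * (fr V 1 : ℝ) := by
      have : ∑ i, P (B i) 1 ≤ 2 * fr V 1 := by omega
      exact_mod_cast this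
    linarith
  have hG : 2 * (fr V 2 : ℝ) ≤ max (k * (E / 4 + m / 8 + 2 / 2048 * s + 2)) 2 := by
    by_cases h0 : fr V 2 = 0
    · rw [h0, Nat.cast_zero, mul_zero]
      exact le_max_of_le_right (by norm_num)
    · obtain ⟨d, hd, hd'⟩ := exists_other V (r := 1) {1} (by simp)
        (show 1 ≤ fr V (1 + 1) from Nat.one_le_iff_ne_zero.mpr h0)
      have hd1 : d ≠ 1 := by
        intro h
        exact hd (Finset.mem_singleton.mpr h)
      have h1 : P V d ≤ max (∑ i, P (B i) d) 2 :=
        (hVP d).2.trans (max_le (hU₀P d).2 (le_max_right _ _))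
      rw [P_even V] at h1
      have h2 : 2 * fr V 2 ≤ max (∑ i, P (B i) d) 2 :=
        (Nat.mul_le_mul_left 2 hd').trans h1
      have h3 : 2 * (fr V 2 : ℝ) ≤ max ((∑ i, P (B i) d : ℕ) : ℝ) 2 := by
        exact_mod_cast h2
      exact h3.trans (max_le_max (hup d hd1) le_rfl)
  have hMge : (fr V 1 : ℝ) - (fr V 2 : ℝ) ≤ (M 1 N : ℝ) := by
    have h1 : fr V 1 - fr V (1 + 1) ≤ M 1 N := Pool.Agent.Helper60.Gap.le_M V hV
    have h2 : fr V 2 ≤ fr V 1 := fr_anti V (by omega)
    have h3 : ((fr V 1 - fr V 2 : ℕ) : ℝ) ≤ M 1 N := by exact_mod_cast h1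
    rwa [Nat.cast_sub h2] at h3
  exact Core_arith k m E (√(m * (u A.card : ℝ))) s (fr V 1) (fr V 2) (M 1 N) hk' hm2048
    (Real.sqrt_nonneg _) hs64 hvs hF hE0.le hG hMge

end Pool.Agent.GMU
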