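import Pool.Agent.GMU.St

/-!
# GMU, module Cos: sums of cos and sin over independent signs (proved by helper27)
-/

set_option autoImplicit false

namespace Pool.Agent.GMU

open Finset Pool.Agent.Helper53.Generic Pool.Agent.Helper60.Gap

theorem thm_Cos : St_Cos := by
  intro n t
  have hone : ∀ y : ℝ, ∑ c : Fin 2, Complex.exp (((y * sg c : ℝ) : ℂ) * Complex.I) =
      ((2 * Real.cos y : ℝ) : ℂ) := by
    intro y
    rw [Fin.sum_univ_two]
    have h0 : sg 0 = 1 := by simp [sg]
    have h1 : sg 1 = -1 := by simp [sg]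
    rw [h0, h1, mul_one, mul_neg, mul_one]
    push_cast
    rw [Complex.cos]
    ring
  have hsum : ∑ ω : Fin n → Fin 2, Complex.exp (((∑ j, t j * sg (ω j) : ℝ) : ℂ) * Complex.I) =
      ((2 ^ n * ∏ j, Real.cos (t j) : ℝ) : ℂ) := by
    have h := Finset.prod_univ_sum (fun _ : Fin n => (Finset.univ : Finset (Fin 2)))
      (fun j c => Complex.exp (((t j * sg c : ℝ) : ℂ) * Complex.I))
    rw [Fintype.piFinset_univ] at h
    have h2 : ∏ j : Fin n, ∑ c : Fin 2, Complex.exp (((t j * sg c : ℝ) : ℂ) * Complex.I) =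
        ((2 ^ n * ∏ j, Real.cos (t j) : ℝ) : ℂ) := by
      rw [Finset.prod_congr rfl (fun j _ => hone (t j)), ← Complex.ofReal_prod,
        Finset.prod_mul_distrib, Finset.prod_const, Finset.card_univ, Fintype.card_fin]
    rw [h2] at h
    rw [h]
    refine Finset.sum_congr rfl ?_
    intro ω _
    rw [← Complex.exp_sum, ← Finset.sum_mul, ← Complex.ofReal_sum]
  have hre := congrArg Complex.re hsum
  have him := congrArg Complex.im hsum
  rw [Complex.re_sum, Complex.ofReal_re] at hre
  rw [Complex.im_sum, Complex.ofReal_im] at him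
  constructor
  · rw [← hre]
    exact Finset.sum_congr rfl (fun ω _ => (Complex.exp_ofReal_mul_I_re _).symm)
  · rw [← him]
    exact Finset.sum_congr rfl (fun ω _ => (Complex.exp_ofReal_mul_I_im _).symm)

end Pool.Agent.GMU
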