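import Pool.Agent.GMU.St

/-!
# GMU, module Diff: bounded differences (helper26)
-/

set_option autoImplicit false

namespace Pool.Agent.GMU

open Finset Pool.Agent.Helper53.Generic Pool.Agent.Helper60.Gap

private theorem Diff_sg (c : Fin 2) : sg c = 1 ∨ sg c = -1 := by
  unfold sg
  split_ifs
  · exact Or.inl rfl
  · exact Or.inr rfl

private theorem Diff_vv {n : ℕ} (x : Fin n → Plane) (U W : Finset (Fin n)) (φ : ℝ) (ω : Fin n → Fin 2)
    (a : Fin n) : -1 ≤ vv x U W φ ω a ∧ vv x U W φ ω a ≤ 1 := by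
  classical
  unfold vv
  split_ifs
  · rcases Diff_sg (ω a) with h | h <;> rw [h] <;> constructor <;> norm_num
  · exact ⟨Real.neg_one_le_sin _, Real.sin_le_one _⟩
  · constructor <;> norm_num

/-- the difference of the weight of `a` -/
private theorem Diff_one {n : ℕ} (x : Fin n → Plane) (U W : Finset (Fin n)) (φ : ℝ) (h0 : 0 ≤ φ)
    (c : Fin n) (ω ω' : Fin n → Fin 2) (h : ∀ b, b ≠ c → ω b = ω' b) (a : Fin n) :
    |(1 + vv x U W φ ω a) / 2 - (1 + vv x U W φ ω' a) / 2| ≤
      (if a = c then 1 else 0) + (if a ∈ W ∧ (a, c) ∈ Ed x 1 then φ else 0) := by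
  classical
  have hnn : (0 : ℝ) ≤ (if a ∈ W ∧ (a, c) ∈ Ed x 1 then φ else 0) := by
    split_ifs
    · exact h0
    · exact le_rfl
  by_cases hac : a = c
  · rw [if_pos hac]
    have h1 := Diff_vv x U W φ ω a
    have h2 := Diff_vv x U W φ ω' a
    have h3 : |(1 + vv x U W φ ω a) / 2 - (1 + vv x U W φ ω' a) / 2| ≤ 1 := by
      rw [abs_le]
      constructor <;> linarith [h1.1, h1.2, h2.1, h2.2]
    linarith
  · rw [if_neg hac, zero_add]
    by_cases haU : a ∈ U
    · have e : vv x U W φ ω a = vv x U W φ ω' a := by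
        unfold vv
        rw [if_pos haU, if_pos haU, h a hac]
      rw [e, sub_self, abs_zero]
      exact hnn
    · by_cases haW : a ∈ W
      · have e1 : ∀ ω : Fin n → Fin 2, vv x U W φ ω a = Real.sin (∑ j ∈ nb x U a, φ * sg (ω j)) := by
          intro ω
          unfold vv
          rw [if_neg haU, if_pos haW]
        by_cases hc : c ∈ nb x U a
        · have hE : (a, c) ∈ Ed x 1 := (Finset.mem_filter.1 hc).2
          rw [if_pos ⟨haW, hE⟩, e1, e1]
          have h2 : ∑ j ∈ nb x U a, φ * sg (ω j) - ∑ j ∈ nb x U a, φ * sg (ω' j) =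
              φ * (sg (ω c) - sg (ω' c)) := by
            rw [← Finset.sum_sub_distrib, ← Finset.add_sum_erase _ _ hc]
            have h3 : ∑ j ∈ (nb x U a).erase c, (φ * sg (ω j) - φ * sg (ω' j)) = 0 := by
              apply Finset.sum_eq_zero
              intro j hj
              rw [h j (Finset.ne_of_mem_erase hj), sub_self]
            rw [h3]
            ring
          have h4 : |Real.sin (∑ j ∈ nb x U a, φ * sg (ω j)) - Real.sin (∑ j ∈ nb x U a, φ * sg (ω' j))| ≤
              |∑ j ∈ nb x U a, φ * sg (ω j) - ∑ j ∈ nb x U a, φ * sg (ω' j)| := by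
            set X := ∑ j ∈ nb x U a, φ * sg (ω j)
            set Y := ∑ j ∈ nb x U a, φ * sg (ω' j)
            rw [Real.sin_sub_sin, abs_mul, abs_mul, abs_two]
            have h5 : |Real.sin ((X - Y) / 2)| ≤ |(X - Y) / 2| := Real.abs_sin_le_abs
            have h6 : |Real.cos ((X + Y) / 2)| ≤ 1 := Real.abs_cos_le_one _
            rw [abs_div, abs_two] at h5
            have h7 : 2 * |Real.sin ((X - Y) / 2)| * |Real.cos ((X + Y) / 2)| ≤
                2 * |Real.sin ((X - Y) / 2)| * 1 :=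
              mul_le_mul_of_nonneg_left h6 (by positivity)
            linarith
          have h8 : |φ * (sg (ω c) - sg (ω' c))| ≤ 2 * φ := by
            rw [abs_mul, abs_of_nonneg h0]
            have h9 : |sg (ω c) - sg (ω' c)| ≤ 2 := by
              rcases Diff_sg (ω c) with h1 | h1 <;> rcases Diff_sg (ω' c) with h2 | h2 <;>
                rw [h1, h2] <;> norm_num
            nlinarith
          have h10 := h4.trans ((le_of_eq (congrArg _ h2)).trans h8)
          have e2 : (1 + Real.sin (∑ j ∈ nb x U a, φ * sg (ω j))) / 2 -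
              (1 + Real.sin (∑ j ∈ nb x U a, φ * sg (ω' j))) / 2 =
              (Real.sin (∑ j ∈ nb x U a, φ * sg (ω j)) -
                Real.sin (∑ j ∈ nb x U a, φ * sg (ω' j))) / 2 := by ring
          rw [e2, abs_div, abs_two]
          linarith
        · have h2 : ∑ j ∈ nb x U a, φ * sg (ω j) = ∑ j ∈ nb x U a, φ * sg (ω' j) := by
            refine Finset.sum_congr rfl fun j hj => ?_
            rw [h j (fun hjc => hc (hjc ▸ hj))]
          rw [e1, e1, h2, sub_self, abs_zero]
          exact hnn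
      · have e : ∀ ω : Fin n → Fin 2, vv x U W φ ω a = 0 := by
          intro ω
          unfold vv
          rw [if_neg haU, if_neg haW]
        rw [e, e, sub_self, abs_zero]
        exact hnn

private theorem Diff_mul {p q p' q' : ℝ} (hp : 0 ≤ p ∧ p ≤ 1) (hq' : 0 ≤ q' ∧ q' ≤ 1) :
    |p * q - p' * q'| ≤ |p - p'| + |q - q'| := by
  have e : p * q - p' * q' = p * (q - q') + (p - p') * q' := by ring
  rw [e]
  refine (abs_add_le _ _).trans ?_
  rw [abs_mul, abs_mul, abs_of_nonneg hp.1, abs_of_nonneg hq'.1]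
  have h1 : p * |q - q'| ≤ 1 * |q - q'| := mul_le_mul_of_nonneg_right hp.2 (abs_nonneg _)
  have h2 : |p - p'| * q' ≤ |p - p'| * 1 := mul_le_mul_of_nonneg_left hq'.2 (abs_nonneg _)
  linarith

private theorem Diff_sum1 {n : ℕ} (x : Fin n → Plane) (d : ℝ) (g : Fin n → ℝ) :
    ∑ p ∈ Ed x d, g p.1 = ∑ a, (dg x d a : ℝ) * g a := by
  classical
  rw [← Finset.sum_fiberwise (Ed x d) (fun p => p.1) (fun p => g p.1)]
  refine Finset.sum_congr rfl fun a _ => ?_
  rw [Finset.sum_congr rfl (g := fun _ => g a) (fun p hp => by rw [(Finset.mem_filter.1 hp).2]),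
    Finset.sum_const, nsmul_eq_mul]
  rfl

private theorem Diff_sum2 {n : ℕ} (x : Fin n → Plane) (d : ℝ) (g : Fin n → ℝ) :
    ∑ p ∈ Ed x d, g p.2 = ∑ a, (dg x d a : ℝ) * g a := by
  classical
  rw [← Finset.sum_fiberwise (Ed x d) (fun p => p.2) (fun p => g p.2)]
  refine Finset.sum_congr rfl fun a _ => ?_
  rw [Finset.sum_congr rfl (g := fun _ => g a) (fun p hp => by rw [(Finset.mem_filter.1 hp).2]),
    Finset.sum_const, nsmul_eq_mul, dg_eq']

theorem thm_Diff : St_Diff := by
  classical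
  intro n x U W φ d hUW h0 c ω ω' h
  have hw : ∀ (ω : Fin n → Fin 2) (a : Fin n),
      0 ≤ (1 + vv x U W φ ω a) / 2 ∧ (1 + vv x U W φ ω a) / 2 ≤ 1 := by
    intro ω a
    have h1 := Diff_vv x U W φ ω a
    constructor <;> linarith [h1.1, h1.2]
  have h1 : hh x U W φ d ω - hh x U W φ d ω' = ∑ p ∈ Ed x d,
      (((1 + vv x U W φ ω p.1) / 2) * ((1 + vv x U W φ ω p.2) / 2) -
        ((1 + vv x U W φ ω' p.1) / 2) * ((1 + vv x U W φ ω' p.2) / 2)) := by
    unfold hh
    rw [Finset.sum_sub_distrib]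
  rw [h1]
  refine (Finset.abs_sum_le_sum_abs _ _).trans ?_
  set g : Fin n → ℝ := fun a => (if a = c then 1 else 0) +
    (if a ∈ W ∧ (a, c) ∈ Ed x 1 then φ else 0) with hg
  have h2 : ∑ p ∈ Ed x d, |((1 + vv x U W φ ω p.1) / 2) * ((1 + vv x U W φ ω p.2) / 2) -
        ((1 + vv x U W φ ω' p.1) / 2) * ((1 + vv x U W φ ω' p.2) / 2)| ≤
      ∑ p ∈ Ed x d, (g p.1 + g p.2) := by
    refine Finset.sum_le_sum fun p _ => ?_
    refine (Diff_mul (hw ω p.1) (hw ω' p.2)).trans ?_
    exact add_le_add (Diff_one x U W φ h0 c ω ω' h p.1) (Diff_one x U W φ h0 c ω ω' h p.2)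
  refine h2.trans (le_of_eq ?_)
  rw [Finset.sum_add_distrib, Diff_sum1 x d g, Diff_sum2 x d g]
  have h3 : ∑ a, (dg x d a : ℝ) * g a =
      dg x d c + φ * (∑ a ∈ W.filter (fun a => (a, c) ∈ Ed x 1), dg x d a : ℕ) := by
    rw [hg]
    simp only [mul_add, Finset.sum_add_distrib]
    congr 1
    · simp
    · push_cast
      rw [Finset.mul_sum, Finset.sum_filter]
      rw [← Finset.sum_filter_add_sum_filter_not Finset.univ (fun a => a ∈ W)]
      have e1 : Finset.univ.filter (fun a => a ∈ W) = W := by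
        ext a
        simp
      have e2 : ∑ a ∈ Finset.univ.filter (fun a => ¬ a ∈ W),
          (dg x d a : ℝ) * (if a ∈ W ∧ (a, c) ∈ Ed x 1 then φ else 0) = 0 := by
        apply Finset.sum_eq_zero
        intro a ha
        rw [Finset.mem_filter] at ha
        rw [if_neg (fun hh => ha.2 hh.1), mul_zero]
      rw [e1, e2, add_zero]
      refine Finset.sum_congr rfl fun a ha => ?_
      by_cases h4 : (a, c) ∈ Ed x 1
      · rw [if_pos ⟨ha, h4⟩, if_pos h4, mul_comm]
      · rw [if_neg (fun hh => h4 hh.2), if_neg h4, mul_zero]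
  unfold Lc
  rw [h3]
  ring

end Pool.Agent.GMU
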