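import Pool.Agent.GMU.St

/-!
# GMU, module Exp: the correlations of the signed weights (helper26)
-/

set_option autoImplicit false

namespace Pool.Agent.GMU

open Finset Pool.Agent.Helper53.Generic Pool.Agent.Helper60.Gap

/-- the coefficients of `vv` -/
noncomputable def Exp_t {n : ℕ} (x : Fin n → Plane) (U W : Finset (Fin n)) (φ : ℝ) (a j : Fin n) : ℝ :=
  open scoped Classical in
  if a ∈ U then (if j = a then Real.pi / 2 else 0)
  else if a ∈ W then (if j ∈ nb x U a then φ else 0) else 0

private theorem Exp_sg (c : Fin 2) : sg c = 1 ∨ sg c = -1 := by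
  unfold sg
  split_ifs
  · exact Or.inl rfl
  · exact Or.inr rfl

private theorem Exp_vv {n : ℕ} (x : Fin n → Plane) (U W : Finset (Fin n)) (φ : ℝ) (ω : Fin n → Fin 2)
    (a : Fin n) : vv x U W φ ω a = Real.sin (∑ j, Exp_t x U W φ a j * sg (ω j)) := by
  classical
  unfold vv Exp_t
  by_cases h1 : a ∈ U
  · simp only [h1, if_true]
    have e : ∑ j, (if j = a then Real.pi / 2 else 0) * sg (ω j) = Real.pi / 2 * sg (ω a) := by
      simp [ite_mul]
    rw [e]
    rcases Exp_sg (ω a) with h | h
    · rw [h, mul_one, Real.sin_pi_div_two]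
    · rw [h, mul_neg, mul_one, Real.sin_neg, Real.sin_pi_div_two]
  · simp only [h1, if_false]
    by_cases h2 : a ∈ W
    · simp only [h2, if_true]
      congr 1
      rw [← Finset.sum_filter_add_sum_filter_not Finset.univ (fun j => j ∈ nb x U a)]
      have e1 : ∑ j ∈ Finset.univ.filter (fun j => j ∈ nb x U a),
          (if j ∈ nb x U a then φ else 0) * sg (ω j) = ∑ j ∈ nb x U a, φ * sg (ω j) := by
        have e3 : Finset.univ.filter (fun j => j ∈ nb x U a) = nb x U a := by
          ext j
          simp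
        rw [e3]
        refine Finset.sum_congr rfl fun j hj => ?_
        rw [if_pos hj]
      have e2 : ∑ j ∈ Finset.univ.filter (fun j => ¬ j ∈ nb x U a),
          (if j ∈ nb x U a then φ else 0) * sg (ω j) = 0 := by
        apply Finset.sum_eq_zero
        intro j hj
        rw [Finset.mem_filter] at hj
        rw [if_neg hj.2, zero_mul]
      rw [e1, e2, add_zero]
    · simp [h2]

private theorem Exp_two (hCos : St_Cos) (n : ℕ) (t t' : Fin n → ℝ) :
    ∑ ω : Fin n → Fin 2, Real.sin (∑ j, t j * sg (ω j)) * Real.sin (∑ j, t' j * sg (ω j)) =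
      2 ^ n * ((∏ j, Real.cos (t j - t' j) - ∏ j, Real.cos (t j + t' j)) / 2) := by
  have h1 := (hCos n (fun j => t j - t' j)).1
  have h2 := (hCos n (fun j => t j + t' j)).1
  have h3 : ∀ ω : Fin n → Fin 2,
      Real.sin (∑ j, t j * sg (ω j)) * Real.sin (∑ j, t' j * sg (ω j)) =
      (Real.cos (∑ j, (t j - t' j) * sg (ω j)) - Real.cos (∑ j, (t j + t' j) * sg (ω j))) / 2 := by
    intro ω
    have e1 : ∑ j, (t j - t' j) * sg (ω j) = ∑ j, t j * sg (ω j) - ∑ j, t' j * sg (ω j) := by
      rw [← Finset.sum_sub_distrib]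
      exact Finset.sum_congr rfl fun j _ => by ring
    have e2 : ∑ j, (t j + t' j) * sg (ω j) = ∑ j, t j * sg (ω j) + ∑ j, t' j * sg (ω j) := by
      rw [← Finset.sum_add_distrib]
      exact Finset.sum_congr rfl fun j _ => by ring
    rw [e1, e2, Real.cos_sub, Real.cos_add]
    ring
  rw [Finset.sum_congr rfl fun ω _ => h3 ω, ← Finset.sum_div, Finset.sum_sub_distrib, h1, h2]
  ring

private theorem Exp_inter {n : ℕ} (x : Fin n → Plane) (hx : Function.Injective x)
    (U : Finset (Fin n)) {a b : Fin n} (hab : a ≠ b) : (nb x U a ∩ nb x U b).card ≤ 2 := by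
  refine le_trans (Finset.card_le_card ?_) (circle_two x 1 hx hab)
  intro i hi
  rw [Finset.mem_inter] at hi
  unfold nb at hi
  rw [Finset.mem_filter, Finset.mem_filter] at hi
  rw [Finset.mem_filter]
  exact ⟨Finset.mem_univ _, Ed_swap x 1 hi.1.2, Ed_swap x 1 hi.2.2⟩

/-- `a ∈ U`, `b ∈ W` -/
private theorem Exp_UW {n : ℕ} (x : Fin n → Plane) (U W : Finset (Fin n)) (φ : ℝ) (hUW : Disjoint U W)
    {a b : Fin n} (ha : a ∈ U) (hb : b ∈ W) :
    (∏ j, Real.cos (Exp_t x U W φ a j - Exp_t x U W φ b j) -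
      ∏ j, Real.cos (Exp_t x U W φ a j + Exp_t x U W φ b j)) / 2 =
      Real.sin (Exp_t x U W φ b a) * ∏ j ∈ Finset.univ.erase a, Real.cos (Exp_t x U W φ b j) := by
  classical
  have hb' : b ∉ U := fun h => Finset.disjoint_left.1 hUW h hb
  have ta : ∀ j, Exp_t x U W φ a j = if j = a then Real.pi / 2 else 0 := by
    intro j
    unfold Exp_t
    rw [if_pos ha]
  rw [← Finset.mul_prod_erase Finset.univ _ (Finset.mem_univ a),
    ← Finset.mul_prod_erase Finset.univ (fun j => Real.cos (Exp_t x U W φ a j + Exp_t x U W φ b j))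
      (Finset.mem_univ a)]
  have e1 : ∏ j ∈ Finset.univ.erase a, Real.cos (Exp_t x U W φ a j - Exp_t x U W φ b j) =
      ∏ j ∈ Finset.univ.erase a, Real.cos (Exp_t x U W φ b j) := by
    refine Finset.prod_congr rfl fun j hj => ?_
    rw [ta j, if_neg (Finset.ne_of_mem_erase hj), zero_sub, Real.cos_neg]
  have e2 : ∏ j ∈ Finset.univ.erase a, Real.cos (Exp_t x U W φ a j + Exp_t x U W φ b j) =
      ∏ j ∈ Finset.univ.erase a, Real.cos (Exp_t x U W φ b j) := by
    refine Finset.prod_congr rfl fun j hj => ?_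
    rw [ta j, if_neg (Finset.ne_of_mem_erase hj), zero_add]
  rw [e1, e2, ta a, if_pos rfl, Real.cos_sub, Real.cos_add, Real.cos_pi_div_two,
    Real.sin_pi_div_two]
  ring

private theorem Exp_WW {n : ℕ} (x : Fin n → Plane) (hx : Function.Injective x)
    (U W : Finset (Fin n)) (φ : ℝ) (hUW : Disjoint U W) (h0 : 0 ≤ φ) (h1 : φ ≤ 1 / 2)
    {a b : Fin n} (hab : a ≠ b) (ha : a ∈ W) (hb : b ∈ W) :
    0 ≤ (∏ j, Real.cos (Exp_t x U W φ a j - Exp_t x U W φ b j) -
      ∏ j, Real.cos (Exp_t x U W φ a j + Exp_t x U W φ b j)) / 2 ∧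
    (∏ j, Real.cos (Exp_t x U W φ a j - Exp_t x U W φ b j) -
      ∏ j, Real.cos (Exp_t x U W φ a j + Exp_t x U W φ b j)) / 2 ≤ 2 * φ ^ 2 := by
  classical
  have ha' : a ∉ U := fun h => Finset.disjoint_left.1 hUW h ha
  have hb' : b ∉ U := fun h => Finset.disjoint_left.1 hUW h hb
  have ta : ∀ j, Exp_t x U W φ a j = if j ∈ nb x U a then φ else 0 := by
    intro j
    unfold Exp_t
    rw [if_neg ha', if_pos ha]
  have tb : ∀ j, Exp_t x U W φ b j = if j ∈ nb x U b then φ else 0 := by
    intro j
    unfold Exp_t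
    rw [if_neg hb', if_pos hb]
  have hpi := Real.pi_gt_three
  have hcφ : 0 ≤ Real.cos φ := Real.cos_nonneg_of_mem_Icc ⟨by linarith, by linarith⟩
  have hc2 : 0 ≤ Real.cos (2 * φ) := Real.cos_nonneg_of_mem_Icc ⟨by linarith, by linarith⟩
  have hc2' : Real.cos (2 * φ) ≤ 1 := Real.cos_le_one _
  set I := nb x U a ∩ nb x U b with hI
  have key : ∏ j, Real.cos (Exp_t x U W φ a j + Exp_t x U W φ b j) =
      (∏ j, Real.cos (Exp_t x U W φ a j - Exp_t x U W φ b j)) * Real.cos (2 * φ) ^ I.card := by
    have e1 : Real.cos (2 * φ) ^ I.card = ∏ j, if j ∈ I then Real.cos (2 * φ) else 1 := by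
      rw [Finset.prod_ite_mem, Finset.univ_inter, Finset.prod_const]
    rw [e1, ← Finset.prod_mul_distrib]
    refine Finset.prod_congr rfl fun j _ => ?_
    rw [ta j, tb j]
    by_cases h2 : j ∈ nb x U a <;> by_cases h3 : j ∈ nb x U b
    · have h4 : j ∈ I := Finset.mem_inter.2 ⟨h2, h3⟩
      rw [if_pos h2, if_pos h3, if_pos h4, sub_self, Real.cos_zero, one_mul, two_mul]
    · have h4 : j ∉ I := fun h => h3 (Finset.mem_inter.1 h).2
      rw [if_pos h2, if_neg h3, if_neg h4, sub_zero, add_zero, mul_one]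
    · have h4 : j ∉ I := fun h => h2 (Finset.mem_inter.1 h).1
      rw [if_neg h2, if_pos h3, if_neg h4, zero_sub, zero_add, mul_one, Real.cos_neg]
    · have h4 : j ∉ I := fun h => h2 (Finset.mem_inter.1 h).1
      rw [if_neg h2, if_neg h3, if_neg h4, sub_zero, add_zero, mul_one]
  set Q := ∏ j, Real.cos (Exp_t x U W φ a j - Exp_t x U W φ b j) with hQ
  have hQ0 : 0 ≤ Q ∧ Q ≤ 1 := by
    have h5 : ∀ j ∈ (Finset.univ : Finset (Fin n)),
        0 ≤ Real.cos (Exp_t x U W φ a j - Exp_t x U W φ b j) := by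
      intro j _
      rw [ta j, tb j]
      split_ifs
      · simp
      · simpa using hcφ
      · simpa using hcφ
      · simp
    exact ⟨Finset.prod_nonneg h5, Finset.prod_le_one h5 fun j _ => Real.cos_le_one _⟩
  have hcard : I.card ≤ 2 := Exp_inter x hx U hab
  have h6 : Real.cos (2 * φ) ^ I.card ≤ 1 := pow_le_one₀ hc2 hc2'
  have h7 : Real.cos (2 * φ) ^ 2 ≤ Real.cos (2 * φ) ^ I.card :=
    pow_le_pow_of_le_one hc2 hc2' hcard
  have h8 : 1 - Real.cos (2 * φ) ^ 2 ≤ 4 * φ ^ 2 := by
    have e2 : 1 - Real.cos (2 * φ) ^ 2 = Real.sin (2 * φ) ^ 2 := by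
      rw [Real.sin_sq]
    rw [e2]
    have h9 : |Real.sin (2 * φ)| ≤ |2 * φ| := Real.abs_sin_le_abs
    have h10 := sq_le_sq.2 h9
    nlinarith [h10]
  rw [key]
  constructor
  · nlinarith [hQ0.1, h6]
  · have h11 : Q * (1 - Real.cos (2 * φ) ^ I.card) ≤ 1 * (4 * φ ^ 2) := by
      apply mul_le_mul hQ0.2 (by linarith) (by linarith) zero_le_one
    nlinarith [h11]

theorem thm_Exp : St_Exp := by
  classical
  intro hCos n x hx U W φ hUW h0 h1
  refine ⟨?_, ?_, ?_⟩
  · intro a
    rw [Finset.sum_congr rfl fun ω _ => Exp_vv x U W φ ω a]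
    exact (hCos n _).2
  · intro a b hab hab1 hab2
    have e1 : ∑ ω, vv x U W φ ω a * vv x U W φ ω b =
        2 ^ n * ((∏ j, Real.cos (Exp_t x U W φ a j - Exp_t x U W φ b j) -
          ∏ j, Real.cos (Exp_t x U W φ a j + Exp_t x U W φ b j)) / 2) := by
      rw [← Exp_two hCos]
      exact Finset.sum_congr rfl fun ω _ => by rw [Exp_vv, Exp_vv]
    -- it is enough to bound the bracket
    have hred : 0 ≤ (∏ j, Real.cos (Exp_t x U W φ a j - Exp_t x U W φ b j) -
          ∏ j, Real.cos (Exp_t x U W φ a j + Exp_t x U W φ b j)) / 2 ∧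
        (∏ j, Real.cos (Exp_t x U W φ a j - Exp_t x U W φ b j) -
          ∏ j, Real.cos (Exp_t x U W φ a j + Exp_t x U W φ b j)) / 2 ≤ 2 * φ ^ 2 := by
      have hzero : ∀ y : ℝ, y = 0 → 0 ≤ y ∧ y ≤ 2 * φ ^ 2 := by
        rintro y rfl
        exact ⟨le_rfl, by positivity⟩
      by_cases haU : a ∈ U
      · by_cases hbU : b ∈ U
        · apply hzero
          have e2 : ∏ j, Real.cos (Exp_t x U W φ a j - Exp_t x U W φ b j) = 0 := by
            refine Finset.prod_eq_zero (Finset.mem_univ a) ?_
            unfold Exp_t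
            rw [if_pos haU, if_pos hbU, if_pos rfl, if_neg hab, sub_zero, Real.cos_pi_div_two]
          have e3 : ∏ j, Real.cos (Exp_t x U W φ a j + Exp_t x U W φ b j) = 0 := by
            refine Finset.prod_eq_zero (Finset.mem_univ a) ?_
            unfold Exp_t
            rw [if_pos haU, if_pos hbU, if_pos rfl, if_neg hab, add_zero, Real.cos_pi_div_two]
          rw [e2, e3, sub_self, zero_div]
        · by_cases hbW : b ∈ W
          · apply hzero
            rw [Exp_UW x U W φ hUW haU hbW]
            have e2 : Exp_t x U W φ b a = 0 := by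
              unfold Exp_t
              rw [if_neg hbU, if_pos hbW, if_neg (hab1 haU hbW)]
            rw [e2, Real.sin_zero, zero_mul]
          · apply hzero
            have e2 : ∀ j, Exp_t x U W φ b j = 0 := by
              intro j
              unfold Exp_t
              rw [if_neg hbU, if_neg hbW]
            simp [e2]
      · by_cases haW : a ∈ W
        · by_cases hbU : b ∈ U
          · apply hzero
            have e4 : (∏ j, Real.cos (Exp_t x U W φ a j - Exp_t x U W φ b j) -
                ∏ j, Real.cos (Exp_t x U W φ a j + Exp_t x U W φ b j)) / 2 =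
                (∏ j, Real.cos (Exp_t x U W φ b j - Exp_t x U W φ a j) -
                ∏ j, Real.cos (Exp_t x U W φ b j + Exp_t x U W φ a j)) / 2 := by
              congr 2
              · refine Finset.prod_congr rfl fun j _ => ?_
                rw [← Real.cos_neg, neg_sub]
              · refine Finset.prod_congr rfl fun j _ => ?_
                rw [add_comm]
            rw [e4, Exp_UW x U W φ hUW hbU haW]
            have e2 : Exp_t x U W φ a b = 0 := by
              unfold Exp_t
              rw [if_neg haU, if_pos haW, if_neg (hab2 hbU haW)]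
            rw [e2, Real.sin_zero, zero_mul]
          · by_cases hbW : b ∈ W
            · exact Exp_WW x hx U W φ hUW h0 h1 hab haW hbW
            · apply hzero
              have e2 : ∀ j, Exp_t x U W φ b j = 0 := by
                intro j
                unfold Exp_t
                rw [if_neg hbU, if_neg hbW]
              simp [e2]
        · apply hzero
          have e2 : ∀ j, Exp_t x U W φ a j = 0 := by
            intro j
            unfold Exp_t
            rw [if_neg haU, if_neg haW]
          simp [e2]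
    rw [e1]
    exact ⟨mul_nonneg (by positivity) hred.1, mul_le_mul_of_nonneg_left hred.2 (by positivity)⟩
  · intro a b hb hab
    have ha : a ∈ U := (Finset.mem_filter.1 hab).1
    have hb' : b ∉ U := fun h => Finset.disjoint_left.1 hUW h hb
    have e1 : ∑ ω, vv x U W φ ω a * vv x U W φ ω b =
        2 ^ n * ((∏ j, Real.cos (Exp_t x U W φ a j - Exp_t x U W φ b j) -
          ∏ j, Real.cos (Exp_t x U W φ a j + Exp_t x U W φ b j)) / 2) := by
      rw [← Exp_two hCos]
      exact Finset.sum_congr rfl fun ω _ => by rw [Exp_vv, Exp_vv]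
    rw [e1, Exp_UW x U W φ hUW ha hb]
    have tb : ∀ j, Exp_t x U W φ b j = if j ∈ nb x U b then φ else 0 := by
      intro j
      unfold Exp_t
      rw [if_neg hb', if_pos hb]
    have e2 : ∏ j ∈ Finset.univ.erase a, Real.cos (Exp_t x U W φ b j) =
        Real.cos φ ^ ((nb x U b).card - 1) := by
      rw [← Finset.card_erase_of_mem hab]
      have e3 : ∀ j ∈ Finset.univ.erase a, Real.cos (Exp_t x U W φ b j) =
          if j ∈ (nb x U b).erase a then Real.cos φ else 1 := by
        intro j hj
        rw [tb j]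
        have hja := Finset.ne_of_mem_erase hj
        by_cases h3 : j ∈ nb x U b
        · rw [if_pos h3, if_pos (Finset.mem_erase.2 ⟨hja, h3⟩)]
        · rw [if_neg h3, if_neg (fun h => h3 (Finset.mem_of_mem_erase h)), Real.cos_zero]
      rw [Finset.prod_congr rfl e3, Finset.prod_ite_mem, Finset.prod_const]
      congr 2
      ext j
      simp only [Finset.mem_inter, Finset.mem_erase, Finset.mem_univ, and_true]
      tauto
    rw [e2, tb a, if_pos hab]

end Pool.Agent.GMU
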