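import Pool.Agent.GMU.St

/-!
# GMU, module Mean: the mean of `hh` (helper26)
-/

set_option autoImplicit false

namespace Pool.Agent.GMU

open Finset Pool.Agent.Helper53.Generic Pool.Agent.Helper60.Gap

/-- the correlation -/
private noncomputable def Mean_C {n : ℕ} (x : Fin n → Plane) (U W : Finset (Fin n)) (φ : ℝ) (a b : Fin n) : ℝ :=
  ∑ ω, vv x U W φ ω a * vv x U W φ ω b

private theorem Mean_sum {n : ℕ} (x : Fin n → Plane) (U W : Finset (Fin n)) (φ d : ℝ)
    (h0 : ∀ a, ∑ ω, vv x U W φ ω a = 0) :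
    ∑ ω, hh x U W φ d ω = ∑ p ∈ Ed x d, ((2 : ℝ) ^ n + Mean_C x U W φ p.1 p.2) / 4 := by
  unfold hh
  rw [Finset.sum_comm]
  refine Finset.sum_congr rfl fun p _ => ?_
  have e1 : ∀ ω, ((1 + vv x U W φ ω p.1) / 2) * ((1 + vv x U W φ ω p.2) / 2) =
      (1 + vv x U W φ ω p.1 + vv x U W φ ω p.2 + vv x U W φ ω p.1 * vv x U W φ ω p.2) / 4 := by
    intro ω
    ring
  rw [Finset.sum_congr rfl fun ω _ => e1 ω, ← Finset.sum_div, Finset.sum_add_distrib,
    Finset.sum_add_distrib, Finset.sum_add_distrib, h0, h0]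
  unfold Mean_C
  rw [Finset.sum_const, Finset.card_univ, Fintype.card_fun, Fintype.card_fin, Fintype.card_fin,
    nsmul_eq_mul]
  push_cast
  ring

private theorem Mean_card1 {n : ℕ} (x : Fin n → Plane) (U W : Finset (Fin n)) :
    ((Ed x 1).filter (fun p => p.2 ∈ W ∧ p.1 ∈ nb x U p.2)).card = ∑ b ∈ W, (nb x U b).card := by
  classical
  rw [← Finset.card_sigma]
  symm
  apply Finset.card_bij (fun q _ => (q.2, q.1))
  · rintro ⟨b, a⟩ hq
    rw [Finset.mem_sigma] at hq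
    rw [Finset.mem_filter]
    refine ⟨?_, hq.1, hq.2⟩
    exact Ed_swap x 1 (Finset.mem_filter.1 hq.2).2
  · rintro ⟨b, a⟩ _ ⟨b', a'⟩ _ h
    simp only [Prod.mk.injEq] at h
    obtain ⟨h1, h2⟩ := h
    subst h1
    subst h2
    rfl
  · rintro ⟨a, b⟩ hp
    rw [Finset.mem_filter] at hp
    exact ⟨⟨b, a⟩, Finset.mem_sigma.2 ⟨hp.2.1, hp.2.2⟩, rfl⟩

private theorem Mean_card2 {n : ℕ} (x : Fin n → Plane) (U W : Finset (Fin n)) :
    ((Ed x 1).filter (fun p => p.1 ∈ W ∧ p.2 ∈ nb x U p.1)).card = ∑ b ∈ W, (nb x U b).card := by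
  classical
  rw [← Finset.card_sigma]
  symm
  apply Finset.card_bij (fun q _ => (q.1, q.2))
  · rintro ⟨b, a⟩ hq
    rw [Finset.mem_sigma] at hq
    rw [Finset.mem_filter]
    refine ⟨?_, hq.1, hq.2⟩
    exact (Finset.mem_filter.1 hq.2).2
  · rintro ⟨b, a⟩ _ ⟨b', a'⟩ _ h
    simp only [Prod.mk.injEq] at h
    obtain ⟨h1, h2⟩ := h
    subst h1
    subst h2
    rfl
  · rintro ⟨b, a⟩ hp
    rw [Finset.mem_filter] at hp
    exact ⟨⟨b, a⟩, Finset.mem_sigma.2 ⟨hp.2.1, hp.2.2⟩, rfl⟩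

theorem thm_Mean : St_Mean := by
  classical
  intro hExp hCos n x hx U W φ m hUW hφ0 hφ1 hm hmφ
  obtain ⟨hE1, hE2, hE3⟩ := hExp hCos x hx U W φ hUW hφ0.le hφ1
  have h2n : (0 : ℝ) < 2 ^ n := by positivity
  constructor
  · intro d hd
    rw [Mean_sum x U W φ d hE1, div_le_iff₀ h2n]
    have h1 : ∀ p ∈ Ed x d, ((2 : ℝ) ^ n + Mean_C x U W φ p.1 p.2) / 4 ≤
        (1 + 2 * φ ^ 2) / 4 * 2 ^ n := by
      intro p hp
      have hp' := hp
      unfold Ed at hp'
      rw [Finset.mem_filter] at hp'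
      have hnb : ∀ a b : Fin n, dist (x a) (x b) = d → b ∉ nb x U a := by
        intro a b hab hb
        unfold nb at hb
        rw [Finset.mem_filter] at hb
        have h3 := hb.2
        unfold Ed at h3
        rw [Finset.mem_filter] at h3
        exact hd (hab.symm.trans h3.2.2)
      have h4 := (hE2 p.1 p.2 hp'.2.1
        (fun _ _ => hnb p.2 p.1 (by rw [dist_comm]; exact hp'.2.2))
        (fun _ _ => hnb p.1 p.2 hp'.2.2)).2
      unfold Mean_C
      linarith
    refine (Finset.sum_le_sum h1).trans (le_of_eq ?_)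
    rw [Finset.sum_const, nsmul_eq_mul]
    ring
  · rw [Mean_sum x U W φ 1 hE1, le_div_iff₀ h2n]
    -- the correlation on the good pairs
    have hsin : φ / 2 ≤ Real.sin φ := by
      have hpi := Real.pi_le_four
      have hpi3 := Real.pi_gt_three
      have h1 := Real.mul_le_sin hφ0.le (by linarith : φ ≤ Real.pi / 2)
      refine le_trans ?_ h1
      have h2 : (1 : ℝ) / 2 ≤ 2 / Real.pi := by
        rw [div_le_div_iff₀ (by norm_num) Real.pi_pos]
        linarith
      nlinarith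
    have hcos0 : 0 ≤ 1 - φ ^ 2 / 2 := by nlinarith
    have hcos : ∀ b ∈ W, (1 : ℝ) / 2 ≤ Real.cos φ ^ ((nb x U b).card - 1) := by
      intro b hb
      have h1 : 1 - φ ^ 2 / 2 ≤ Real.cos φ := Real.one_sub_sq_div_two_le_cos
      have h2 : (1 - φ ^ 2 / 2) ^ ((nb x U b).card - 1) ≤ Real.cos φ ^ ((nb x U b).card - 1) :=
        pow_le_pow_left₀ hcos0 h1 _
      have h3 := one_add_mul_le_pow (a := -(φ ^ 2 / 2)) (by nlinarith) ((nb x U b).card - 1)
      have h4 : (((nb x U b).card - 1 : ℕ) : ℝ) ≤ m := by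
        exact_mod_cast (Nat.sub_le _ _).trans (hm b hb)
      have h5 : (((nb x U b).card - 1 : ℕ) : ℝ) * φ ^ 2 ≤ 1 :=
        (mul_le_mul_of_nonneg_right h4 (sq_nonneg φ)).trans hmφ
      have e1 : (1 : ℝ) + -(φ ^ 2 / 2) = 1 - φ ^ 2 / 2 := by ring
      rw [e1] at h3
      refine le_trans ?_ (h3.trans h2)
      linarith
    have hgood : ∀ a b, b ∈ W → a ∈ nb x U b → φ / 4 * 2 ^ n ≤ Mean_C x U W φ a b := by
      intro a b hb hab
      unfold Mean_C
      rw [hE3 a b hb hab]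
      have h1 := hcos b hb
      have h2 : φ / 2 * (1 / 2) ≤ Real.sin φ * Real.cos φ ^ ((nb x U b).card - 1) :=
        mul_le_mul hsin h1 (by norm_num) (by linarith)
      nlinarith
    have hpair : ∀ p ∈ Ed x 1,
        (φ / 4 * 2 ^ n) * ((if p.2 ∈ W ∧ p.1 ∈ nb x U p.2 then 1 else 0) +
          (if p.1 ∈ W ∧ p.2 ∈ nb x U p.1 then 1 else 0)) ≤ Mean_C x U W φ p.1 p.2 := by
      intro p hp
      have hp' := hp
      unfold Ed at hp'
      rw [Finset.mem_filter] at hp'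
      by_cases h1 : p.2 ∈ W ∧ p.1 ∈ nb x U p.2
      · have h2 : ¬ (p.1 ∈ W ∧ p.2 ∈ nb x U p.1) := by
          rintro ⟨h3, -⟩
          exact Finset.disjoint_left.1 hUW (Finset.mem_filter.1 h1.2).1 h3
        rw [if_pos h1, if_neg h2, add_zero, mul_one]
        exact hgood p.1 p.2 h1.1 h1.2
      · by_cases h2 : p.1 ∈ W ∧ p.2 ∈ nb x U p.1
        · rw [if_neg h1, if_pos h2, zero_add, mul_one]
          have h3 := hgood p.2 p.1 h2.1 h2.2
          have e1 : Mean_C x U W φ p.1 p.2 = Mean_C x U W φ p.2 p.1 := by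
            unfold Mean_C
            exact Finset.sum_congr rfl fun ω _ => mul_comm _ _
          rw [e1]
          exact h3
        · rw [if_neg h1, if_neg h2, add_zero, mul_zero]
          exact (hE2 p.1 p.2 hp'.2.1 (fun _ hb hab => h1 ⟨hb, hab⟩)
            (fun _ ha hab => h2 ⟨ha, hab⟩)).1
    have h6 : (φ / 4 * 2 ^ n) * ((∑ a ∈ W, (nb x U a).card : ℕ) + (∑ a ∈ W, (nb x U a).card : ℕ)) ≤
        ∑ p ∈ Ed x 1, Mean_C x U W φ p.1 p.2 := by
      refine le_trans (le_of_eq ?_) (Finset.sum_le_sum hpair)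
      rw [← Finset.mul_sum, Finset.sum_add_distrib]
      congr 2
      · rw [← Mean_card1 x U W, Finset.card_filter]
        push_cast
        rfl
      · rw [← Mean_card2 x U W, Finset.card_filter]
        push_cast
        rfl
    rw [← Finset.sum_div, Finset.sum_add_distrib, Finset.sum_const, nsmul_eq_mul]
    nlinarith [h6]

end Pool.Agent.GMU
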