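import Pool.Agent.GMU.St

/-!
# GMU: rank one
-/

set_option autoImplicit false

namespace Pool.Agent.GMU

open Finset Pool.Agent.Helper53.Generic Pool.Agent.Helper60.Gap

private theorem One_num (m k n um un : ℝ) (hm : 0 ≤ m) (hn : 2 ≤ n) (hk : 0 ≤ k) (hum : 0 ≤ um) (hun : 0 ≤ un)
    (h1 : n * (n - 1) * um ≤ m * (m - 1) * un) (h2 : m ≤ 2 * k * n) :
    n * um ≤ 4 * k * m * un ∧ m * um ≤ 16 * k ^ 3 * (n * un) := by
  have a1 : n * (n * um) ≤ 2 * (m * (m * un)) := by nlinarith [mul_nonneg hm hun, mul_nonneg (mul_nonneg (by linarith : (0 : ℝ) ≤ n) (by linarith : (0 : ℝ) ≤ n - 2)) hum]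
  have a2 : n * (n * um) ≤ n * (4 * k * m * un) := by
    have : m * (m * un) ≤ (2 * k * n) * (m * un) := mul_le_mul_of_nonneg_right h2 (by positivity)
    nlinarith
  have a3 : n * um ≤ 4 * k * m * un := le_of_mul_le_mul_left a2 (by linarith)
  refine ⟨a3, ?_⟩
  have a4 : m * um ≤ 2 * k * (n * um) := by
    have := mul_le_mul_of_nonneg_right h2 hum
    nlinarith
  have a5 : 2 * k * (n * um) ≤ 2 * k * (4 * k * m * un) := mul_le_mul_of_nonneg_left a3 (by positivity)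
  have a6 : m * (8 * k ^ 2 * un) ≤ 2 * k * n * (8 * k ^ 2 * un) := mul_le_mul_of_nonneg_right h2 (by positivity)
  nlinarith

theorem thm_One : St_One := by
  intro hCon hU
  refine ⟨1 / 10 ^ 10, by positivity, fun m hm => ?_⟩
  obtain ⟨hU1, hU2, hU3, hU4⟩ := hU
  have hm' : (2 : ℝ) ≤ m := by exact_mod_cast hm
  have hm0 : (0 : ℝ) < m := by linarith
  set L := Real.log m with hL
  have hL2 : 0.69 ≤ L := by
    have h1 : Real.log 2 ≤ L := Real.log_le_log (by norm_num) hm'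
    linarith [Real.log_two_gt_d9]
  have hL0 : 0 < L := by linarith
  have hMp : 1 ≤ M 1 m := M_pos hm le_rfl (by
    have : 2 * 1 ≤ m * (m - 1) := Nat.mul_le_mul hm (by omega)
    exact this)
  have hMp' : (1 : ℝ) ≤ M 1 m := by exact_mod_cast hMp
  have hMl : (m : ℝ) / 1000 ≤ M 1 m := by
    have h1 := lower_all m 1 hm le_rfl (by
      have : 2 * 1 ≤ m * (m - 1) := Nat.mul_le_mul hm (by omega)
      exact this)
    have h2 : min (m : ℝ) ((m : ℝ) ^ 2 / ((1 : ℕ) : ℝ)) = m := by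
      rw [min_eq_left]
      push_cast
      nlinarith
    rwa [h2] at h1
  set k : ℕ := ⌈6 * 402653184 * L⌉₊ with hk
  have hk1 : 6 * 402653184 * L ≤ k := Nat.le_ceil _
  have hk2 : (k : ℝ) ≤ 7 * 402653184 * L := by
    have := Nat.ceil_lt_add_one (show (0 : ℝ) ≤ 6 * 402653184 * L by positivity)
    rw [← hk] at this
    nlinarith
  have hk0 : (0 : ℝ) < k := lt_of_lt_of_le (by positivity) hk1
  have hk0' : 1 ≤ k := by exact_mod_cast hk0
  have hum : u m ≤ m * m := by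
    obtain ⟨A, hA, hf⟩ := hU1 m
    have := f_le A 1
    rw [hA, hf] at this
    exact this
  have hum' : (u m : ℝ) ≤ m * m := by exact_mod_cast hum
  have key : (m : ℝ) * u m / L ≤ (10 ^ 10 * (M 1 m : ℝ)) ^ 2 → 1 / 10 ^ 10 * √((m : ℝ) * u m / L) ≤ M 1 m := by
    intro h
    have h1 : √((m : ℝ) * u m / L) ≤ 10 ^ 10 * (M 1 m : ℝ) := by
      rw [Real.sqrt_le_left (by positivity)]
      exact h
    linarith
  refine key ?_
  rw [div_le_iff₀ hL0]
  have hmM : (m : ℝ) ^ 2 ≤ 10 ^ 6 * (M 1 m : ℝ) ^ 2 := by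
    have h1 : (m : ℝ) ≤ 1000 * M 1 m := by linarith
    have := pow_le_pow_left₀ hm0.le h1 2
    calc (m : ℝ) ^ 2 ≤ (1000 * (M 1 m : ℝ)) ^ 2 := this
      _ = _ := by ring
  set n : ℕ := m / k with hn
  have hmk : (m : ℝ) < k * ((n : ℝ) + 1) := by
    have h1 : m < k * (n + 1) := by
      have := Nat.lt_mul_div_succ m (show 0 < k by omega)
      rwa [← hn] at this
    exact_mod_cast h1
  have hM2 : (0 : ℝ) ≤ (M 1 m : ℝ) ^ 2 := by positivity
  by_cases hn2 : 2 ≤ n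
  · have hn2' : (2 : ℝ) ≤ n := by exact_mod_cast hn2
    have hnm : n ≤ m := Nat.div_le_self _ _
    have hnm' : (n : ℝ) ≤ m := by exact_mod_cast hnm
    have h4 : (n : ℝ) * (n - 1) * u m ≤ m * (m - 1) * u n := by
      have h := hU4 m n hnm
      have h' : ((n * (n - 1) * u m : ℕ) : ℝ) ≤ ((m * (m - 1) * u n : ℕ) : ℝ) := by exact_mod_cast h
      rw [Nat.cast_mul, Nat.cast_mul, Nat.cast_mul, Nat.cast_mul, Nat.cast_sub (by omega : 1 ≤ n),
        Nat.cast_sub (by omega : 1 ≤ m)] at h'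
      push_cast at h'
      exact h'
    have h5 : (m : ℝ) ≤ 2 * k * n := by nlinarith
    obtain ⟨b1, b2⟩ := One_num m k n (u m) (u n) hm0.le hn2' hk0.le (Nat.cast_nonneg _) (Nat.cast_nonneg _) h4 h5
    by_cases hun : 2048 * n ≤ u n
    · have hC := hCon n k m (by omega) hk0' hun ?_ ?_
      · have h6 : (k : ℝ) * √((n : ℝ) * u n) ≤ 2048 * M 1 m := by
          have := hC
          rw [div_le_iff₀ (by norm_num)] at this
          nlinarith
        have h7 : ((k : ℝ) * √((n : ℝ) * u n)) ^ 2 ≤ (2048 * (M 1 m : ℝ)) ^ 2 :=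
          pow_le_pow_left₀ (by positivity) h6 2
        have h8 : ((k : ℝ) * √((n : ℝ) * u n)) ^ 2 = (k : ℝ) ^ 2 * ((n : ℝ) * u n) := by
          rw [mul_pow, Real.sq_sqrt (by positivity)]
        rw [h8] at h7
        calc (m : ℝ) * u m ≤ 16 * k ^ 3 * ((n : ℝ) * u n) := b2
          _ = 16 * k * ((k : ℝ) ^ 2 * ((n : ℝ) * u n)) := by ring
          _ ≤ 16 * k * (2048 * (M 1 m : ℝ)) ^ 2 := mul_le_mul_of_nonneg_left h7 (by positivity)
          _ ≤ 16 * (7 * 402653184 * L) * (2048 * (M 1 m : ℝ)) ^ 2 := by gcongr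
          _ ≤ (10 ^ 10 * (M 1 m : ℝ)) ^ 2 * L := by
            have : 0 ≤ (M 1 m : ℝ) ^ 2 * L := by positivity
            nlinarith
      · have h6 : Real.exp (-((k : ℝ) / 402653184)) ≤ ((m : ℝ) ^ 6)⁻¹ := by
          have h7 : ((m : ℝ) ^ 6)⁻¹ = Real.exp (-(6 * L)) := by
            rw [Real.exp_neg, hL, show (6 : ℝ) * Real.log m = Real.log ((m : ℝ) ^ 6) by
              rw [Real.log_pow]; norm_num, Real.exp_log (by positivity)]
          rw [h7]
          apply Real.exp_le_exp.mpr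
          have : 6 * L ≤ (k : ℝ) / 402653184 := by
            rw [le_div_iff₀ (by norm_num)]
            linarith
          linarith
        have h7 : 2 * ((n : ℝ) ^ 2 + 2) < (m : ℝ) ^ 6 := by
          have h8 : (n : ℝ) ^ 2 ≤ (m : ℝ) ^ 2 := pow_le_pow_left₀ (by positivity) hnm' 2
          have h9 : (4 : ℝ) ≤ (m : ℝ) ^ 2 := by nlinarith
          have h10 : (16 : ℝ) ≤ (m : ℝ) ^ 4 := by nlinarith
          nlinarith
        calc 2 * ((n : ℝ) ^ 2 + 2) * Real.exp (-((k : ℝ) / 402653184))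
            ≤ 2 * ((n : ℝ) ^ 2 + 2) * ((m : ℝ) ^ 6)⁻¹ := mul_le_mul_of_nonneg_left h6 (by positivity)
          _ < (m : ℝ) ^ 6 * ((m : ℝ) ^ 6)⁻¹ := mul_lt_mul_of_pos_right h7 (by positivity)
          _ = 1 := mul_inv_cancel₀ (by positivity)
      · exact Nat.mul_div_le m k
    · have hun' : (u n : ℝ) ≤ 2048 * n := by
        have : u n ≤ 2048 * n := by omega
        exact_mod_cast this
      have h6 : (n : ℝ) * u m ≤ n * (8192 * k * m) := by
        have : 4 * (k : ℝ) * m * u n ≤ 4 * k * m * (2048 * n) := mul_le_mul_of_nonneg_left hun' (by positivity)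
        nlinarith
      have h7 : (u m : ℝ) ≤ 8192 * k * m := le_of_mul_le_mul_left h6 (by linarith)
      calc (m : ℝ) * u m ≤ m * (8192 * k * m) := mul_le_mul_of_nonneg_left h7 hm0.le
        _ = 8192 * k * (m : ℝ) ^ 2 := by ring
        _ ≤ 8192 * (7 * 402653184 * L) * (10 ^ 6 * (M 1 m : ℝ) ^ 2) := by gcongr
        _ ≤ (10 ^ 10 * (M 1 m : ℝ)) ^ 2 * L := by
          have : 0 ≤ (M 1 m : ℝ) ^ 2 * L := by positivity
          nlinarith
  · have hn1 : (n : ℝ) ≤ 1 := by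
      have : n ≤ 1 := by omega
      exact_mod_cast this
    have h6 : (m : ℝ) ≤ 14 * 402653184 * L := by nlinarith
    calc (m : ℝ) * u m ≤ m * (m * m) := mul_le_mul_of_nonneg_left hum' hm0.le
      _ = m * (m : ℝ) ^ 2 := by ring
      _ ≤ (14 * 402653184 * L) * (10 ^ 6 * (M 1 m : ℝ) ^ 2) := by gcongr
      _ ≤ (10 ^ 10 * (M 1 m : ℝ)) ^ 2 * L := by
        have : 0 ≤ (M 1 m : ℝ) ^ 2 * L := by positivity
        nlinarith

end Pool.Agent.GMU
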