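import Pool.Agent.GMU.St

/-!
# GMU, module Part: the sets `U` and `W`
-/

set_option autoImplicit false

namespace Pool.Agent.GMU

open Finset Pool.Agent.Helper53.Generic Pool.Agent.Helper60.Gap

/-- a quarter of all colourings separate `a` and `b` in the given order -/
private theorem Part_count {n : ℕ} {a b : Fin n} (hab : a ≠ b) :
    4 * (Finset.univ.filter (fun ω : Fin n → Bool => ω a = false ∧ ω b = true)).card = 2 ^ n := by
  classical
  have h1 : Finset.univ.filter (fun ω : Fin n → Bool => ω a = false ∧ ω b = true) =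
      Fintype.piFinset (fun k => if k = a then {false} else if k = b then {true} else Finset.univ) := by
    ext ω
    rw [Finset.mem_filter, Fintype.mem_piFinset]
    constructor
    · rintro ⟨-, h1, h2⟩ k
      by_cases hk : k = a
      · rw [if_pos hk, hk, h1]
        exact Finset.mem_singleton_self _
      · rw [if_neg hk]
        by_cases hk' : k = b
        · rw [if_pos hk', hk', h2]
          exact Finset.mem_singleton_self _
        · rw [if_neg hk']
          exact Finset.mem_univ _
    · intro h
      have h1 := h a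
      have h2 := h b
      rw [if_pos rfl] at h1
      rw [if_neg hab.symm, if_pos rfl] at h2
      exact ⟨Finset.mem_univ _, Finset.mem_singleton.1 h1, Finset.mem_singleton.1 h2⟩
  have h2 : ∀ k : Fin n, (if k = a then ({false} : Finset Bool) else
      if k = b then {true} else Finset.univ).card = if k = a ∨ k = b then 1 else 2 := by
    intro k
    by_cases hk : k = a
    · rw [if_pos hk, if_pos (Or.inl hk)]
      rfl
    · rw [if_neg hk]
      by_cases hk' : k = b
      · rw [if_pos hk', if_pos (Or.inr hk')]
        rfl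
      · rw [if_neg hk', if_neg (by rintro (h | h); exacts [hk h, hk' h])]
        rfl
  rw [h1, Fintype.card_piFinset, Finset.prod_congr rfl (fun k _ => h2 k), Finset.prod_ite,
    Finset.prod_const_one, one_mul, Finset.prod_const]
  have h3 : Finset.univ.filter (fun k : Fin n => k = a ∨ k = b) = {a, b} := by
    ext k
    simp only [Finset.mem_filter, Finset.mem_univ, true_and, Finset.mem_insert,
      Finset.mem_singleton]
  have h4 : (Finset.univ.filter (fun k : Fin n => k = a ∨ k = b)).card = 2 := by
    rw [h3, Finset.card_pair hab]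
  have h5 := Finset.card_filter_add_card_filter_not (s := (Finset.univ : Finset (Fin n)))
    (fun k => k = a ∨ k = b)
  rw [h4, Finset.card_univ, Fintype.card_fin] at h5
  rw [show (4 : ℕ) = 2 ^ 2 from rfl, ← pow_add, h5]

/-- some colouring separates a quarter of the pairs -/
private theorem Part_avg {n : ℕ} (E : Finset (Fin n × Fin n)) (hE : ∀ p ∈ E, p.1 ≠ p.2) :
    ∃ ω : Fin n → Bool, E.card ≤ 4 * (E.filter fun p => ω p.1 = false ∧ ω p.2 = true).card := by
  classical
  have h1 : ∑ ω : Fin n → Bool, E.card ≤
      ∑ ω : Fin n → Bool, 4 * (E.filter fun p => ω p.1 = false ∧ ω p.2 = true).card := by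
    rw [← Finset.mul_sum]
    simp_rw [Finset.card_filter]
    rw [Finset.sum_comm, Finset.mul_sum, Finset.sum_const, Finset.card_univ, Fintype.card_fun,
      Fintype.card_bool, Fintype.card_fin, smul_eq_mul, mul_comm, ← smul_eq_mul,
      ← Finset.sum_const]
    apply le_of_eq
    apply Finset.sum_congr rfl
    intro p hp
    rw [← Finset.card_filter]
    exact (Part_count (hE p hp)).symm
  obtain ⟨ω, -, hω⟩ := Finset.exists_le_of_sum_le (Finset.univ_nonempty) h1
  exact ⟨ω, hω⟩

theorem thm_Part : St_Part := by
  classical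
  intro hU n x hx hE
  obtain ⟨-, hU2, hU3, -⟩ := hU
  set E := (Ed x 1).card with hEdef
  set T : Finset (Fin n) := Finset.univ.filter (fun a => n * dg x 1 a ≤ 4 * E) with hT
  set K : Finset (Fin n) := Finset.univ.filter (fun a => ¬ n * dg x 1 a ≤ 4 * E) with hK
  -- the size of `K`
  have hdgE : ∑ a, dg x 1 a = E := sum_dg x 1
  have hdgK : ∑ a ∈ K, dg x 1 a ≤ E := by
    rw [← hdgE]
    exact Finset.sum_le_sum_of_subset (Finset.subset_univ _)
  have hK4 : 4 * K.card ≤ n := by
    by_contra hcon
    push Not at hcon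
    have h1 : ∀ a ∈ K, 4 * E + 1 ≤ n * dg x 1 a := by
      intro a ha
      have := (Finset.mem_filter.1 ha).2
      omega
    have h2 : K.card * (4 * E + 1) ≤ n * E := by
      calc K.card * (4 * E + 1) = ∑ _a ∈ K, (4 * E + 1) := by
            rw [Finset.sum_const, smul_eq_mul]
        _ ≤ ∑ a ∈ K, n * dg x 1 a := Finset.sum_le_sum h1
        _ = n * ∑ a ∈ K, dg x 1 a := by rw [Finset.mul_sum]
        _ ≤ n * E := Nat.mul_le_mul_left _ hdgK
    have h3 : n * E ≤ 4 * K.card * E := Nat.mul_le_mul_right _ hcon.le
    have h4 : K.card * (4 * E + 1) = 4 * K.card * E + K.card := by ring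
    have h5 : 0 < K.card := by omega
    omega
  -- the pairs inside `K`
  have hQ : 4 * ((Ed x 1).filter (fun p => p.1 ∈ K ∧ p.2 ∈ K)).card ≤ E := by
    rw [← card_Ed x hx 1 K, P_even]
    have hc : (K.image x).card = K.card := Finset.card_image_of_injective _ hx
    have h1 := hU2 (K.image x) 1
    rw [hc] at h1
    rcases Nat.eq_zero_or_pos K.card with h0 | hpos
    · have h2 : K = ∅ := Finset.card_eq_zero.1 h0
      have h3 : f (K.image x) 1 = 0 := by
        rw [h2, Finset.image_empty]
        unfold f
        simp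
      rw [h3]
      omega
    · have h2 := hU3 n K.card hpos (by omega)
      have h3 : 4 ≤ n / K.card := (Nat.le_div_iff_mul_le hpos).2 hK4
      have h4 : 4 * u K.card ≤ n / K.card * u K.card := Nat.mul_le_mul_right _ h3
      omega
  -- the pairs with first index in `T`
  set E' := (Ed x 1).filter (fun p => p.1 ∈ T) with hE'
  have hTK : ∀ a : Fin n, a ∉ T → a ∈ K := by
    intro a ha
    refine Finset.mem_filter.2 ⟨Finset.mem_univ _, fun h => ha (Finset.mem_filter.2 ⟨Finset.mem_univ _, h⟩)⟩
  have hswap : ((Ed x 1).filter (fun p => p.2 ∈ T)).card = E'.card := by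
    apply Finset.card_bij (fun p _ => (p.2, p.1))
    · intro p hp
      rw [Finset.mem_filter] at hp
      exact Finset.mem_filter.2 ⟨Ed_swap x 1 hp.1, hp.2⟩
    · rintro ⟨a, b⟩ _ ⟨a', b'⟩ _ h
      simp only [Prod.mk.injEq] at h ⊢
      exact ⟨h.2, h.1⟩
    · rintro ⟨a, b⟩ hp
      rw [Finset.mem_filter] at hp
      exact ⟨(b, a), Finset.mem_filter.2 ⟨Ed_swap x 1 hp.1, hp.2⟩, rfl⟩
  have hcover : E ≤ ((Ed x 1).filter (fun p => p.1 ∈ K ∧ p.2 ∈ K)).card + (E'.card + E'.card) := by
    have hsub : Ed x 1 ⊆ (Ed x 1).filter (fun p => p.1 ∈ K ∧ p.2 ∈ K) ∪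
        (E' ∪ (Ed x 1).filter (fun p => p.2 ∈ T)) := by
      intro p hp
      by_cases h1 : p.1 ∈ T
      · exact Finset.mem_union_right _ (Finset.mem_union_left _ (Finset.mem_filter.2 ⟨hp, h1⟩))
      · by_cases h2 : p.2 ∈ T
        · exact Finset.mem_union_right _ (Finset.mem_union_right _ (Finset.mem_filter.2 ⟨hp, h2⟩))
        · exact Finset.mem_union_left _ (Finset.mem_filter.2 ⟨hp, hTK _ h1, hTK _ h2⟩)
    have h2 := (Finset.card_le_card hsub).trans ((Finset.card_union_le _ _).trans
      (Nat.add_le_add_left (Finset.card_union_le _ _) _))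
    rw [hswap] at h2
    exact h2
  have h8 : 3 * E ≤ 8 * E'.card := by omega
  obtain ⟨ω, hω⟩ := Part_avg E' (by
    intro p hp
    have h1 := (Finset.mem_filter.1 hp).1
    unfold Ed at h1
    exact (Finset.mem_filter.1 h1).2.1)
  refine ⟨Finset.univ.filter (fun b => ω b = true), T.filter (fun a => ω a = false), ?_, ?_, ?_⟩
  · rw [Finset.disjoint_left]
    intro a ha ha'
    have h1 := (Finset.mem_filter.1 ha).2
    have h2 := (Finset.mem_filter.1 ha').2
    rw [h1] at h2
    exact Bool.noConfusion h2
  · intro a ha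
    exact (Finset.mem_filter.1 (Finset.mem_filter.1 ha).1).2
  · have h9 : (E'.filter fun p => ω p.1 = false ∧ ω p.2 = true).card =
        ∑ a ∈ T.filter (fun a => ω a = false), (nb x (Finset.univ.filter (fun b => ω b = true)) a).card := by
      rw [Finset.card_eq_sum_card_fiberwise (f := fun p : Fin n × Fin n => p.1)
        (t := T.filter (fun a => ω a = false))]
      · apply Finset.sum_congr rfl
        intro a ha
        unfold nb
        apply Finset.card_bij (fun p _ => p.2)
        · rintro ⟨c, b⟩ hp
          rw [Finset.mem_filter, Finset.mem_filter] at hp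
          obtain ⟨⟨hp1, hp2⟩, hp3⟩ := hp
          have hca : c = a := hp3
          rw [Finset.mem_filter, Finset.mem_filter]
          refine ⟨⟨Finset.mem_univ _, hp2.2⟩, ?_⟩
          rw [← hca]
          exact (Finset.mem_filter.1 hp1).1
        · rintro ⟨c, b⟩ hp ⟨c', b'⟩ hp' h
          rw [Finset.mem_filter] at hp hp'
          have e1 : c = a := hp.2
          have e2 : c' = a := hp'.2
          have e3 : b = b' := h
          rw [e1, e2, e3]
        · intro b hb
          rw [Finset.mem_filter, Finset.mem_filter] at hb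
          refine ⟨(a, b), ?_, rfl⟩
          obtain ⟨ha1, ha2⟩ := Finset.mem_filter.1 ha
          rw [Finset.mem_filter, Finset.mem_filter]
          exact ⟨⟨Finset.mem_filter.2 ⟨hb.2, ha1⟩, ha2, hb.1.2⟩, rfl⟩
      · intro p hp
        rw [Finset.mem_coe, Finset.mem_filter] at hp
        rw [Finset.mem_coe, Finset.mem_filter]
        exact ⟨(Finset.mem_filter.1 hp.1).2, hp.2.1⟩
    rw [← h9]
    omega

end Pool.Agent.GMU
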