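import Pool.Agent.GMU.St

/-!
# GMU, module Rank: higher ranks
-/

set_option autoImplicit false

namespace Pool.Agent.GMU

open Finset Pool.Agent.Helper53.Generic Pool.Agent.Helper60.Gap

/-- copies of `A` scaled by the powers of a large number -/
private theorem Rank_copies (A : Finset Plane) (r N : ℕ) (hr : 1 ≤ r) (hN : r * A.card ≤ N)
    (h1 : 1 ≤ fr A 1) :
    ∃ U : Finset Plane, U.card = N ∧ fr A 1 ≤ fr U r ∧ fr U (r + 1) ≤ max (fr A 2) 1 := by
  classical
  obtain ⟨d₁, hd₁⟩ := exists_top A h1
  have hd₁mem : d₁ ∈ distances A := by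
    rw [mem_distances, P_even]
    omega
  have hposA : ∀ d ∈ distances A, 0 < d := by
    intro d hd
    rw [mem_distances] at hd
    by_contra hneg
    exact hd (P_nonpos (not_lt.mp hneg))
  obtain ⟨c, hc1, hc⟩ : ∃ c : ℝ, 1 ≤ c ∧ ∀ d ∈ distances A, ∀ e ∈ distances A, d < c * e := by
    have h5 : ∀ᶠ c : ℝ in Filter.atTop, ∀ d ∈ distances A, ∀ e ∈ distances A, d < c * e := by
      rw [Filter.eventually_all_finset]
      intro d _
      rw [Filter.eventually_all_finset]
      intro e he
      have := hposA e he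
      exact (Filter.Tendsto.atTop_mul_const this Filter.tendsto_id).eventually_gt_atTop d
    obtain ⟨c, hc1, hc2⟩ := (h5.and (Filter.eventually_ge_atTop 1)).exists
    exact ⟨c, hc2, hc1⟩
  have hc0 : 0 < c := by linarith
  -- distances of different scaled copies differ
  have hsep : ∀ i j : ℕ, ∀ d ∈ distances A, ∀ e ∈ distances A, c ^ i * d = c ^ j * e → i = j := by
    have key : ∀ i j : ℕ, i < j → ∀ d ∈ distances A, ∀ e ∈ distances A,
        c ^ i * d ≠ c ^ j * e := by
      intro i j hij d hd e he h
      obtain ⟨k, rfl⟩ : ∃ k, j = i + (k + 1) := ⟨j - i - 1, by omega⟩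
      have h1 : d = c ^ (k + 1) * e := by
        apply mul_left_cancel₀ (pow_ne_zero i hc0.ne')
        rw [h, pow_add]; ring
      have h2 := hc d hd e he
      have h3 : c * e ≤ c ^ (k + 1) * e := by
        apply mul_le_mul_of_nonneg_right _ (hposA e he).le
        calc c = c ^ 1 := (pow_one c).symm
          _ ≤ c ^ (k + 1) := pow_le_pow_right₀ hc1 (by omega)
      linarith
    intro i j d hd e he h
    rcases lt_trichotomy i j with hij | hij | hij
    · exact absurd h (key i j hij d hd e he)
    · exact hij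
    · exact absurd h.symm (key j i hij e he d hd)
  choose B' hB'card hB' using fun i : Fin r => exists_scaled A (pow_pos hc0 (i : ℕ))
  have hB'' : ∀ i : Fin r, ∀ d, P (B' i) d = P A (d / c ^ (i : ℕ)) := by
    intro i d
    have := hB' i (d / c ^ (i : ℕ))
    rwa [mul_div_cancel₀ _ (pow_ne_zero _ hc0.ne')] at this
  obtain ⟨U₀, hU₀, hU₀P⟩ := family3 (Finset.univ : Finset (Fin r)) B'
  have hU₀card : U₀.card ≤ N := by
    rw [hU₀]
    simp only [hB'card]
    rw [Finset.sum_const, Finset.card_univ, Fintype.card_fin, smul_eq_mul]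
    exact hN
  obtain ⟨U, hU, hUP⟩ := pad U₀ hU₀card
  -- the popular distances
  set D : Finset ℝ := Finset.univ.image (fun i : Fin r => c ^ (i : ℕ) * d₁) with hD
  have hDcard : D.card = r := by
    rw [hD, Finset.card_image_of_injective, Finset.card_univ, Fintype.card_fin]
    intro i j h
    exact Fin.ext (hsep i j d₁ hd₁mem d₁ hd₁mem h)
  have hlow : ∀ d ∈ D, fr A 1 ≤ f U d := by
    intro d hd
    rw [hD, Finset.mem_image] at hd
    obtain ⟨i, -, hid⟩ := hd
    have h1 : P A d₁ ≤ P U d := by
      have e1 : P A d₁ = P (B' i) d := by rw [← hid]; exact (hB' i d₁).symm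
      rw [e1]
      refine le_trans ?_ ((hU₀P d).1.trans (hUP d).1)
      exact Finset.single_le_sum (f := fun k => P (B' k) d)
        (fun _ _ => Nat.zero_le _) (Finset.mem_univ i)
    rw [P_even A, P_even U, hd₁] at h1
    omega
  have hup : ∀ d, d ∉ D → f U d ≤ max (fr A 2) 1 := by
    intro d hd
    have h2 : P U d ≤ max (∑ i, P (B' i) d) 2 :=
      (hUP d).2.trans (max_le (hU₀P d).2 (le_max_right _ _))
    have h3 : ∑ i, P (B' i) d ≤ 2 * fr A 2 := by
      by_cases hex : ∃ i : Fin r, P (B' i) d ≠ 0
      · obtain ⟨i, hi⟩ := hex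
        rw [Finset.sum_eq_single i]
        · rw [hB'' i d]
          have hne : d / c ^ (i : ℕ) ≠ d₁ := by
            intro h
            apply hd
            rw [hD, Finset.mem_image]
            exact ⟨i, Finset.mem_univ _, by rw [← h, mul_div_cancel₀ _ (pow_ne_zero _ hc0.ne')]⟩
          have h5 : f A (d / c ^ (i : ℕ)) ≤ fr A 2 :=
            le_fr_two A hne (by rw [hd₁]; exact f_le_fr_one A _)
          rw [P_even A]
          omega
        · intro k _ hki
          by_contra hk
          rw [hB''] at hi hk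
          have e1 := hsep i k _ (mem_distances.mpr hi) _ (mem_distances.mpr hk) (by
            rw [mul_div_cancel₀ _ (pow_ne_zero _ hc0.ne'),
              mul_div_cancel₀ _ (pow_ne_zero _ hc0.ne')])
          exact hki (Fin.ext e1.symm)
        · intro h
          exact absurd (Finset.mem_univ i) h
      · push Not at hex
        rw [Finset.sum_eq_zero (fun i _ => hex i)]
        exact Nat.zero_le _
    rw [P_even U] at h2
    omega
  exact ⟨U, hU, fr_ge U r (fr A 1) hr h1 D hDcard hlow,
    fr_le U r (max (fr A 2) 1) D hDcard.le hup⟩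

theorem thm_Rank : St_Rank := by
  intro hUsp
  refine ⟨?_, ?_⟩
  · intro r n hr
    obtain ⟨A, hA, hM⟩ := exists_M r n
    rw [hM]
    have h1 : fr A r ≤ fr A 1 := fr_anti A hr
    have h2 : fr A 1 ≤ u n := by
      by_cases h0 : fr A 1 = 0
      · omega
      · obtain ⟨d, hd⟩ := exists_top A (by omega)
        rw [← hd, ← hA]
        exact hUsp.2.1 A d
    omega
  · intro r m N hr _ hN
    obtain ⟨A, hA, hM⟩ := exists_M 1 m
    rw [hM]
    by_cases h0 : fr A 1 = 0
    · omega
    · obtain ⟨U, hU, h1, h2⟩ := Rank_copies A r N hr (by rw [hA]; exact hN) (by omega)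
      have h3 := le_M (r := r) U hU
      have h4 : fr A (1 + 1) = fr A 2 := rfl
      omega

end Pool.Agent.GMU
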