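import Pool.Agent.GMU.Defs
import Pool.Agent.Helper60.Gap.LargeRank

/-!
# GMU: statements (MP_1cd194_co; captain helper26)

Theorem: there is `c > 0` with `c (n u(n) / log n)^(1/2) / r^(3/2) ≤ M_r(n) ≤ u(n)` for `1 ≤ r < n`.

Notation (helper60's files `Pool/Agent/Helper60/Gap`): `Plane`, `f A d` (unordered pairs), `P A d = 2 * f A d` (ordered pairs; `P_even`, Rank.lean),
`Ed x d` (ordered pairs of indices at distance `d`), `dg x d i` (degree), `circle_two`, `sum_dg`, `sum_dg_sq` (`∑ dg² ≤ 3 n²`), `card_Ed` (Color.lean),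
`mgf_bound`, `tail_bound` (McD.lean), `exists_scaled` (Union.lean), `family3`, `pad`, `exists_top`, `le_fr_two` (Compare.lean), `fr_ge`, `fr_le`, `le_M` (Base.lean),
`lower_all` (LargeRank.lean).

Every `St_X` is proved in `Pool/Agent/GMU/X.lean` (namespace `Pool.Agent.GMU`, import `Pool.Agent.GMU.St`) as `theorem thm_X : St_X`.  Auxiliary lemmas private or with
names starting with `X_`.  The hypotheses `St_Y →` are part of the statements.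

The random weights: `U, W` disjoint sets of indices, `ω` colours, `sg (ω a) = ± 1`, `vv x U W φ ω a = sg (ω a)` on `U`, `sin (∑ φ sg (ω j))`, `j` the neighbours of `a` in `U`, on `W`, `0` elsewhere;
the weight of `a` is `(1 + vv a) / 2`, in `[0, 1]`.
-/

set_option autoImplicit false

namespace Pool.Agent.GMU

open Finset Pool.Agent.Helper53.Generic Pool.Agent.Helper60.Gap

/-- (KT) Bounded differences for `k` independent copies.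
Proof.  `s = lam / V`.  `∑_ω exp (s ∑_i (h_i (ω i) - m_i)) = ∏_i ∑_{ω} exp (s (h_i ω - m_i))` (`Finset.prod_univ_sum`, `Fintype.piFinset_univ`) `≤ ((q^n) exp (s² V / 2))^k` (`mgf_bound`).
On the event the summand is `≥ exp (s k lam)`; so the number is `≤ (q^n)^k exp (k (s² V / 2 - s lam)) = (q^n)^k exp (- k lam² / (2 V))`. Compare the proof of `tail_bound` in McD.lean. -/
def St_KT : Prop := ∀ {q : ℕ}, 0 < q → ∀ (n k : ℕ) (h : Fin k → (Fin n → Fin q) → ℝ)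
  (c : Fin k → Fin n → ℝ) (V lam : ℝ), (∀ i a, 0 ≤ c i a) →
  (∀ i a ω ω', (∀ b, b ≠ a → ω b = ω' b) → |h i ω - h i ω'| ≤ c i a) →
  (∀ i, ∑ a, c i a ^ 2 ≤ V) → 0 < V → 0 ≤ lam →
  (((Finset.univ : Finset (Fin k → Fin n → Fin q)).filter fun ω =>
      (k : ℝ) * lam ≤ ∑ i, (h i (ω i) - (∑ ω', h i ω') / (q : ℝ) ^ n)).card : ℝ) ≤
    ((q : ℝ) ^ n) ^ k * Real.exp (-((k : ℝ) * lam ^ 2 / (2 * V)))

/-- (Cos) Independent signs.  Proof.  `∏_j ∑_{c : Fin 2} exp (i t_j sg c) = ∑_ω ∏_j exp (i t_j sg (ω j)) = ∑_ω exp (i ∑_j t_j sg (ω j))` (`Finset.prod_univ_sum`), and the left side is `∏_j (2 cos t_j)`;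
real and imaginary parts.  (Or induction on `n` for both at once.) -/
def St_Cos : Prop := ∀ (n : ℕ) (t : Fin n → ℝ),
  ∑ ω : Fin n → Fin 2, Real.cos (∑ j, t j * sg (ω j)) = 2 ^ n * ∏ j, Real.cos (t j) ∧
  ∑ ω : Fin n → Fin 2, Real.sin (∑ j, t j * sg (ω j)) = 0

/-- (Exp) The correlations of the signed weights.
Proof.  Write `1_b j = 1` if `j ∈ nb x U b`, else `0`; for `b ∈ W`: `vv b = sin (∑_j (φ 1_b j) sg (ω j))`.  First claim: `St_Cos` (2) (for `a ∈ U`: `sg (ω a) = sin (∑_j t_j sg (ω j))` with `t_a = π / 2`, `t_j = 0` otherwise).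
Third claim, and second for `a ∈ U`, `b ∈ W`: `sg s * sin y = cos (y - (π / 2) * sg s)` for a sign, so `sg (ω a) * sin (∑_j φ 1_b j sg (ω j)) = cos (∑_j t_j sg (ω j))` with `t_a = φ 1_b a - π / 2`, `t_j = φ 1_b j` otherwise; `St_Cos` (1):
`2^n * sin (φ 1_b a) * ∏_{j ≠ a} cos (φ 1_b j)`: it is `0` if `a` is not in `nb x U b`, and `2^n sin φ cos^(m-1) φ` if `a ∈ nb x U b`.
`a, b ∈ U` different: `t_a = t_b = π/2`-trick: `sg s * sg s' = (cos (π/2 (sg s - sg s')) - cos (π/2 (sg s + sg s'))) / 2`, or directly; the sum is `0`.  One of `a, b` outside `U ∪ W`: `0`.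
`a, b ∈ W` different: `sin X sin Y = (cos (X - Y) - cos (X + Y)) / 2`; `St_Cos` (1): `2^n (∏_j cos (φ (1_a j - 1_b j)) - ∏_j cos (φ (1_a j + 1_b j))) / 2 = 2^n Q (1 - cos (2 φ) ^ c) / 2`, `Q = ∏` of `cos φ` over the `j` in exactly one of the two sets, `0 ≤ Q ≤ 1`,
`c = |nb a ∩ nb b| ≤ 2` (`circle_two` with `d = 1`; `0 ≤ cos (2 φ) ≤ 1` as `2 φ ≤ 1`), so `0 ≤ 1 - cos (2 φ) ^ c ≤ 1 - cos (2 φ) ^ 2 = sin (2 φ) ^ 2 ≤ 4 φ²`. -/
def St_Exp : Prop := St_Cos → ∀ {n : ℕ} (x : Fin n → Plane), Function.Injective x →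
  ∀ (U W : Finset (Fin n)) (φ : ℝ), Disjoint U W → 0 ≤ φ → φ ≤ 1 / 2 →
  (∀ a, ∑ ω, vv x U W φ ω a = 0) ∧
  (∀ a b, a ≠ b → (a ∈ U → b ∈ W → a ∉ nb x U b) → (b ∈ U → a ∈ W → b ∉ nb x U a) →
    0 ≤ ∑ ω, vv x U W φ ω a * vv x U W φ ω b ∧
    ∑ ω, vv x U W φ ω a * vv x U W φ ω b ≤ 2 ^ n * (2 * φ ^ 2)) ∧
  (∀ a b, b ∈ W → a ∈ nb x U b →
    ∑ ω, vv x U W φ ω a * vv x U W φ ω b =
      2 ^ n * (Real.sin φ * Real.cos φ ^ ((nb x U b).card - 1)))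

/-- (Mean) The mean of `hh`.  Proof.  `∑_ω hh = ∑_{(a, b) ∈ Ed x d} (2^n + ∑_ω vv a + ∑_ω vv b + ∑_ω vv a vv b) / 4`, `a ≠ b` on `Ed`.  `d ≠ 1`: for `(a, b) ∈ Ed x d` the hypotheses of `St_Exp` (2) hold (a neighbour is at distance `1`), each term is `≤ 2^n (1 + 2 φ²) / 4`.
`d = 1`: all terms are `≥ 2^n / 4` (`St_Exp` (2), (3); `sin φ ≥ 0`, `cos φ ≥ 0`), and for `b ∈ W`, `a ∈ nb x U b` the pairs `(a, b)` and `(b, a)` (different pairs of `Ed x 1`, as `U`, `W` are disjoint) have the term `2^n (1 + sin φ cos^(k-1) φ) / 4`, `k = |nb x U b| ≤ m`;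
`sin φ ≥ φ / 2` (`Real.mul_le_sin`), `cos^(k-1) φ ≥ (1 - φ²/2)^(k-1) ≥ 1 - m φ² / 2 ≥ 1/2` (`Real.one_sub_sq_div_two_le_cos`, `one_add_mul_le_pow`): `≥ 2^n (1 + φ / 4) / 4`.  Sum: `≥ 2^n (|Ed x 1| / 4 + 2 (φ / 16) ∑_{b ∈ W} |nb b|)`. -/
def St_Mean : Prop := St_Exp → St_Cos → ∀ {n : ℕ} (x : Fin n → Plane), Function.Injective x →
  ∀ (U W : Finset (Fin n)) (φ : ℝ) (m : ℕ), Disjoint U W → 0 < φ → φ ≤ 1 / 2 →
  (∀ a ∈ W, (nb x U a).card ≤ m) → m * φ ^ 2 ≤ 1 →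
  (∀ d, d ≠ 1 → (∑ ω, hh x U W φ d ω) / 2 ^ n ≤ (1 + 2 * φ ^ 2) / 4 * (Ed x d).card) ∧
  ((Ed x 1).card : ℝ) / 4 + φ / 8 * (∑ a ∈ W, (nb x U a).card : ℕ) ≤ (∑ ω, hh x U W φ 1 ω) / 2 ^ n

/-- The bound for the difference of `hh` when the colour of `c` changes. -/
noncomputable def Lc {n : ℕ} (x : Fin n → Plane) (W : Finset (Fin n)) (φ d : ℝ) (c : Fin n) : ℝ :=
  2 * dg x d c + 2 * φ * (∑ a ∈ W.filter (fun a => (a, c) ∈ Ed x 1), dg x d a : ℕ)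

/-- (Diff) Bounded differences.  Proof.  `w_a = (1 + vv a) / 2 ∈ [0, 1]`, `|w_a w_b - w'_a w'_b| ≤ |w_a - w'_a| + |w_b - w'_b|`, so the difference is at most `2 ∑_a dg x d a * |w_a - w'_a|` (each `a` is the first, respectively second, index of `dg x d a` pairs; `dg_eq'`).
`|w_a - w'_a| ≤ 1` for `a = c`; for `a ∈ W` it is `≤ φ` if `c ∈ nb x U a` (then `(a, c) ∈ Ed x 1`; `|sin X - sin Y| ≤ |X - Y| ≤ 2 φ`) and `0` otherwise; for `a ∈ U`, `a ≠ c`, and for `a ∉ U ∪ W` it is `0`.  (`c ∈ W`: then `w_c` does not depend on `ω c`; the bound holds anyway.) -/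
def St_Diff : Prop := ∀ {n : ℕ} (x : Fin n → Plane) (U W : Finset (Fin n)) (φ d : ℝ), Disjoint U W → 0 ≤ φ →
  ∀ (c : Fin n) (ω ω' : Fin n → Fin 2), (∀ b, b ≠ c → ω b = ω' b) →
    |hh x U W φ d ω - hh x U W φ d ω'| ≤ Lc x W φ d c

/-- (Var) The sum of the squares.  Proof.  `B c = ∑_{a ∈ W, (a, c) ∈ Ed x 1} dg x d a` = number of `(a, b)` with `a ∈ W`, `(a, c) ∈ Ed x 1`, `(a, b) ∈ Ed x d`; for `b ≠ c` there are at most two `a` (two circles with different centres, radii `1` and `d`: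
`EuclideanGeometry.eq_of_dist_eq_of_dist_eq_of_finrank_eq_two`, as in `circle_two`), for `b = c` at most `n`: `B c ≤ 3 n`.  `∑_c B c = ∑_{a ∈ W} dg x d a * dg x 1 a ≤ K ∑_a dg x d a = K |Ed x d|` (`sum_dg`).  `(p + q)² ≤ 2 p² + 2 q²`: `Lc² ≤ 8 dg² + 8 φ² B²`, `∑ dg² ≤ 3 n²` (`sum_dg_sq`), `∑ B² ≤ 3 n ∑ B`. -/
def St_Var : Prop := ∀ {n : ℕ} (x : Fin n → Plane), Function.Injective x → ∀ (W : Finset (Fin n)) (φ d K : ℝ),
  0 ≤ φ → 0 ≤ K → (∀ a ∈ W, (dg x 1 a : ℝ) ≤ K) →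
    ∑ c, Lc x W φ d c ^ 2 ≤ 24 * (n : ℝ) ^ 2 + 24 * φ ^ 2 * n * (K * (Ed x d).card)

/-- (Usp) Basic facts on `u`.  Proof.  (1) the set is bounded by `n²` (`f_le`) and nonempty (`exists_card`; `Nat.sSup_mem`).  (2) `f A d ≠ 0` implies `d > 0`; scale by `1 / d` (`exists_scaled`), `le_csSup`.  (3) `n / m` generic copies (`family3`), `pad`, `P_even`.
(4) induction on `n ≥ m`: it is enough that `(k - 1) * u (k + 1) ≤ (k + 1) * u k`: an extremal set `A` with `k + 1` points has a point of degree at most `2 u (k+1) / (k+1)` (the sum of the degrees is `P A 1 = 2 u (k+1)`), remove it: `u k ≥ u (k+1) - 2 u (k+1) / (k+1)`. -/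
def St_Usp : Prop :=
  (∀ n : ℕ, ∃ A : Finset Plane, A.card = n ∧ f A 1 = u n) ∧
  (∀ (A : Finset Plane) (d : ℝ), f A d ≤ u A.card) ∧
  (∀ n m : ℕ, 1 ≤ m → m ≤ n → n / m * u m ≤ u n) ∧
  (∀ n m : ℕ, m ≤ n → m * (m - 1) * u n ≤ n * (n - 1) * u m)

/-- (Part) The sets `U` and `W`.  Proof.  `T = {a | n * dg x 1 a ≤ 4 |Ed x 1|}`, `K` the complement: `4 |Ed x 1| |K| < n ∑_{a ∈ K} dg ≤ n |Ed x 1|` if `K` is nonempty, so `4 |K| ≤ n` (`|Ed x 1| = 0`: everything trivial).  The pairs of `Ed x 1` inside `K`: `card_Ed` for `I = K`, `St_Usp` (2), (3):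
`2 u (|K|) ≤ 2 u n / 4` (`n / |K| ≥ 4`; `K = ∅`: zero).  So at least `3/4` of `Ed x 1` are pairs not inside `K`, and by symmetry at least `3/8` of `Ed x 1` have the first index in `T`: `∑_{a ∈ T} dg x 1 a ≥ 3/8 |Ed x 1|`.
Some `U` has `#{(a, b) ∈ Ed x 1 : a ∈ T, a ∉ U, b ∈ U} ≥ 1/4 ∑_{a ∈ T} dg x 1 a` (average over all subsets `U`: for `a ≠ b` exactly `2^(n-2)` subsets contain `b` but not `a`; e.g. with the colourings `Fin n → Fin 2` as in `card_both`).  `W = T \ U`: `∑_{a ∈ W} |nb x U a| ≥ 3/32 |Ed x 1|`. -/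
def St_Part : Prop := St_Usp → ∀ {n : ℕ} (x : Fin n → Plane), Function.Injective x → (Ed x 1).card = 2 * u n →
  ∃ U W : Finset (Fin n), Disjoint U W ∧ (∀ a ∈ W, n * dg x 1 a ≤ 4 * (Ed x 1).card) ∧
    3 * (Ed x 1).card ≤ 32 * ∑ a ∈ W, (nb x U a).card

/-- (StA) Good signs.  Proof.  `E = |Ed x 1|`, `φ = √(n / E) / 2 ≤ 1/2`, `m = ⌊4 E / n⌋` (`|nb x U a| ≤ dg x 1 a ≤ m` for `a ∈ W`; `m φ² ≤ 1`).  `V = 48 n E`: `St_Var` with `K = 4 E / n`: `24 n² + 24 (n / (4 E)) n (4 E / n) E = 24 n² + 24 n E ≤ 48 n E`.  `lam = √(n E) / 2048`: `lam² / (2 V) = 1 / 402653184`.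
`St_KT` (`q = 2`, `h i = hh x U W φ d` for `d ∈ D`, `d ≠ 1`, and `h i = - hh x U W φ 1`): the total number of bad `ω` is at most `(|D| + 1) 2^(n k) exp (- k / 402653184) < 2^(n k)`, so some `ω` is good for all: `∑_i hh d (ω i) < k (mean_d + lam)`, `∑_i hh 1 (ω i) > k (mean_1 - lam)`.
`St_Mean`: `mean_d ≤ E / 4 + φ² E / 2 = E / 4 + n / 8`, `mean_1 ≥ E / 4 + (φ / 8) (3 / 32) E = E / 4 + (3 / 512) √(n E)`. -/
def St_StA : Prop := St_KT → St_Exp → St_Cos → St_Mean → St_Diff → St_Var → ∀ {n k : ℕ} (x : Fin n → Plane),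
  Function.Injective x → 1 ≤ n → 1 ≤ k → n ≤ (Ed x 1).card → (∀ d, (Ed x d).card ≤ (Ed x 1).card) →
  ∀ U W : Finset (Fin n), Disjoint U W → (∀ a ∈ W, n * dg x 1 a ≤ 4 * (Ed x 1).card) →
  3 * (Ed x 1).card ≤ 32 * ∑ a ∈ W, (nb x U a).card →
  ∀ D : Finset ℝ, ((D.card : ℝ) + 1) * Real.exp (-((k : ℝ) / 402653184)) < 1 →
  ∃ (φ : ℝ) (ω : Fin k → Fin n → Fin 2),
    (∀ d ∈ D, d ≠ 1 → ∑ i, hh x U W φ d (ω i) ≤
      k * (((Ed x 1).card : ℝ) / 4 + n / 8 + √(n * (Ed x 1).card) / 2048)) ∧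
    k * (((Ed x 1).card : ℝ) / 4 + 11 / 2048 * √(n * (Ed x 1).card)) ≤ ∑ i, hh x U W φ 1 (ω i)

/-- (Rnd) Rounding of the weights.  Proof.  `q = n ^ 2`, `b i a = ⌊q * w i a⌋₊ ≤ q`, `S i (ω) = {a | (ω i a : ℕ) < b i a}`, `h i ω = |{p ∈ Ed x d : ω p.1 < b i p.1, ω p.2 < b i p.2}|`: mean `∑_{p ∈ Ed x d} (b i p.1 / q) (b i p.2 / q)` (`p.1 ≠ p.2`; compare `card_both`, `mean_Fc` in Color.lean), which differs from
`∑ w w` by at most `2 |Ed x d| / q ≤ 2`.  Differences `≤ 2 dg x d a` (compare `diff_Fc`), `V = 12 n²` (`sum_dg_sq`).  `St_KT` for `h` and for `-h` and all `d ∈ D`: at most `2 |D| (q^n)^k exp (- k lam² / (24 n²)) < (q^n)^k` bad `ω`. -/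
def St_Rnd : Prop := St_KT → ∀ {n k : ℕ} (x : Fin n → Plane), Function.Injective x → 1 ≤ n → 1 ≤ k →
  ∀ w : Fin k → Fin n → ℝ, (∀ i a, 0 ≤ w i a ∧ w i a ≤ 1) → ∀ (D : Finset ℝ) (lam : ℝ), 0 < lam →
  2 * (D.card : ℝ) * Real.exp (-((k : ℝ) * lam ^ 2 / (24 * (n : ℝ) ^ 2))) < 1 →
  ∃ S : Fin k → Finset (Fin n), ∀ d ∈ D,
    |(∑ i, ((Ed x d).filter (fun p => p.1 ∈ S i ∧ p.2 ∈ S i)).card : ℕ) -
      ∑ i, ∑ p ∈ Ed x d, w i p.1 * w i p.2| ≤ k * (lam + 2)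

/-- (Core) The gap.  Proof.  `A` extremal (`St_Usp` (1)), `x : Fin n → Plane` an enumeration, `E = |Ed x 1| = 2 u n` (`card_Ed` with `I = univ`, `P_even`), `|Ed x d| ≤ E` (`St_Usp` (2)), `E ≥ 4096 n`.  `D` = the distances of `A` and `1`: `|D| ≤ n² + 1`.  `St_Part`, `St_StA`: `φ, ω`.  `w i a = (1 + vv x U W φ (ω i) a) / 2`.
`St_Rnd` with `lam = √(n E) / 2048` (`lam² / (24 n²) = E / (24 * 2048² n) ≥ 4096 / (24 * 2048²) ≥ 1 / 402653184`): `S i`, `A i = S i` image under `x`; `P (A i) d = |{p ∈ Ed x d : p.1, p.2 ∈ S i}|` (`card_Ed`).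
`∑_i P (A i) 1 ≥ k (E / 4 + 10 / 2048 √(n E) - 2)`, and for `d ≠ 1`: `∑_i P (A i) d ≤ k (E / 4 + n / 8 + 2 / 2048 √(n E) + 2)` (trivial if `d ∉ D`: zero).  `√(n E) ≥ 64 n`, so `n / 8 ≤ 4 / 2048 √(n E)`; `u n ≤ n²` (`f_le`) gives `n ≥ 2048`, so `4 ≤ √(n E) / 2048`.  The difference is at least `k (3 / 2048) √(n E)`.
`family3` (`s = univ`): `U₁` with at most `k n` points, `pad` to `N` points: `P 1 ≥ ...`, other `P d ≤ max (..., 2)`; `fr_le` with `{1}`, `f_le_fr_one`, `le_M`: `M 1 N ≥ k (3 / 4096) √(2 n u) - 1` (note that also `P 1 ≥ k E / 4` is much larger than `2 + k (3/2048) √(n E)`, for the case where the maximum is `2`). -/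
def St_Core : Prop := St_KT → St_Exp → St_Cos → St_Mean → St_Diff → St_Var → St_Usp → St_Part → St_StA → St_Rnd →
  ∀ n k N : ℕ, 1 ≤ n → 1 ≤ k → 2048 * n ≤ u n →
  2 * ((n : ℝ) ^ 2 + 2) * Real.exp (-((k : ℝ) / 402653184)) < 1 → k * n ≤ N →
    (k : ℝ) * √(n * u n) / 1024 ≤ M 1 N + 1

/-- (Rank) Higher ranks.  Proof.  (1) `exists_M`, `fr A r ≤ fr A 1` (`fr_anti`), `fr A 1 = f A d` (`exists_top`, or it is `0`), `St_Usp` (2).
(2) `A` with `m` points and `M 1 m = fr A 1 - fr A 2`; if this is `≤ 1` nothing is to prove.  `d₁` with `f A d₁ = fr A 1` (`exists_top`), `f A d ≤ fr A 2` for `d ≠ d₁` (`le_fr_two`).  Let `t > 1` be larger than all quotients of two distances of `A`; `B i` (`i < r`) the copy of `A` scaled by `t ^ i` (`exists_scaled`), `family3`, `pad` to `N` points.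
For `d = t ^ i d₁`: `P ≥ P A d₁`.  For every other `d` at most one of the `P (B i) d = P A (d / t ^ i)` is not zero, and it is at most `2 fr A 2`: `f ≤ max (fr A 2) 1`.  `fr_ge` with `D = {t ^ i d₁ : i < r}` (`r` elements) and `fr_le`: `M r N ≥ fr A 1 - max (fr A 2) 1 ≥ M 1 m - 1`. -/
def St_Rank : Prop := St_Usp → (∀ r n : ℕ, 1 ≤ r → M r n ≤ u n) ∧
  (∀ r m N : ℕ, 1 ≤ r → 1 ≤ m → r * m ≤ N → M 1 m ≤ M r N + 1)

/-- The conclusion of `St_Core`. -/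
def Con : Prop := ∀ n k N : ℕ, 1 ≤ n → 1 ≤ k → 2048 * n ≤ u n →
  2 * ((n : ℝ) ^ 2 + 2) * Real.exp (-((k : ℝ) / 402653184)) < 1 → k * n ≤ N →
    (k : ℝ) * √(n * u n) / 1024 ≤ M 1 N + 1

/-- (One) Rank one.  Proof.  `C = 402653184`, `k = ⌈6 C log m⌉₊ ≤ 7 C log m` (`6 C log m ≥ 1`), `exp (-k / C) ≤ m ^ (-6)`, `n = m / k`.
(i) `n ≥ 2` and `2048 n ≤ u n`: `Con` with `N = m` (`2 (n² + 2) m⁻⁶ < 1` as `n ≤ m`, `m ≥ 2`).  `St_Usp` (4): `n (n-1) u m ≤ m (m-1) u n`, so `u n ≥ (n² / 2) u m / m²`; `n ≥ m / (2 k)` (as `m ≥ k`): `n u n ≥ n³ u m / (2 m²) ≥ m u m / (16 k³)`, `k √(n u n) ≥ √(m u m / (16 k))`.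
The `+ 1`: `M 1 m ≥ 1` (`lower_all`), so `M 1 m ≥ (M 1 m + 1) / 2`.
(ii) `n ≥ 2`, `u n < 2048 n`: `u m ≤ 2 m² u n / n² ≤ 4096 m² / n ≤ 8192 k m`, so `√(m u m / log m) ≤ √(8192 * 7 C) m`, and `M 1 m ≥ m / 1000` (`lower_all`: `min m (m² / 1) = m`).
(iii) `n ≤ 1`: `m < 2 k ≤ 14 C log m`, so `m / log m ≤ 14 C`, `u m ≤ m²`: `√(m u m / log m) ≤ √(m³ / log m) ≤ m √(14 C)`, and `M 1 m ≥ m / 1000`. -/
def St_One : Prop := Con → St_Usp → ∃ c : ℝ, 0 < c ∧ ∀ m : ℕ, 2 ≤ m →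
  c * √((m : ℝ) * u m / Real.log m) ≤ M 1 m

/-- (Fin) All ranks.  Proof.  `m = n / r ≥ 1`.  `m ≥ 2`: `St_Rank`: `M 1 m ≤ M r n + 1 ≤ 2 M r n` (`M r n ≥ 1` by `lower_all`: `2 r ≤ n (n - 1)`), `m ≥ n / (2 r)`, `St_Usp` (4): `u m ≥ m² u n / (2 n²)`, so `m u m ≥ m³ u n / (2 n²) ≥ n u n / (16 r³)`, `log m ≤ log n`: `c₁ √(n u n / log n) / (4 r^(3/2)) ≤ M 1 m`.
`m = 1`: `n < 2 r`, `u n ≤ n²` (`f_le`): `√(n u n / log n) / r^(3/2) ≤ √(n³ / log 2) / (n / 2)^(3/2) ≤ 4`, and `M r n ≥ 1`. -/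
def St_Fin : Prop := St_One → Con → St_Usp → St_Rank → ∃ c : ℝ, 0 < c ∧ ∀ n r : ℕ, 1 ≤ r → r < n →
  c * √((n : ℝ) * u n / Real.log n) / (r : ℝ) ^ (3 / 2 : ℝ) ≤ M r n ∧ M r n ≤ u n

end Pool.Agent.GMU
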