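import Mathlib
import Pool.Agent.GMU.St

/-!
# GMU, module Rnd: rounding of the weights to `k` subsets
-/

set_option autoImplicit false

namespace Pool.Agent.GMU

open Finset Pool.Agent.Helper53.Generic Pool.Agent.Helper60.Gap

private lemma Rnd_card {n q : ℕ} (K L : Finset (Fin q)) {i j : Fin n} (hij : i ≠ j) :
    (Finset.univ.filter (fun ω : Fin n → Fin q => ω i ∈ K ∧ ω j ∈ L)).card * q ^ 2 =
      K.card * L.card * q ^ n := by
  classical
  have h1 : Finset.univ.filter (fun ω : Fin n → Fin q => ω i ∈ K ∧ ω j ∈ L) =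
      Fintype.piFinset (fun k => if k = i then K else if k = j then L else Finset.univ) := by
    ext ω
    rw [Finset.mem_filter, Fintype.mem_piFinset]
    constructor
    · rintro ⟨-, h1, h2⟩ k
      by_cases hk : k = i
      · rw [if_pos hk, hk]
        exact h1
      · rw [if_neg hk]
        by_cases hk2 : k = j
        · rw [if_pos hk2, hk2]
          exact h2
        · rw [if_neg hk2]
          exact Finset.mem_univ _
    · intro h
      have h1 := h i
      have h2 := h j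
      rw [if_pos rfl] at h1
      rw [if_neg hij.symm, if_pos rfl] at h2
      exact ⟨Finset.mem_univ _, h1, h2⟩
  rw [h1, Fintype.card_piFinset]
  rw [← Finset.mul_prod_erase Finset.univ _ (Finset.mem_univ i),
    ← Finset.mul_prod_erase (Finset.univ.erase i) _ (Finset.mem_erase.2 ⟨hij.symm, Finset.mem_univ j⟩)]
  rw [if_pos rfl, if_neg hij.symm, if_pos rfl]
  have h2 : ∏ k ∈ (Finset.univ.erase i).erase j,
      (if k = i then K else if k = j then L else (Finset.univ : Finset (Fin q))).card = q ^ (n - 2) := by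
    rw [Finset.prod_congr rfl (g := fun _ => q)]
    · rw [Finset.prod_const, Finset.card_erase_of_mem (Finset.mem_erase.2 ⟨hij.symm, Finset.mem_univ j⟩),
        Finset.card_erase_of_mem (Finset.mem_univ i), Finset.card_univ, Fintype.card_fin]
      rfl
    · intro k hk
      have hk1 : k ≠ j := Finset.ne_of_mem_erase hk
      have hk2 : k ≠ i := Finset.ne_of_mem_erase (Finset.mem_of_mem_erase hk)
      rw [if_neg hk2, if_neg hk1, Finset.card_univ, Fintype.card_fin]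
  rw [h2]
  have hn : 2 ≤ n := by
    have h3 : ({i, j} : Finset (Fin n)).card ≤ (Finset.univ : Finset (Fin n)).card :=
      Finset.card_le_card (Finset.subset_univ _)
    rw [Finset.card_pair hij, Finset.card_univ, Fintype.card_fin] at h3
    exact h3
  have h4 : q ^ n = q ^ (n - 2) * q ^ 2 := by
    rw [← pow_add]
    congr 1
    omega
  rw [h4]
  ring

/-- the number of pairs whose colours are in the sets of the indices -/
private noncomputable def Rnd_F {n : ℕ} (x : Fin n → Plane) (d : ℝ) {q : ℕ} (K : Fin n → Finset (Fin q))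
    (ω : Fin n → Fin q) : ℕ :=
  ((Ed x d).filter (fun p => ω p.1 ∈ K p.1 ∧ ω p.2 ∈ K p.2)).card

private lemma Rnd_mean {n : ℕ} (x : Fin n → Plane) (d : ℝ) {q : ℕ} (hq : 0 < q) (K : Fin n → Finset (Fin q)) :
    (∑ ω : Fin n → Fin q, (Rnd_F x d K ω : ℝ)) / (q : ℝ) ^ n =
      ∑ p ∈ Ed x d, ((K p.1).card / (q : ℝ)) * ((K p.2).card / (q : ℝ)) := by
  classical
  have hq' : (q : ℝ) ≠ 0 := by exact_mod_cast hq.ne'
  have h1 : ∑ ω : Fin n → Fin q, Rnd_F x d K ω =
      ∑ p ∈ Ed x d, (Finset.univ.filter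
        (fun ω : Fin n → Fin q => ω p.1 ∈ K p.1 ∧ ω p.2 ∈ K p.2)).card := by
    unfold Rnd_F
    simp_rw [Finset.card_filter]
    rw [Finset.sum_comm]
  have h2 : (∑ ω : Fin n → Fin q, Rnd_F x d K ω) * q ^ 2 =
      ∑ p ∈ Ed x d, (K p.1).card * (K p.2).card * q ^ n := by
    rw [h1, Finset.sum_mul]
    apply Finset.sum_congr rfl
    intro p hp
    apply Rnd_card
    unfold Ed at hp
    exact (Finset.mem_filter.mp hp).2.1
  have h3 : (∑ ω : Fin n → Fin q, (Rnd_F x d K ω : ℝ)) * (q : ℝ) ^ 2 =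
      ∑ p ∈ Ed x d, ((K p.1).card : ℝ) * (K p.2).card * (q : ℝ) ^ n := by exact_mod_cast h2
  rw [div_eq_iff (pow_ne_zero _ hq')]
  have hq2 : (q : ℝ) ^ 2 ≠ 0 := pow_ne_zero _ hq'
  apply mul_right_cancel₀ hq2
  rw [h3, Finset.sum_mul, Finset.sum_mul]
  apply Finset.sum_congr rfl
  intro p _
  field_simp

private lemma Rnd_diff {n : ℕ} (x : Fin n → Plane) (d : ℝ) {q : ℕ} (K : Fin n → Finset (Fin q)) (i : Fin n)
    (ω ω' : Fin n → Fin q) (h : ∀ j, j ≠ i → ω j = ω' j) :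
    |(Rnd_F x d K ω : ℝ) - Rnd_F x d K ω'| ≤ 2 * dg x d i := by
  classical
  have key : ∀ ω ω' : Fin n → Fin q, (∀ j, j ≠ i → ω j = ω' j) →
      (Rnd_F x d K ω : ℝ) ≤ Rnd_F x d K ω' + 2 * dg x d i := by
    intro ω ω' h
    have h1 : Rnd_F x d K ω ≤ Rnd_F x d K ω' + (dg x d i + dg x d i) := by
      have hsub : (Ed x d).filter (fun p => ω p.1 ∈ K p.1 ∧ ω p.2 ∈ K p.2) ⊆
          (Ed x d).filter (fun p => ω' p.1 ∈ K p.1 ∧ ω' p.2 ∈ K p.2) ∪
          ((Ed x d).filter (fun p => p.1 = i) ∪ (Ed x d).filter (fun p => p.2 = i)) := by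
        intro p hp
        rw [Finset.mem_filter] at hp
        rw [Finset.mem_union, Finset.mem_union, Finset.mem_filter, Finset.mem_filter,
          Finset.mem_filter]
        by_cases h1 : p.1 = i
        · exact Or.inr (Or.inl ⟨hp.1, h1⟩)
        · by_cases h2 : p.2 = i
          · exact Or.inr (Or.inr ⟨hp.1, h2⟩)
          · left
            rw [← h _ h1, ← h _ h2]
            exact hp
      have h2 := (Finset.card_le_card hsub).trans ((Finset.card_union_le _ _).trans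
        (Nat.add_le_add_left (Finset.card_union_le _ _) _))
      rw [dg_eq'] at h2
      exact h2
    have : (Rnd_F x d K ω : ℝ) ≤ ((Rnd_F x d K ω' + (dg x d i + dg x d i) : ℕ) : ℝ) := by
      exact_mod_cast h1
    push_cast at this
    linarith
  rw [abs_le]
  constructor
  · have := key ω' ω (fun j hj => (h j hj).symm)
    linarith
  · have := key ω ω' h
    linarith

/-- **Rnd** -/
theorem thm_Rnd : St_Rnd := by
  intro hKT n k x hx hn hk w hw D lam hlam hD
  classical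
  obtain ⟨q, hq⟩ : ∃ q, q = n ^ 2 := ⟨_, rfl⟩
  have hq0 : 0 < q := by rw [hq]; positivity
  have hqR : (0 : ℝ) < q := by exact_mod_cast hq0
  have hnR : (0 : ℝ) < n := by exact_mod_cast hn
  have hkR : (0 : ℝ) < k := by exact_mod_cast hk
  -- the sets of colours
  obtain ⟨K, hK⟩ : ∃ K : Fin k → Fin n → Finset (Fin q),
      ∀ i a, K i a = Finset.univ.filter (fun c : Fin q => (c : ℕ) < ⌊(q : ℝ) * w i a⌋₊) := ⟨_, fun _ _ => rfl⟩
  have hfl : ∀ i a, ⌊(q : ℝ) * w i a⌋₊ ≤ q := by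
    intro i a
    have h1 : (q : ℝ) * w i a ≤ q := by
      have := (hw i a).2
      nlinarith
    exact Nat.floor_le_of_le h1
  have hKc : ∀ i a, (K i a).card = ⌊(q : ℝ) * w i a⌋₊ := by
    intro i a
    rw [hK]
    have h1 := Fin.card_filter_val_lt (n := q) (m := ⌊(q : ℝ) * w i a⌋₊)
    rw [h1]
    exact min_eq_right (hfl i a)
  have hwK : ∀ i a, (K i a).card / (q : ℝ) ≤ w i a ∧ w i a ≤ (K i a).card / (q : ℝ) + 1 / q ∧
      0 ≤ (K i a).card / (q : ℝ) ∧ (K i a).card / (q : ℝ) ≤ 1 := by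
    intro i a
    have h0 : 0 ≤ (q : ℝ) * w i a := mul_nonneg hqR.le (hw i a).1
    have h1 := Nat.floor_le h0
    have h2 := (Nat.lt_floor_add_one ((q : ℝ) * w i a)).le
    rw [hKc]
    refine ⟨?_, ?_, by positivity, ?_⟩
    · rw [div_le_iff₀ hqR]
      linarith
    · rw [← add_div, le_div_iff₀ hqR]
      linarith
    · rw [div_le_one hqR]
      exact_mod_cast hfl i a
  -- the mean
  have hmean : ∀ d i, |(∑ ω : Fin n → Fin q, (Rnd_F x d (K i) ω : ℝ)) / (q : ℝ) ^ n -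
      ∑ p ∈ Ed x d, w i p.1 * w i p.2| ≤ 2 := by
    intro d i
    rw [Rnd_mean x d hq0 (K i), ← Finset.sum_sub_distrib]
    refine (Finset.abs_sum_le_sum_abs _ _).trans ?_
    have h1 : ∀ p ∈ Ed x d, |(K i p.1).card / (q : ℝ) * ((K i p.2).card / (q : ℝ)) - w i p.1 * w i p.2| ≤
        2 / (q : ℝ) := by
      intro p _
      obtain ⟨a1, a2, a3, a4⟩ := hwK i p.1
      obtain ⟨b1, b2, b3, b4⟩ := hwK i p.2
      have w1 := hw i p.1
      have w2 := hw i p.2
      have e : 2 / (q : ℝ) = 1 / q + 1 / q := by ring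
      rw [e]
      have hq1 : (0 : ℝ) < 1 / q := by positivity
      rw [abs_le]
      constructor
      · nlinarith
      · nlinarith
    refine (Finset.sum_le_sum h1).trans ?_
    rw [Finset.sum_const, nsmul_eq_mul, mul_div_assoc', div_le_iff₀ hqR]
    have h2 : ((Ed x d).card : ℝ) ≤ (q : ℝ) := by
      have := Ed_card_le x d
      rw [hq]
      exact_mod_cast (by rw [pow_two]; exact this)
    linarith
  -- the differences
  have hV : ∀ d, ∑ i : Fin n, (2 * (dg x d i : ℝ)) ^ 2 ≤ 12 * (n : ℝ) ^ 2 := by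
    intro d
    have h1 : ((∑ i : Fin n, dg x d i ^ 2 : ℕ) : ℝ) ≤ ((3 * n ^ 2 : ℕ) : ℝ) := by
      exact_mod_cast sum_dg_sq x d hx
    push_cast at h1
    calc ∑ i : Fin n, (2 * (dg x d i : ℝ)) ^ 2 = 4 * ∑ i : Fin n, (dg x d i : ℝ) ^ 2 := by
          rw [Finset.mul_sum]
          apply Finset.sum_congr rfl
          intro i _
          ring
      _ ≤ 4 * (3 * (n : ℝ) ^ 2) := by gcongr
      _ = _ := by ring
  have hV0 : (0 : ℝ) < 12 * (n : ℝ) ^ 2 := by positivity
  have hexp : (k : ℝ) * lam ^ 2 / (2 * (12 * (n : ℝ) ^ 2)) = (k : ℝ) * lam ^ 2 / (24 * (n : ℝ) ^ 2) := by ring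
  -- the bad colourings
  set bad1 : ℝ → Finset (Fin k → Fin n → Fin q) := fun d => Finset.univ.filter fun ω =>
    (k : ℝ) * lam ≤ ∑ i, ((Rnd_F x d (K i) (ω i) : ℝ) - (∑ ω', (Rnd_F x d (K i) ω' : ℝ)) / (q : ℝ) ^ n) with hb1
  set bad2 : ℝ → Finset (Fin k → Fin n → Fin q) := fun d => Finset.univ.filter fun ω =>
    (k : ℝ) * lam ≤ ∑ i, (-(Rnd_F x d (K i) (ω i) : ℝ) - (∑ ω', -(Rnd_F x d (K i) ω' : ℝ)) / (q : ℝ) ^ n) with hb2
  have hc1 : ∀ d, ((bad1 d).card : ℝ) ≤ ((q : ℝ) ^ n) ^ k * Real.exp (-((k : ℝ) * lam ^ 2 / (24 * (n : ℝ) ^ 2))) := by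
    intro d
    have := hKT hq0 n k (fun i ω => (Rnd_F x d (K i) ω : ℝ)) (fun _ a => 2 * (dg x d a : ℝ)) (12 * (n : ℝ) ^ 2) lam
      (fun _ a => by positivity) (fun i a ω ω' h => Rnd_diff x d (K i) a ω ω' h) (fun _ => hV d) hV0 hlam.le
    rw [hexp] at this
    exact this
  have hc2 : ∀ d, ((bad2 d).card : ℝ) ≤ ((q : ℝ) ^ n) ^ k * Real.exp (-((k : ℝ) * lam ^ 2 / (24 * (n : ℝ) ^ 2))) := by
    intro d
    have := hKT hq0 n k (fun i ω => -(Rnd_F x d (K i) ω : ℝ)) (fun _ a => 2 * (dg x d a : ℝ)) (12 * (n : ℝ) ^ 2) lam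
      (fun _ a => by positivity) (fun i a ω ω' h => by
        have := Rnd_diff x d (K i) a ω ω' h
        rw [neg_sub_neg, abs_sub_comm]
        exact this) (fun _ => hV d) hV0 hlam.le
    rw [hexp] at this
    exact this
  have hcard : ((D.biUnion fun d => bad1 d ∪ bad2 d).card : ℝ) < ((q : ℝ) ^ n) ^ k := by
    have h1 : ((D.biUnion fun d => bad1 d ∪ bad2 d).card : ℝ) ≤ ∑ d ∈ D, ((bad1 d ∪ bad2 d).card : ℝ) := by
      exact_mod_cast Finset.card_biUnion_le
    have h2 : ∀ d ∈ D, ((bad1 d ∪ bad2 d).card : ℝ) ≤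
        2 * (((q : ℝ) ^ n) ^ k * Real.exp (-((k : ℝ) * lam ^ 2 / (24 * (n : ℝ) ^ 2)))) := by
      intro d _
      have h3 : ((bad1 d ∪ bad2 d).card : ℝ) ≤ (bad1 d).card + (bad2 d).card := by
        exact_mod_cast Finset.card_union_le _ _
      have := hc1 d
      have := hc2 d
      linarith
    have h3 := Finset.sum_le_sum h2
    rw [Finset.sum_const, nsmul_eq_mul] at h3
    have h4 : (0 : ℝ) < ((q : ℝ) ^ n) ^ k := by positivity
    calc ((D.biUnion fun d => bad1 d ∪ bad2 d).card : ℝ)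
        ≤ (D.card : ℝ) * (2 * (((q : ℝ) ^ n) ^ k * Real.exp (-((k : ℝ) * lam ^ 2 / (24 * (n : ℝ) ^ 2))))) := h1.trans h3
      _ = (2 * (D.card : ℝ) * Real.exp (-((k : ℝ) * lam ^ 2 / (24 * (n : ℝ) ^ 2)))) * ((q : ℝ) ^ n) ^ k := by ring
      _ < 1 * ((q : ℝ) ^ n) ^ k := mul_lt_mul_of_pos_right hD h4
      _ = _ := one_mul _
  obtain ⟨ω, hω⟩ : ∃ ω : Fin k → Fin n → Fin q, ω ∉ D.biUnion fun d => bad1 d ∪ bad2 d := by
    by_contra hcon
    push Not at hcon
    have h1 : (Finset.univ : Finset (Fin k → Fin n → Fin q)) ⊆ D.biUnion fun d => bad1 d ∪ bad2 d :=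
      fun ω _ => hcon ω
    have h2 := Finset.card_le_card h1
    rw [Finset.card_univ, Fintype.card_fun, Fintype.card_fun, Fintype.card_fin, Fintype.card_fin,
      Fintype.card_fin] at h2
    have h3 : (((q ^ n) ^ k : ℕ) : ℝ) ≤ ((D.biUnion fun d => bad1 d ∪ bad2 d).card : ℝ) := by
      exact_mod_cast h2
    push_cast at h3
    linarith
  refine ⟨fun i => Finset.univ.filter (fun a => ω i a ∈ K i a), fun d hd => ?_⟩
  have hcd : (((∑ i, ((Ed x d).filter (fun p => p.1 ∈ Finset.univ.filter (fun a => ω i a ∈ K i a) ∧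
      p.2 ∈ Finset.univ.filter (fun a => ω i a ∈ K i a))).card : ℕ)) : ℝ) = ∑ i, (Rnd_F x d (K i) (ω i) : ℝ) := by
    push_cast
    apply Finset.sum_congr rfl
    intro i _
    unfold Rnd_F
    congr 2
    ext p
    simp only [Finset.mem_filter, Finset.mem_univ, true_and]
  have hg1 : ω ∉ bad1 d := fun h => hω (Finset.mem_biUnion.2 ⟨d, hd, Finset.mem_union_left _ h⟩)
  have hg2 : ω ∉ bad2 d := fun h => hω (Finset.mem_biUnion.2 ⟨d, hd, Finset.mem_union_right _ h⟩)
  simp only [hb1, Finset.mem_filter, Finset.mem_univ, true_and, not_le] at hg1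
  simp only [hb2, Finset.mem_filter, Finset.mem_univ, true_and, not_le] at hg2
  rw [hcd]
  rw [Finset.sum_sub_distrib] at hg1
  have e2 : ∑ i, (-(Rnd_F x d (K i) (ω i) : ℝ) - (∑ ω', -(Rnd_F x d (K i) ω' : ℝ)) / (q : ℝ) ^ n) =
      -(∑ i, (Rnd_F x d (K i) (ω i) : ℝ)) + ∑ i, (∑ ω', (Rnd_F x d (K i) ω' : ℝ)) / (q : ℝ) ^ n := by
    rw [← Finset.sum_neg_distrib, ← Finset.sum_add_distrib]
    apply Finset.sum_congr rfl
    intro i _
    rw [Finset.sum_neg_distrib, neg_div]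
    ring
  rw [e2] at hg2
  have hm : |∑ i, (∑ ω', (Rnd_F x d (K i) ω' : ℝ)) / (q : ℝ) ^ n - ∑ i, ∑ p ∈ Ed x d, w i p.1 * w i p.2| ≤ k * 2 := by
    rw [← Finset.sum_sub_distrib]
    refine (Finset.abs_sum_le_sum_abs _ _).trans ?_
    refine (Finset.sum_le_sum (fun i _ => hmean d i)).trans ?_
    rw [Finset.sum_const, Finset.card_univ, Fintype.card_fin, nsmul_eq_mul]
  rw [abs_le] at hm ⊢
  constructor
  · linarith [hm.1, hm.2]
  · linarith [hm.1, hm.2]

end Pool.Agent.GMU
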