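import Pool.Agent.GMU.St

/-!
# GMU, module Usp: basic facts on `u` (helper26)
-/

set_option autoImplicit false

namespace Pool.Agent.GMU

open Finset Pool.Agent.Helper53.Generic Pool.Agent.Helper60.Gap

private theorem Usp_bdd (n : ℕ) : BddAbove {g | ∃ A : Finset Plane, A.card = n ∧ g = f A 1} := by
  refine ⟨n * n, ?_⟩
  rintro g ⟨A, hA, rfl⟩
  rw [← hA]
  exact f_le A 1

private theorem Usp_ex (n : ℕ) : ∃ A : Finset Plane, A.card = n ∧ f A 1 = u n := by
  have hne : {g | ∃ A : Finset Plane, A.card = n ∧ g = f A 1}.Nonempty := by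
    obtain ⟨A, hA⟩ := exists_card n
    exact ⟨_, A, hA, rfl⟩
  obtain ⟨A, hA, h⟩ := Nat.sSup_mem hne (Usp_bdd n)
  exact ⟨A, hA, h.symm⟩

private theorem Usp_one (A : Finset Plane) : f A 1 ≤ u A.card :=
  le_csSup (Usp_bdd A.card) ⟨A, rfl, rfl⟩

private theorem Usp_le (A : Finset Plane) (d : ℝ) : f A d ≤ u A.card := by
  by_cases hd : 0 < d
  · obtain ⟨B, hB, h⟩ := exists_scaled A (c := 1 / d) (by positivity)
    have h1 : P B 1 = P A d := by
      have := h d
      rwa [one_div, inv_mul_cancel₀ hd.ne'] at this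
    have h2 : f B 1 = f A d := by
      rw [f_eq, f_eq, h1]
    rw [← h2, ← hB]
    exact Usp_one B
  · have h1 : P A d = 0 := P_nonpos (not_lt.mp hd)
    rw [f_eq, h1]
    exact Nat.zero_le _

private theorem Usp_super (n m : ℕ) (hmn : m ≤ n) : n / m * u m ≤ u n := by
  classical
  obtain ⟨A, hA, hu⟩ := Usp_ex m
  obtain ⟨U, hU, h1⟩ := family3 (Finset.univ : Finset (Fin (n / m))) (fun _ => A)
  rw [Finset.sum_const, Finset.card_univ, Fintype.card_fin, smul_eq_mul, hA] at hU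
  have hUn : U.card ≤ n := by
    rw [hU]
    exact Nat.div_mul_le_self n m
  obtain ⟨V, hV, h2⟩ := pad U hUn
  have h3 := (h1 1).1
  rw [Finset.sum_const, Finset.card_univ, Fintype.card_fin, smul_eq_mul, P_even, P_even, hu] at h3
  have h4 := (h2 1).1
  rw [P_even, P_even] at h4
  have h5 := Usp_one V
  rw [hV] at h5
  have h6 : n / m * (2 * u m) = 2 * (n / m * u m) := by ring
  omega

private theorem Usp_erase (A : Finset Plane) :
    ∑ a ∈ A, P (A.erase a) 1 = (A.card - 2) * P A 1 := by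
  classical
  have h1 : ∀ a ∈ A, P (A.erase a) 1 =
      ∑ q ∈ A.offDiag.filter (fun q => dist q.1 q.2 = 1), if q.1 ≠ a ∧ q.2 ≠ a then 1 else 0 := by
    intro a _
    unfold P
    rw [Finset.card_eq_sum_ones, ← Finset.sum_filter]
    refine Finset.sum_congr ?_ (fun _ _ => rfl)
    ext q
    simp only [Finset.mem_filter, Finset.mem_offDiag, Finset.mem_erase]
    constructor
    · rintro ⟨⟨⟨h1, h2⟩, ⟨h3, h4⟩, h5⟩, h6⟩
      exact ⟨⟨⟨h2, h4, h5⟩, h6⟩, h1, h3⟩
    · rintro ⟨⟨⟨h2, h4, h5⟩, h6⟩, h1, h3⟩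
      exact ⟨⟨⟨h1, h2⟩, ⟨h3, h4⟩, h5⟩, h6⟩
  rw [Finset.sum_congr rfl h1, Finset.sum_comm]
  have h2 : ∀ q ∈ A.offDiag.filter (fun q => dist q.1 q.2 = 1),
      (∑ a ∈ A, if q.1 ≠ a ∧ q.2 ≠ a then 1 else 0) = A.card - 2 := by
    intro q hq
    rw [Finset.mem_filter, Finset.mem_offDiag] at hq
    rw [← Finset.sum_filter, ← Finset.card_eq_sum_ones]
    have e : A.filter (fun a => q.1 ≠ a ∧ q.2 ≠ a) = (A.erase q.1).erase q.2 := by
      ext a
      simp only [Finset.mem_filter, Finset.mem_erase]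
      constructor
      · rintro ⟨h1, h2, h3⟩
        exact ⟨Ne.symm h3, Ne.symm h2, h1⟩
      · rintro ⟨h1, h2, h3⟩
        exact ⟨h3, Ne.symm h2, Ne.symm h1⟩
    rw [e, Finset.card_erase_of_mem (Finset.mem_erase.2 ⟨hq.1.2.2.symm, hq.1.2.1⟩),
      Finset.card_erase_of_mem hq.1.1]
    omega
  rw [Finset.sum_congr rfl h2, Finset.sum_const, smul_eq_mul, mul_comm]
  rfl

private theorem Usp_step (k : ℕ) : (k - 1) * u (k + 1) ≤ (k + 1) * u k := by
  classical
  obtain ⟨A, hA, hu⟩ := Usp_ex (k + 1)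
  have h1 := Usp_erase A
  have h2 : ∑ a ∈ A, P (A.erase a) 1 ≤ ∑ a ∈ A, 2 * u k := by
    refine Finset.sum_le_sum fun a ha => ?_
    rw [P_even]
    have h3 := Usp_one (A.erase a)
    rw [Finset.card_erase_of_mem ha, hA, Nat.add_sub_cancel] at h3
    omega
  rw [h1, Finset.sum_const, smul_eq_mul, hA, P_even, hu] at h2
  have h3 : k + 1 - 2 = k - 1 := by omega
  rw [h3] at h2
  have h4 : (k - 1) * (2 * u (k + 1)) = 2 * ((k - 1) * u (k + 1)) := by ring
  have h5 : (k + 1) * (2 * u k) = 2 * ((k + 1) * u k) := by ring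
  omega

private theorem Usp_quo (n m : ℕ) (hmn : m ≤ n) :
    m * (m - 1) * u n ≤ n * (n - 1) * u m := by
  induction n, hmn using Nat.le_induction with
  | base => exact le_rfl
  | succ k hk ih =>
    by_cases h1 : k ≤ 1
    · have h2 : m * (m - 1) = 0 := by
        have : m = 0 ∨ m = 1 := by omega
        rcases this with h | h <;> rw [h]
      rw [h2, zero_mul]
      exact Nat.zero_le _
    · have h3 : 0 < k - 1 := by omega
      have h4 := Usp_step k
      have h5 : k + 1 - 1 = k := by omega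
      rw [h5]
      refine Nat.le_of_mul_le_mul_left ?_ h3
      calc (k - 1) * (m * (m - 1) * u (k + 1)) = m * (m - 1) * ((k - 1) * u (k + 1)) := by ring
        _ ≤ m * (m - 1) * ((k + 1) * u k) := Nat.mul_le_mul_left _ h4
        _ = (k + 1) * (m * (m - 1) * u k) := by ring
        _ ≤ (k + 1) * (k * (k - 1) * u m) := Nat.mul_le_mul_left _ ih
        _ = (k - 1) * ((k + 1) * k * u m) := by ring

theorem thm_Usp : St_Usp :=
  ⟨Usp_ex, Usp_le, fun n m _ hmn => Usp_super n m hmn, Usp_quo⟩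

end Pool.Agent.GMU
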