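import Pool.Agent.GMU.St

/-!
# GMU, module Var: the sum of the squares of the differences (helper26)
-/

set_option autoImplicit false

namespace Pool.Agent.GMU

open Finset Pool.Agent.Helper53.Generic Pool.Agent.Helper60.Gap

private theorem Var_dg {n : ℕ} (x : Fin n → Plane) (d : ℝ) (i : Fin n) :
    dg x d i = (Finset.univ.filter (fun j => (i, j) ∈ Ed x d)).card := by
  classical
  unfold dg
  apply Finset.card_bij (fun p _ => p.2)
  · rintro ⟨a, b⟩ hp
    rw [Finset.mem_filter] at hp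
    rw [Finset.mem_filter]
    refine ⟨Finset.mem_univ _, ?_⟩
    have : a = i := hp.2
    rw [← this]
    exact hp.1
  · rintro ⟨a, b⟩ hp ⟨a', b'⟩ hp' h
    rw [Finset.mem_filter] at hp hp'
    have e1 : a = i := hp.2
    have e2 : a' = i := hp'.2
    have e3 : b = b' := h
    rw [e1, e2, e3]
  · intro j hj
    rw [Finset.mem_filter] at hj
    exact ⟨(i, j), by rw [Finset.mem_filter]; exact ⟨hj.2, rfl⟩, rfl⟩

/-- two circles with different centres -/
private theorem Var_two {n : ℕ} (x : Fin n → Plane) (d : ℝ) (hx : Function.Injective x) {j k : Fin n}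
    (hjk : j ≠ k) :
    (Finset.univ.filter (fun i => (i, j) ∈ Ed x 1 ∧ (i, k) ∈ Ed x d)).card ≤ 2 := by
  classical
  by_contra hcon
  push Not at hcon
  rw [Finset.two_lt_card] at hcon
  obtain ⟨a, ha, b, hb, c, hc, hab, hac, hbc⟩ := hcon
  have hfin : Module.finrank ℝ Plane = 2 := by simp
  have key : ∀ i, i ∈ Finset.univ.filter (fun i => (i, j) ∈ Ed x 1 ∧ (i, k) ∈ Ed x d) →
      dist (x i) (x j) = 1 ∧ dist (x i) (x k) = d := by
    intro i hi
    rw [Finset.mem_filter] at hi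
    unfold Ed at hi
    rw [Finset.mem_filter, Finset.mem_filter] at hi
    exact ⟨hi.2.1.2.2, hi.2.2.2.2⟩
  obtain ⟨a1, a2⟩ := key a ha
  obtain ⟨b1, b2⟩ := key b hb
  obtain ⟨c1, c2⟩ := key c hc
  rcases EuclideanGeometry.eq_of_dist_eq_of_dist_eq_of_finrank_eq_two hfin
    (fun h => hjk (hx h)) (fun h => hab (hx h)) a1 b1 c1 a2 b2 c2 with h | h
  · exact hac (hx h).symm
  · exact hbc (hx h).symm

private theorem Var_B {n : ℕ} (x : Fin n → Plane) (d : ℝ) (hx : Function.Injective x)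
    (W : Finset (Fin n)) (c : Fin n) :
    ∑ a ∈ W.filter (fun a => (a, c) ∈ Ed x 1), dg x d a ≤ 3 * n := by
  classical
  have h1 : ∑ a ∈ W.filter (fun a => (a, c) ∈ Ed x 1), dg x d a ≤
      ∑ a, (if (a, c) ∈ Ed x 1 then dg x d a else 0) := by
    rw [Finset.sum_filter]
    exact Finset.sum_le_univ_sum_of_nonneg (fun a => Nat.zero_le _)
  have h2 : ∀ a, (if (a, c) ∈ Ed x 1 then dg x d a else 0) =
      ∑ b, (if (a, c) ∈ Ed x 1 ∧ (a, b) ∈ Ed x d then 1 else 0) := by
    intro a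
    rw [Var_dg]
    split_ifs with h
    · rw [Finset.card_eq_sum_ones, Finset.sum_filter]
      refine Finset.sum_congr rfl fun b _ => ?_
      simp [h]
    · symm
      apply Finset.sum_eq_zero
      intro b _
      rw [if_neg (fun hh => h hh.1)]
  rw [Finset.sum_congr rfl (fun a _ => h2 a), Finset.sum_comm] at h1
  refine h1.trans ?_
  have h3 : ∀ b : Fin n, ∑ a, (if (a, c) ∈ Ed x 1 ∧ (a, b) ∈ Ed x d then 1 else 0) ≤
      2 + (if c = b then n else 0) := by
    intro b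
    rw [← Finset.sum_filter, ← Finset.card_eq_sum_ones]
    by_cases hp : c = b
    · rw [if_pos hp]
      refine (Finset.card_le_univ _).trans ?_
      rw [Fintype.card_fin]
      omega
    · rw [if_neg hp]
      exact Var_two x d hx hp
  refine (Finset.sum_le_sum (fun b _ => h3 b)).trans (le_of_eq ?_)
  rw [Finset.sum_add_distrib, Finset.sum_const, Finset.card_univ, Fintype.card_fin,
    Finset.sum_ite_eq]
  simp only [Finset.mem_univ, if_true, smul_eq_mul]
  ring

private theorem Var_sum {n : ℕ} (x : Fin n → Plane) (d : ℝ) (W : Finset (Fin n)) :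
    ∑ c, ∑ a ∈ W.filter (fun a => (a, c) ∈ Ed x 1), dg x d a = ∑ a ∈ W, dg x d a * dg x 1 a := by
  classical
  have h1 : ∀ c : Fin n, ∑ a ∈ W.filter (fun a => (a, c) ∈ Ed x 1), dg x d a =
      ∑ a ∈ W, (if (a, c) ∈ Ed x 1 then dg x d a else 0) := fun c => Finset.sum_filter _ _
  rw [Finset.sum_congr rfl (fun c _ => h1 c), Finset.sum_comm]
  refine Finset.sum_congr rfl fun a _ => ?_
  rw [Var_dg x 1 a, ← Finset.sum_filter, Finset.sum_const, smul_eq_mul, mul_comm]

theorem thm_Var : St_Var := by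
  classical
  intro n x hx W φ d K h0 hK hW
  set B : Fin n → ℕ := fun c => ∑ a ∈ W.filter (fun a => (a, c) ∈ Ed x 1), dg x d a with hB
  have h1 : ∀ c, Lc x W φ d c ^ 2 ≤ 8 * (dg x d c : ℝ) ^ 2 + 24 * φ ^ 2 * n * B c := by
    intro c
    have e : Lc x W φ d c = 2 * (dg x d c : ℝ) + 2 * (φ * B c) := by
      unfold Lc
      rw [hB]
      ring
    rw [e]
    have h2 : (B c : ℝ) ≤ 3 * n := by
      exact_mod_cast Var_B x d hx W c
    have h3 : (0 : ℝ) ≤ B c := Nat.cast_nonneg _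
    have h4 : (B c : ℝ) * B c ≤ 3 * n * B c := mul_le_mul_of_nonneg_right h2 h3
    have h5 : φ ^ 2 * ((B c : ℝ) * B c) ≤ φ ^ 2 * (3 * n * B c) :=
      mul_le_mul_of_nonneg_left h4 (sq_nonneg _)
    nlinarith [sq_nonneg ((dg x d c : ℝ) - φ * B c)]
  have h2 : ∑ c, (8 * (dg x d c : ℝ) ^ 2 + 24 * φ ^ 2 * n * B c) =
      8 * ((∑ c, dg x d c ^ 2 : ℕ) : ℝ) + 24 * φ ^ 2 * n * ((∑ c, B c : ℕ) : ℝ) := by
    rw [Finset.sum_add_distrib, ← Finset.mul_sum, ← Finset.mul_sum]
    push_cast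
    rfl
  have h3 : ((∑ c, dg x d c ^ 2 : ℕ) : ℝ) ≤ 3 * (n : ℝ) ^ 2 := by
    exact_mod_cast sum_dg_sq x d hx
  have h4 : ((∑ c, B c : ℕ) : ℝ) ≤ K * (Ed x d).card := by
    have e : ∑ c, B c = ∑ a ∈ W, dg x d a * dg x 1 a := Var_sum x d W
    rw [e, ← sum_dg x d]
    push_cast
    rw [Finset.mul_sum]
    calc ∑ a ∈ W, (dg x d a : ℝ) * dg x 1 a ≤ ∑ a ∈ W, K * (dg x d a : ℝ) := by
          refine Finset.sum_le_sum fun a ha => ?_
          rw [mul_comm]
          exact mul_le_mul_of_nonneg_right (hW a ha) (Nat.cast_nonneg _)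
      _ ≤ ∑ a, K * (dg x d a : ℝ) :=
          Finset.sum_le_univ_sum_of_nonneg (fun a => mul_nonneg hK (Nat.cast_nonneg _))
  refine (Finset.sum_le_sum (fun c _ => h1 c)).trans ?_
  rw [h2]
  have h5 : 24 * φ ^ 2 * n * ((∑ c, B c : ℕ) : ℝ) ≤ 24 * φ ^ 2 * n * (K * (Ed x d).card) :=
    mul_le_mul_of_nonneg_left h4 (by positivity)
  linarith

end Pool.Agent.GMU
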