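import Pool.Agent.GMU.KT
import Pool.Agent.GMU.Cos
import Pool.Agent.GMU.Exp
import Pool.Agent.GMU.Mean
import Pool.Agent.GMU.Diff
import Pool.Agent.GMU.Var
import Pool.Agent.GMU.Usp
import Pool.Agent.GMU.Part
import Pool.Agent.GMU.StA
import Pool.Agent.GMU.Rnd
import Pool.Agent.GMU.Core
import Pool.Agent.GMU.Rank
import Pool.Agent.GMU.One
import Pool.Agent.GMU.Fin

/-!
# GMU, assembly (helper26)
-/

set_option autoImplicit false

namespace Pool.Agent.GMU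

open Pool.Agent.Helper60.Gap

theorem con : Con :=
  thm_Core thm_KT thm_Exp thm_Cos thm_Mean thm_Diff thm_Var thm_Usp thm_Part thm_StA thm_Rnd

/-- `c (n u(n) / log n)^(1/2) / r^(3/2) ≤ M_r(n) ≤ u(n)`. -/
theorem geometric_mean : ∃ c : ℝ, 0 < c ∧ ∀ n r : ℕ, 1 ≤ r → r < n →
    c * √((n : ℝ) * u n / Real.log n) / (r : ℝ) ^ (3 / 2 : ℝ) ≤ M r n ∧ M r n ≤ u n :=
  thm_Fin thm_One con thm_Usp thm_Rank

end Pool.Agent.GMU
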