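import Pool.Agent.GMU.St2

/-!
# GMU, module Big (helper37): numerics for large `n`
-/

set_option autoImplicit false

namespace Pool.Agent.GMU

open Finset Pool.Agent.Helper53.Generic Pool.Agent.Helper60.Gap

private theorem Big_log {n : ℕ} (hn : (3 : ℝ) ≤ n) (h1 : 1 ≤ Real.log n) :
    (Nat.log 2 n : ℝ) + 2 ≤ 4 * Real.log n := by
  have h2 : (Nat.log 2 n : ℝ) * Real.log 2 ≤ Real.log n := by
    have h3 : (2 : ℝ) ^ (Nat.log 2 n) ≤ n := by
      have h4 : n ≠ 0 := by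
        rintro rfl
        norm_num at hn
      have h5 := Nat.pow_log_le_self 2 h4
      exact_mod_cast h5
    have h6 := Real.log_le_log (by positivity) h3
    rwa [Real.log_pow] at h6
  have h7 : (1 : ℝ) / 2 ≤ Real.log 2 := by
    have := Real.log_two_gt_d9
    linarith
  have h8 : (0 : ℝ) ≤ (Nat.log 2 n : ℝ) := Nat.cast_nonneg _
  nlinarith

private theorem Big_exp {x t : ℝ} (hx : 3 ≤ x) (ht : 4 * Real.log x ≤ t) :
    2 * (x ^ 2 + 2) * Real.exp (-t) < 1 := by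
  have hx0 : (0 : ℝ) < x := by linarith
  have h1 : Real.exp (-t) ≤ Real.exp (-(4 * Real.log x)) := Real.exp_le_exp.2 (by linarith)
  have h2 : Real.exp (4 * Real.log x) = x ^ 4 := by
    rw [show 4 * Real.log x = Real.log x * 4 by ring, Real.exp_mul, Real.exp_log hx0]
    norm_cast
  rw [Real.exp_neg (4 * Real.log x), h2] at h1
  have h3 : (0 : ℝ) < x ^ 4 := by positivity
  have h4 : 2 * (x ^ 2 + 2) < x ^ 4 := by nlinarith [mul_self_nonneg (x ^ 2 - 3), sq_nonneg x]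
  calc 2 * (x ^ 2 + 2) * Real.exp (-t) ≤ 2 * (x ^ 2 + 2) * (x ^ 4)⁻¹ :=
        mul_le_mul_of_nonneg_left h1 (by positivity)
    _ < x ^ 4 * (x ^ 4)⁻¹ := mul_lt_mul_of_pos_right h4 (by positivity)
    _ = 1 := mul_inv_cancel₀ h3.ne'

/-- the algebra -/
private theorem Big_alg {n : ℕ} {U C δ l : ℝ} (hC : 0 < C) (hn : (3 : ℝ) ≤ n) (hl : l = Real.log n)
    (hl1 : 1 ≤ l) (hU1 : (n : ℝ) ^ (1 + δ) ≤ U) (hU2 : U ≤ C * (n : ℝ) ^ (73 / 50 : ℝ))
    (e1 : 96 * 536870912 * l ^ 3 ≤ (n : ℝ) ^ δ)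
    (e2 : 256 * 536870912 * √C * l ^ 3 ≤ (n : ℝ) ^ (1 / 50 : ℝ)) :
    4 * l ≤ n * (2 * U) / (8388608 * VB n (2 * U)) := by
  have hn0 : (0 : ℝ) < n := by linarith
  have hU0 : 0 < U := lt_of_lt_of_le (Real.rpow_pos_of_pos hn0 _) hU1
  have hs1 : (n : ℝ) * (n : ℝ) ^ δ ≤ U := by
    rw [Real.rpow_add hn0, Real.rpow_one] at hU1
    exact hU1
  -- the two roots
  have hr : √(2 * √(n : ℝ)) * √(2 * U) ≤ 2 * √C * (n : ℝ) ^ (49 / 50 : ℝ) := by
    rw [← Real.sqrt_mul (by positivity)]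
    apply Real.sqrt_le_iff.2
    refine ⟨by positivity, ?_⟩
    have h1 : (2 * √C * (n : ℝ) ^ (49 / 50 : ℝ)) ^ 2 = 4 * (C * ((n : ℝ) ^ (1 / 2 : ℝ) * (n : ℝ) ^ (73 / 50 : ℝ))) := by
      rw [← Real.rpow_add hn0, mul_pow, mul_pow, Real.sq_sqrt hC.le, ← Real.rpow_natCast ((n : ℝ) ^ (49 / 50 : ℝ)) 2,
        ← Real.rpow_mul hn0.le]
      norm_num
      ring
    rw [h1, Real.sqrt_eq_rpow]
    have h2 : (n : ℝ) ^ (1 / 2 : ℝ) * U ≤ (n : ℝ) ^ (1 / 2 : ℝ) * (C * (n : ℝ) ^ (73 / 50 : ℝ)) :=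
      mul_le_mul_of_nonneg_left hU2 (by positivity)
    nlinarith
  have hV : VB n (2 * U) ≤ (4 * l) ^ 2 * (96 * (n : ℝ) ^ 2 + 64 * (√(2 * √(n : ℝ)) * √(2 * U)) * (2 * U)) := by
    unfold VB
    have h3 : ((Nat.log 2 n : ℝ) + 2) ^ 2 ≤ (4 * l) ^ 2 := by
      apply pow_le_pow_left₀ (by positivity)
      rw [hl]
      rw [hl] at hl1
      exact Big_log hn hl1
    have h4 : 96 * (n : ℝ) ^ 2 + 64 * √(2 * √(n : ℝ)) * (2 * U * √(2 * U)) =
        96 * (n : ℝ) ^ 2 + 64 * (√(2 * √(n : ℝ)) * √(2 * U)) * (2 * U) := by ring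
    rw [h4]
    exact mul_le_mul_of_nonneg_right h3 (by positivity)
  have hV0 : 0 < VB n (2 * U) := by
    unfold VB
    positivity
  have hQ : (n : ℝ) ^ (49 / 50 : ℝ) * (n : ℝ) ^ (1 / 50 : ℝ) = n := by
    rw [← Real.rpow_add hn0]
    norm_num
  rw [le_div_iff₀ (by positivity)]
  -- first term
  have t1 : 96 * 536870912 * l ^ 3 * (n : ℝ) ^ 2 ≤ n * U := by
    calc 96 * 536870912 * l ^ 3 * (n : ℝ) ^ 2 ≤ (n : ℝ) ^ δ * (n : ℝ) ^ 2 :=
          mul_le_mul_of_nonneg_right e1 (by positivity)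
      _ = n * (n * (n : ℝ) ^ δ) := by ring
      _ ≤ n * U := mul_le_mul_of_nonneg_left hs1 hn0.le
  -- second term
  have t2 : 536870912 * l ^ 3 * (64 * (√(2 * √(n : ℝ)) * √(2 * U)) * (2 * U)) ≤ n * U := by
    have h5 : 536870912 * l ^ 3 * (64 * (√(2 * √(n : ℝ)) * √(2 * U)) * 2) ≤ n := by
      calc 536870912 * l ^ 3 * (64 * (√(2 * √(n : ℝ)) * √(2 * U)) * 2)
          ≤ 536870912 * l ^ 3 * (64 * (2 * √C * (n : ℝ) ^ (49 / 50 : ℝ)) * 2) := by
            apply mul_le_mul_of_nonneg_left _ (by positivity)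
            linarith
        _ = (n : ℝ) ^ (49 / 50 : ℝ) * (256 * 536870912 * √C * l ^ 3) := by ring
        _ ≤ (n : ℝ) ^ (49 / 50 : ℝ) * (n : ℝ) ^ (1 / 50 : ℝ) :=
            mul_le_mul_of_nonneg_left e2 (by positivity)
        _ = n := hQ
    calc 536870912 * l ^ 3 * (64 * (√(2 * √(n : ℝ)) * √(2 * U)) * (2 * U))
        = 536870912 * l ^ 3 * (64 * (√(2 * √(n : ℝ)) * √(2 * U)) * 2) * U := by ring
      _ ≤ n * U := mul_le_mul_of_nonneg_right h5 hU0.le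
  calc 4 * l * (8388608 * VB n (2 * U))
      ≤ 4 * l * (8388608 * ((4 * l) ^ 2 * (96 * (n : ℝ) ^ 2 + 64 * (√(2 * √(n : ℝ)) * √(2 * U)) * (2 * U)))) := by
        apply mul_le_mul_of_nonneg_left _ (by positivity)
        linarith
    _ = 96 * 536870912 * l ^ 3 * (n : ℝ) ^ 2 + 536870912 * l ^ 3 * (64 * (√(2 * √(n : ℝ)) * √(2 * U)) * (2 * U)) := by
        ring
    _ ≤ n * U + n * U := add_le_add t1 t2
    _ = n * (2 * U) := by ring

theorem thm_Big : St_Big := by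
  rintro hB ⟨δ, hδ, n₀, hlow⟩ ⟨C, hC, hup⟩
  have e1 := (isLittleO_log_rpow_rpow_atTop 3 hδ).def (c := 1 / (96 * 536870912)) (by positivity)
  have e2 := (isLittleO_log_rpow_rpow_atTop 3 (by norm_num : (0 : ℝ) < 1 / 50)).def
    (c := 1 / (256 * 536870912 * √C)) (by positivity)
  have e3 := (isLittleO_log_rpow_atTop hδ).def (c := 1 / (4 * 50331648)) (by positivity)
  have e4 := (tendsto_rpow_atTop hδ).eventually_ge_atTop 2048
  have e5 := Filter.eventually_ge_atTop (3 : ℝ)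
  have ev := tendsto_natCast_atTop_atTop.eventually (e1.and (e2.and (e3.and (e4.and e5))))
  obtain ⟨n₁, hn₁⟩ := Filter.eventually_atTop.1 ev
  refine ⟨max n₀ n₁, fun n hn => ?_⟩
  obtain ⟨h1, h2, h3, h4, h5⟩ := hn₁ n ((le_max_right _ _).trans hn)
  have hU1 := hlow n ((le_max_left _ _).trans hn)
  have hU2 := hup n
  have hn0 : (0 : ℝ) < n := by linarith
  have hl1 : 1 ≤ Real.log n := by
    rw [Real.le_log_iff_exp_le hn0]
    have := Real.exp_one_lt_d9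
    linarith
  have hl0 : 0 ≤ Real.log n := by linarith
  rw [Real.norm_eq_abs, Real.norm_eq_abs, abs_of_nonneg (Real.rpow_nonneg hl0 _),
    abs_of_nonneg (Real.rpow_nonneg hn0.le _)] at h1 h2
  rw [Real.norm_eq_abs, Real.norm_eq_abs, abs_of_nonneg hl0, abs_of_nonneg (Real.rpow_nonneg hn0.le _)] at h3
  have hc : (Real.log n) ^ (3 : ℝ) = (Real.log n) ^ 3 := by norm_cast
  rw [hc] at h1 h2
  have hsC : 0 < √C := Real.sqrt_pos.2 hC
  have f1 : 96 * 536870912 * (Real.log n) ^ 3 ≤ (n : ℝ) ^ δ := by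
    rw [one_div, ← div_eq_inv_mul, le_div_iff₀ (by norm_num)] at h1
    linarith
  have f2 : 256 * 536870912 * √C * (Real.log n) ^ 3 ≤ (n : ℝ) ^ (1 / 50 : ℝ) := by
    rw [one_div, ← div_eq_inv_mul, le_div_iff₀ (by positivity)] at h2
    linarith
  have f3 : 4 * 50331648 * Real.log n ≤ (n : ℝ) ^ δ := by
    rw [one_div, ← div_eq_inv_mul, le_div_iff₀ (by norm_num)] at h3
    linarith
  have g1 := Big_alg hC h5 rfl hl1 hU1 hU2 f1 f2
  have hs1 : (n : ℝ) * (n : ℝ) ^ δ ≤ u n := by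
    rw [Real.rpow_add hn0, Real.rpow_one] at hU1
    exact hU1
  have g2 : 4 * Real.log n ≤ (u n : ℝ) / (50331648 * n) := by
    rw [le_div_iff₀ (by positivity)]
    calc 4 * Real.log n * (50331648 * n) = n * (4 * 50331648 * Real.log n) := by ring
      _ ≤ n * (n : ℝ) ^ δ := mul_le_mul_of_nonneg_left f3 hn0.le
      _ ≤ u n := hs1
  have g3 : 2048 * n ≤ u n := by
    have : (2048 : ℝ) * n ≤ u n := by
      calc (2048 : ℝ) * n = n * 2048 := by ring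
        _ ≤ n * (n : ℝ) ^ δ := mul_le_mul_of_nonneg_left h4 hn0.le
        _ ≤ u n := hs1
    exact_mod_cast this
  have hn1 : 1 ≤ n := by
    have : (0 : ℝ) < n := hn0
    exact_mod_cast this
  have key := hB n 1 n hn1 le_rfl g3 ?_ ?_ (by omega)
  · rw [Nat.cast_one, one_mul] at key
    exact key
  · rw [Nat.cast_one, one_mul]
    exact Big_exp h5 g1
  · rw [Nat.cast_one, one_mul]
    exact Big_exp h5 g2

end Pool.Agent.GMU
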