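import Pool.Agent.GMU.St2

/-!
# GMU, part 2: the cell of a point in an arrangement of unit circles inside a vertical slab (St_Cel)
-/

set_option autoImplicit false

namespace Pool.Agent.GMU

open Finset Pool.Agent.Helper53.Generic Pool.Agent.Helper60.Gap

private lemma Cel_dist (z c : Plane) : dist z c = 1 ↔ (z 0 - c 0) ^ 2 + (z 1 - c 1) ^ 2 = 1 := by
  rw [EuclideanSpace.dist_eq, Fin.sum_univ_two, Real.dist_eq, Real.dist_eq, sq_abs, sq_abs,
    Real.sqrt_eq_one]

private lemma Cel_arc_cont (b : Plane) (s : Bool) : Continuous (arc b s) := by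
  unfold arc
  fun_prop

private lemma Cel_arc_mem (b : Plane) (s : Bool) (t : ℝ) (h1 : b 0 - 1 ≤ t) (h2 : t ≤ b 0 + 1) :
    (t - b 0) ^ 2 + (arc b s t - b 1) ^ 2 = 1 := by
  have h0 : 0 ≤ 1 - (t - b 0) ^ 2 := by nlinarith
  have h3 := Real.sq_sqrt h0
  unfold arc
  rcases s with _ | _
  · have e : (b 1 + (if false = true then (1 : ℝ) else -1) * √(1 - (t - b 0) ^ 2) - b 1) ^ 2 =
        √(1 - (t - b 0) ^ 2) ^ 2 := by
      rw [if_neg (by decide)]
      ring
    rw [e, h3]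
    ring
  · have e : (b 1 + (if true = true then (1 : ℝ) else -1) * √(1 - (t - b 0) ^ 2) - b 1) ^ 2 =
        √(1 - (t - b 0) ^ 2) ^ 2 := by
      rw [if_pos rfl]
      ring
    rw [e, h3]
    ring

private lemma Cel_pt (t v : ℝ) : ∃ z : Plane, z 0 = t ∧ z 1 = v :=
  ⟨!₂[t, v], rfl, rfl⟩

private lemma Cel_on (b z : Plane) (h : dist z b = 1) : ∃ s : Bool, z 1 = arc b s (z 0) := by
  rw [Cel_dist] at h
  have h1 : (z 1 - b 1) ^ 2 = 1 - (z 0 - b 0) ^ 2 := by linarith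
  have h2 : |z 1 - b 1| = √(1 - (z 0 - b 0) ^ 2) := by
    rw [← h1, Real.sqrt_sq_eq_abs]
  rcases le_total 0 (z 1 - b 1) with h3 | h3
  · refine ⟨true, ?_⟩
    rw [abs_of_nonneg h3] at h2
    unfold arc
    rw [← h2, if_pos rfl]
    ring
  · refine ⟨false, ?_⟩
    rw [abs_of_nonpos h3] at h2
    unfold arc
    rw [← h2, if_neg (by decide)]
    ring

private lemma Cel_ne (b : Plane) (t : ℝ) (h1 : b 0 - 1 < t) (h2 : t < b 0 + 1) :
    arc b true t ≠ arc b false t := by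
  have h0 : 0 < 1 - (t - b 0) ^ 2 := by nlinarith
  have h3 := Real.sqrt_pos.2 h0
  unfold arc
  rw [if_pos rfl, if_neg (by decide)]
  intro h
  linarith

theorem thm_Cel : St_Cel := by
  classical
  intro n x hx R l h hEnd hCross p hp1 hp2 hp
  set A : Finset (Fin n × Bool) :=
    ((R.filter fun b => x b 0 - 1 < l ∧ h < x b 0 + 1) ×ˢ (Finset.univ : Finset Bool)) with hA
  have hmem : ∀ g : Fin n × Bool, g ∈ A ↔ g.1 ∈ R ∧ x g.1 0 - 1 < l ∧ h < x g.1 0 + 1 := by
    intro g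
    rw [hA, Finset.mem_product, Finset.mem_filter]
    exact ⟨fun hh => hh.1, fun hh => ⟨hh, Finset.mem_univ _⟩⟩
  -- the value of an arc
  let val : Fin n × Bool → ℝ → ℝ := fun g t => arc (x g.1) g.2 t
  -- different arcs have different values
  have hne : ∀ g ∈ A, ∀ g' ∈ A, g ≠ g' → ∀ t, l ≤ t → t ≤ h → val g t ≠ val g' t := by
    rintro ⟨b, s⟩ hg ⟨b', s'⟩ hg' hgg t ht1 ht2 he
    obtain ⟨hb, hb1, hb2⟩ := (hmem _).1 hg
    obtain ⟨hb', hb1', hb2'⟩ := (hmem _).1 hg'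
    simp only at hb hb1 hb2 hb' hb1' hb2'
    have he' : arc (x b) s t = arc (x b') s' t := he
    by_cases hbb : b = b'
    · subst hbb
      have hss : s ≠ s' := fun h3 => hgg (by rw [h3])
      have h4 := Cel_ne (x b) t (by linarith) (by linarith)
      rcases s with _ | _ <;> rcases s' with _ | _
      · exact hss rfl
      · exact h4 he'.symm
      · exact h4 he'
      · exact hss rfl
    · obtain ⟨z, hz0, hz1⟩ := Cel_pt t (arc (x b) s t)
      have h5 : dist z (x b) = 1 := by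
        rw [Cel_dist, hz0, hz1]
        exact Cel_arc_mem _ _ _ (by linarith) (by linarith)
      have h6 : dist z (x b') = 1 := by
        rw [Cel_dist, hz0, hz1, he']
        exact Cel_arc_mem _ _ _ (by linarith) (by linarith)
      rcases hCross b hb b' hb' hbb z h5 h6 with h7 | h7
      · rw [hz0] at h7
        linarith
      · rw [hz0] at h7
        linarith
  -- the order of arcs is constant
  have hord : ∀ g ∈ A, ∀ g' ∈ A, ∀ t t', l ≤ t → t ≤ h → l ≤ t' → t' ≤ h →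
      val g t < val g' t → val g t' < val g' t' := by
    intro g hg g' hg' t t' ht1 ht2 ht1' ht2' hlt
    by_contra hcon
    have hgg : g ≠ g' := by
      intro h3
      rw [h3] at hlt
      exact lt_irrefl _ hlt
    obtain ⟨s, hs, hse⟩ := (isPreconnected_Icc (a := l) (b := h)).intermediate_value₂
      (show t ∈ Set.Icc l h from ⟨ht1, ht2⟩) (show t' ∈ Set.Icc l h from ⟨ht1', ht2'⟩)
      (f := val g) (g := val g') (Cel_arc_cont _ _).continuousOn (Cel_arc_cont _ _).continuousOn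
      hlt.le (not_lt.1 hcon)
    exact hne g hg g' hg' hgg s hs.1 hs.2 hse
  -- the arcs do not pass through p
  have hpv : ∀ g ∈ A, val g (p 0) ≠ p 1 := by
    rintro ⟨b, s⟩ hg he
    obtain ⟨hb, hb1, hb2⟩ := (hmem _).1 hg
    simp only at hb hb1 hb2
    have he' : arc (x b) s (p 0) = p 1 := he
    apply hp b hb
    rw [Cel_dist, ← he']
    exact Cel_arc_mem _ _ _ (by linarith) (by linarith)
  -- the upper arc
  have hτ : ∃ τ : Option (Fin n × Bool), (∀ g, τ = some g → g ∈ A ∧ p 1 < val g (p 0)) ∧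
      ∀ g ∈ A, p 1 < val g (p 0) → ∃ g0, τ = some g0 ∧ val g0 (p 0) ≤ val g (p 0) := by
    by_cases hn : (A.filter fun g => p 1 < val g (p 0)).Nonempty
    · obtain ⟨g0, hg0, hmin⟩ := Finset.exists_min_image _ (fun g => val g (p 0)) hn
      rw [Finset.mem_filter] at hg0
      refine ⟨some g0, ?_, ?_⟩
      · intro g hg
        rw [← Option.some.inj hg]
        exact hg0
      · intro g hg hlt
        exact ⟨g0, rfl, hmin g (Finset.mem_filter.2 ⟨hg, hlt⟩)⟩
    · refine ⟨none, ?_, ?_⟩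
      · intro g hg
        exact absurd hg (by simp)
      · intro g hg hlt
        exact absurd ⟨g, Finset.mem_filter.2 ⟨hg, hlt⟩⟩ hn
  have hβ : ∃ β : Option (Fin n × Bool), (∀ g, β = some g → g ∈ A ∧ val g (p 0) < p 1) ∧
      ∀ g ∈ A, val g (p 0) < p 1 → ∃ g0, β = some g0 ∧ val g (p 0) ≤ val g0 (p 0) := by
    by_cases hn : (A.filter fun g => val g (p 0) < p 1).Nonempty
    · obtain ⟨g0, hg0, hmax⟩ := Finset.exists_max_image _ (fun g => val g (p 0)) hn
      rw [Finset.mem_filter] at hg0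
      refine ⟨some g0, ?_, ?_⟩
      · intro g hg
        rw [← Option.some.inj hg]
        exact hg0
      · intro g hg hlt
        exact ⟨g0, rfl, hmax g (Finset.mem_filter.2 ⟨hg, hlt⟩)⟩
    · refine ⟨none, ?_, ?_⟩
      · intro g hg
        exact absurd hg (by simp)
      · intro g hg hlt
        exact absurd ⟨g, Finset.mem_filter.2 ⟨hg, hlt⟩⟩ hn
  obtain ⟨τ, hτ1, hτ2⟩ := hτ
  obtain ⟨β, hβ1, hβ2⟩ := hβ
  refine ⟨β, τ, fun b s hb => ((hmem _).1 (hβ1 _ hb).1).1, fun b s hb => ((hmem _).1 (hτ1 _ hb).1).1,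
    ⟨⟨hp1, hp2⟩, fun b s hb => (hβ1 _ hb).2, fun b s hb => (hτ1 _ hb).2⟩, ?_⟩
  rintro b hb z hz ⟨⟨hz1, hz2⟩, hzβ, hzτ⟩
  obtain ⟨s, hs⟩ := Cel_on (x b) z hz
  have hz' := (Cel_dist _ _).1 hz
  have h1 : x b 0 - 1 ≤ z 0 := by nlinarith [sq_nonneg (z 1 - x b 1)]
  have h2 : z 0 ≤ x b 0 + 1 := by nlinarith [sq_nonneg (z 1 - x b 1)]
  have hgA : ((b, s) : Fin n × Bool) ∈ A := by
    rw [hmem]
    obtain ⟨h3, h4⟩ := hEnd b hb
    refine ⟨hb, ?_, ?_⟩
    · rcases h3 with h3 | h3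
      · exact h3
      · exfalso
        linarith
    · rcases h4 with h4 | h4
      · exfalso
        linarith
      · exact h4
  have hsv : val (b, s) (z 0) = z 1 := hs.symm
  rcases lt_or_gt_of_ne (hpv _ hgA) with h5 | h5
  · obtain ⟨g0, hg0, hle⟩ := hβ2 _ hgA h5
    have h6 : val g0 (z 0) < z 1 := hzβ g0.1 g0.2 hg0
    rw [← hsv] at h6
    have h7 := hord g0 (hβ1 _ hg0).1 _ hgA (z 0) (p 0) hz1 hz2 hp1 hp2 h6
    exact absurd h7 (not_lt.2 hle)
  · obtain ⟨g0, hg0, hle⟩ := hτ2 _ hgA h5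
    have h6 : z 1 < val g0 (z 0) := hzτ g0.1 g0.2 hg0
    rw [← hsv] at h6
    have h7 := hord _ hgA g0 (hτ1 _ hg0).1 (z 0) (p 0) hz1 hz2 hp1 hp2 h6
    exact absurd h7 (not_lt.2 hle)

end Pool.Agent.GMU
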