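import Pool.Agent.GMU.St2

/-!
# GMU/FiB: all ranks, without the logarithm (helper75, after Fin.lean of helper85)
-/

set_option autoImplicit false

namespace Pool.Agent.GMU

open Finset Pool.Agent.Helper53.Generic Pool.Agent.Helper60.Gap

private theorem FiB_pow (r : ℕ) (hr : 1 ≤ r) : 0 < (r : ℝ) ^ (3 / 2 : ℝ) ∧ ((r : ℝ) ^ (3 / 2 : ℝ)) ^ 2 = (r : ℝ) ^ 3 := by
  have h0 : (0 : ℝ) < r := by exact_mod_cast hr
  refine ⟨Real.rpow_pos_of_pos h0 _, ?_⟩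
  rw [← Real.rpow_natCast, ← Real.rpow_mul h0.le, ← Real.rpow_natCast]
  norm_num

/-- the comparison of the square roots -/
private theorem FiB_sqrt (r : ℕ) (hr : 1 ≤ r) (X Y : ℝ) (hY : 0 ≤ Y) (h : X ≤ 16 * (r : ℝ) ^ 3 * Y) :
    √X / (r : ℝ) ^ (3 / 2 : ℝ) ≤ 4 * √Y := by
  obtain ⟨h0, h2⟩ := FiB_pow r hr
  rw [div_le_iff₀ h0]
  refine Real.sqrt_le_iff.mpr ⟨by positivity, ?_⟩
  calc X ≤ 16 * (r : ℝ) ^ 3 * Y := h
    _ = 16 * ((r : ℝ) ^ (3 / 2 : ℝ)) ^ 2 * (√Y) ^ 2 := by rw [h2, Real.sq_sqrt hY]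
    _ = (4 * √Y * (r : ℝ) ^ (3 / 2 : ℝ)) ^ 2 := by ring

theorem thm_FiB : St_FiB := by
  intro hUsp hRank hOne
  obtain ⟨hR1, hR2⟩ := hRank hUsp
  obtain ⟨c₁, hc₁, h1⟩ := hOne
  obtain ⟨hU1, -, -, hU4⟩ := hUsp
  refine ⟨min (c₁ / 8) (1 / 4), lt_min (by linarith) (by norm_num), ?_⟩
  intro n r hr hrn
  refine ⟨?_, hR1 r n hr⟩
  have hn2 : 2 ≤ n := by omega
  have hn2' : (2 : ℝ) ≤ n := by exact_mod_cast hn2
  have hr' : (1 : ℝ) ≤ r := by exact_mod_cast hr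
  -- `M r n` is at least `1`
  have hM1 : 1 ≤ M r n := by
    have h2 : 2 * r ≤ n * (n - 1) := Nat.mul_le_mul hn2 (by omega)
    have h3 := lower_all n r hn2 hr h2
    have h4 : (0 : ℝ) < min (n : ℝ) ((n : ℝ) ^ 2 / r) / 1000 := by
      have : (0 : ℝ) < min (n : ℝ) ((n : ℝ) ^ 2 / r) := lt_min (by linarith) (by positivity)
      linarith
    have h5 : (0 : ℝ) < M r n := lt_of_lt_of_le h4 h3
    exact_mod_cast h5
  have hM1' : (1 : ℝ) ≤ M r n := by exact_mod_cast hM1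
  have hu0 : (0 : ℝ) ≤ u n := Nat.cast_nonneg _
  obtain ⟨m, hm⟩ : ∃ m, m = n / r := ⟨_, rfl⟩
  have hrm : r * m ≤ n := by
    rw [hm]
    exact Nat.mul_div_le n r
  have hnr : n < r * (m + 1) := by
    rw [hm]
    exact Nat.lt_mul_div_succ n (by omega)
  have hm1 : 1 ≤ m := by
    rcases Nat.eq_zero_or_pos m with h | h
    · rw [h] at hnr
      omega
    · exact h
  have hD : 0 ≤ √((n : ℝ) * u n) / (r : ℝ) ^ (3 / 2 : ℝ) := by
    have := (FiB_pow r hr).1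
    positivity
  rcases Nat.lt_or_ge m 2 with h2 | h2
  · -- `m = 1`
    have hm' : m = 1 := by omega
    rw [hm'] at hnr
    have hn' : (n : ℝ) ≤ 2 * r := by
      have : n ≤ 2 * r := by omega
      exact_mod_cast this
    have hu : (u n : ℝ) ≤ (n : ℝ) ^ 2 := by
      obtain ⟨A, hA, hf⟩ := hU1 n
      have h3 := f_le A 1
      rw [hf, hA] at h3
      have h4 : ((u n : ℕ) : ℝ) ≤ ((n * n : ℕ) : ℝ) := by exact_mod_cast h3
      push_cast at h4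
      nlinarith
    have hle : (n : ℝ) * u n ≤ 16 * (r : ℝ) ^ 3 * 1 := by
      have h3 : (n : ℝ) * u n ≤ (n : ℝ) ^ 3 := by nlinarith
      have h4 : (n : ℝ) ^ 3 ≤ (2 * (r : ℝ)) ^ 3 := pow_le_pow_left₀ (by linarith) hn' 3
      have h5 : (2 * (r : ℝ)) ^ 3 = 8 * (r : ℝ) ^ 3 := by ring
      have h6 : (0 : ℝ) < (r : ℝ) ^ 3 := by positivity
      nlinarith
    have h3 := FiB_sqrt r hr _ 1 zero_le_one hle
    rw [Real.sqrt_one, mul_one] at h3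
    calc min (c₁ / 8) (1 / 4) * √((n : ℝ) * u n) / (r : ℝ) ^ (3 / 2 : ℝ)
        = min (c₁ / 8) (1 / 4) * (√((n : ℝ) * u n) / (r : ℝ) ^ (3 / 2 : ℝ)) := by rw [mul_div_assoc]
      _ ≤ 1 / 4 * (√((n : ℝ) * u n) / (r : ℝ) ^ (3 / 2 : ℝ)) := mul_le_mul_of_nonneg_right (min_le_right _ _) hD
      _ ≤ 1 / 4 * 4 := by linarith
      _ ≤ M r n := by linarith
  · -- `m ≥ 2`
    have hmn : m ≤ n := by
      refine le_trans ?_ hrm
      exact Nat.le_mul_of_pos_left m (by omega)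
    have h2' : (2 : ℝ) ≤ m := by exact_mod_cast h2
    have hmn' : (m : ℝ) ≤ n := by exact_mod_cast hmn
    have hum0 : (0 : ℝ) ≤ u m := Nat.cast_nonneg _
    have hA : (m : ℝ) ^ 2 * u n ≤ 2 * (n : ℝ) ^ 2 * u m := by
      have h3 := hU4 n m hmn
      have h4 : ((m * (m - 1) * u n : ℕ) : ℝ) ≤ ((n * (n - 1) * u m : ℕ) : ℝ) := by exact_mod_cast h3
      rw [Nat.cast_mul, Nat.cast_mul, Nat.cast_mul, Nat.cast_mul, Nat.cast_sub (by omega), Nat.cast_sub (by omega), Nat.cast_one] at h4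
      have h5 : (m : ℝ) ^ 2 * u n ≤ 2 * ((m : ℝ) * (m - 1) * u n) := by
        have h6 : (m : ℝ) ^ 2 ≤ 2 * ((m : ℝ) * (m - 1)) := by nlinarith
        calc (m : ℝ) ^ 2 * u n ≤ (2 * ((m : ℝ) * (m - 1))) * u n := mul_le_mul_of_nonneg_right h6 hu0
          _ = 2 * ((m : ℝ) * (m - 1) * u n) := by ring
      have h7 : (n : ℝ) * (n - 1) * u m ≤ (n : ℝ) ^ 2 * u m := by
        refine mul_le_mul_of_nonneg_right ?_ hum0
        nlinarith
      linarith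
    have hB : (n : ℝ) ≤ 2 * (r * m) := by
      have h3 : n ≤ 2 * (r * m) := by nlinarith
      exact_mod_cast h3
    have hC : (n : ℝ) * u n ≤ 16 * (r : ℝ) ^ 3 * (m * u m) := by
      have hn0 : (0 : ℝ) < (n : ℝ) ^ 2 := by positivity
      have h3 : (n : ℝ) ^ 3 ≤ (2 * ((r : ℝ) * m)) ^ 3 := pow_le_pow_left₀ (by linarith) hB 3
      have h4 : (n : ℝ) ^ 2 * ((n : ℝ) * u n) ≤ (n : ℝ) ^ 2 * (16 * (r : ℝ) ^ 3 * (m * u m)) := by
        calc (n : ℝ) ^ 2 * ((n : ℝ) * u n) = (n : ℝ) ^ 3 * u n := by ring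
          _ ≤ (2 * ((r : ℝ) * m)) ^ 3 * u n := mul_le_mul_of_nonneg_right h3 hu0
          _ = 8 * (r : ℝ) ^ 3 * m * ((m : ℝ) ^ 2 * u n) := by ring
          _ ≤ 8 * (r : ℝ) ^ 3 * m * (2 * (n : ℝ) ^ 2 * u m) := mul_le_mul_of_nonneg_left hA (by positivity)
          _ = (n : ℝ) ^ 2 * (16 * (r : ℝ) ^ 3 * (m * u m)) := by ring
      exact le_of_mul_le_mul_left h4 hn0
    have h3 := FiB_sqrt r hr _ _ (by positivity) hC
    have h4 := h1 m h2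
    have h5 : (M 1 m : ℝ) ≤ 2 * M r n := by
      have h6 := hR2 r m n hr hm1 hrm
      have h7 : M 1 m ≤ 2 * M r n := by omega
      exact_mod_cast h7
    calc min (c₁ / 8) (1 / 4) * √((n : ℝ) * u n) / (r : ℝ) ^ (3 / 2 : ℝ)
        = min (c₁ / 8) (1 / 4) * (√((n : ℝ) * u n) / (r : ℝ) ^ (3 / 2 : ℝ)) := by rw [mul_div_assoc]
      _ ≤ c₁ / 8 * (√((n : ℝ) * u n) / (r : ℝ) ^ (3 / 2 : ℝ)) := mul_le_mul_of_nonneg_right (min_le_left _ _) hD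
      _ ≤ c₁ / 8 * (4 * √((m : ℝ) * u m)) := mul_le_mul_of_nonneg_left h3 (by linarith)
      _ = c₁ * √((m : ℝ) * u m) / 2 := by ring
      _ ≤ M r n := by linarith

end Pool.Agent.GMU
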