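import Pool.Agent.GMU.St2

set_option autoImplicit false

/-! GMU part 2: hitting sets (greedy choice). -/

namespace Pool.Agent.GMU

open Finset Pool.Agent.Helper53.Generic Pool.Agent.Helper60.Gap

theorem thm_Hit : St_Hit := by
  intro n r
  induction r with
  | zero =>
    intro F m hn hm hF h
    have h1 : (F.card : ℝ) < 1 := by simpa using h
    have h2 : F.card < 1 := by exact_mod_cast h1
    have h3 : F = ∅ := Finset.card_eq_zero.1 (by omega)
    exact ⟨∅, by simp, fun S hS => by rw [h3] at hS; simp at hS⟩
  | succ r ih =>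
    intro F m hn hm hF h
    have hn' : (0 : ℝ) < n := by exact_mod_cast hn
    obtain ⟨b, hb⟩ : ∃ b : Fin n, m * F.card / n ≤ ((F.filter fun S => b ∈ S).card : ℝ) := by
      by_contra hc
      push Not at hc
      have h1 : ∑ b : Fin n, ((F.filter fun S => b ∈ S).card : ℝ) <
          ∑ b : Fin n, m * F.card / n :=
        Finset.sum_lt_sum_of_nonempty ⟨⟨0, hn⟩, Finset.mem_univ _⟩ fun b _ => hc b
      have h2 : ∑ b : Fin n, ((F.filter fun S => b ∈ S).card : ℝ) = ∑ S ∈ F, (S.card : ℝ) := by
        simp_rw [Finset.card_filter]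
        push_cast
        rw [Finset.sum_comm]
        refine Finset.sum_congr rfl fun S _ => ?_
        simp
      have h3 : m * F.card ≤ ∑ S ∈ F, (S.card : ℝ) := by
        calc m * F.card = ∑ S ∈ F, m := by rw [Finset.sum_const, nsmul_eq_mul, mul_comm]
          _ ≤ _ := Finset.sum_le_sum hF
      have h4 : ∑ b : Fin n, m * F.card / n = m * F.card := by
        rw [Finset.sum_const, Finset.card_univ, Fintype.card_fin, nsmul_eq_mul]
        field_simp
      rw [h2, h4] at h1
      linarith
    have hsum : ((F.filter fun S => b ∈ S).card : ℝ) + (F.filter fun S => ¬ b ∈ S).card =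
        F.card := by
      exact_mod_cast Finset.card_filter_add_card_filter_not (s := F) (fun S => b ∈ S)
    have hexp : 1 - m / n ≤ Real.exp (-(m / n)) := by
      have := Real.add_one_le_exp (-(m / n))
      linarith
    have h4 : ((F.filter fun S => ¬ b ∈ S).card : ℝ) ≤ F.card * Real.exp (-(m / n)) := by
      have h5 : ((F.filter fun S => ¬ b ∈ S).card : ℝ) ≤ F.card * (1 - m / n) := by
        have : m * F.card / n = F.card * (m / n) := by ring
        rw [this] at hb
        linarith
      exact h5.trans (mul_le_mul_of_nonneg_left hexp (Nat.cast_nonneg _))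
    obtain ⟨R, hR, hR'⟩ := ih (F.filter fun S => ¬ b ∈ S) m hn hm
      (fun S hS => hF S (Finset.mem_filter.1 hS).1) (by
        calc ((F.filter fun S => ¬ b ∈ S).card : ℝ) * Real.exp (-((r : ℝ) * m / n))
            ≤ F.card * Real.exp (-(m / n)) * Real.exp (-((r : ℝ) * m / n)) :=
              mul_le_mul_of_nonneg_right h4 (Real.exp_pos _).le
          _ = F.card * Real.exp (-(((r + 1 : ℕ) : ℝ) * m / n)) := by
              rw [mul_assoc, ← Real.exp_add]
              congr 2
              push_cast
              ring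
          _ < 1 := h)
    refine ⟨insert b R, (Finset.card_insert_le _ _).trans (by omega), fun S hS => ?_⟩
    by_cases hb' : b ∈ S
    · exact ⟨b, hb', Finset.mem_insert_self _ _⟩
    · obtain ⟨c, hc, hc'⟩ := hR' S (Finset.mem_filter.2 ⟨hS, hb'⟩)
      exact ⟨c, hc, Finset.mem_insert_of_mem hc'⟩

end Pool.Agent.GMU
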