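import Pool.Agent.GMU.St2

/-! GMU, part 2: rich centres. -/

set_option autoImplicit false

namespace Pool.Agent.GMU

open Finset Pool.Agent.Helper53.Generic Pool.Agent.Helper60.Gap

/-- **Inc** -/
theorem thm_Inc : St_Inc := by
  classical
  intro n R A T h1 h2
  have e1 : ∑ c ∈ T, (A.filter fun a => (a, c) ∈ R).card =
      ∑ a ∈ A, (T.filter fun c => (a, c) ∈ R).card := by
    simp only [Finset.card_filter]
    exact Finset.sum_comm
  have e2 : ∑ a ∈ A, (T.filter fun c => (a, c) ∈ R).card ^ 2 =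
      ∑ c ∈ T, ∑ c' ∈ T, (A.filter fun a => (a, c) ∈ R ∧ (a, c') ∈ R).card := by
    have e3 : ∀ a ∈ A, (T.filter fun c => (a, c) ∈ R).card ^ 2 =
        ∑ c ∈ T, ∑ c' ∈ T, if (a, c) ∈ R ∧ (a, c') ∈ R then 1 else 0 := by
      intro a _
      rw [pow_two, Finset.card_filter, Finset.sum_mul_sum]
      refine Finset.sum_congr rfl fun c _ => Finset.sum_congr rfl fun c' _ => ?_
      by_cases hc : (a, c) ∈ R <;> by_cases hc' : (a, c') ∈ R <;> simp [hc, hc']
    rw [Finset.sum_congr rfl e3, Finset.sum_comm]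
    refine Finset.sum_congr rfl fun c _ => ?_
    rw [Finset.sum_comm]
    refine Finset.sum_congr rfl fun c' _ => ?_
    rw [Finset.card_filter]
  have e4 : ∑ c ∈ T, ∑ c' ∈ T, (A.filter fun a => (a, c) ∈ R ∧ (a, c') ∈ R).card ≤
      ∑ c ∈ T, (A.filter fun a => (a, c) ∈ R).card + 2 * T.card ^ 2 := by
    have e5 : ∀ c ∈ T, ∑ c' ∈ T, (A.filter fun a => (a, c) ∈ R ∧ (a, c') ∈ R).card ≤
        (A.filter fun a => (a, c) ∈ R).card + 2 * T.card := by
      intro c hc
      rw [← Finset.add_sum_erase T _ hc]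
      refine add_le_add (le_of_eq ?_) ?_
      · simp
      · calc ∑ c' ∈ T.erase c, (A.filter fun a => (a, c) ∈ R ∧ (a, c') ∈ R).card
            ≤ ∑ c' ∈ T.erase c, 2 :=
              Finset.sum_le_sum fun c' hc' => h1 c c' (Finset.ne_of_mem_erase hc').symm
          _ = (T.erase c).card * 2 := by rw [Finset.sum_const, smul_eq_mul]
          _ ≤ 2 * T.card := by
              have := Finset.card_erase_le (s := T) (a := c)
              omega
    calc _ ≤ ∑ c ∈ T, ((A.filter fun a => (a, c) ∈ R).card + 2 * T.card) := Finset.sum_le_sum e5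
      _ = _ := by
          rw [Finset.sum_add_distrib, Finset.sum_const, smul_eq_mul]
          ring
  have e6 : (∑ a ∈ A, (T.filter fun c => (a, c) ∈ R).card) ^ 2 ≤
      A.card * ∑ a ∈ A, (T.filter fun c => (a, c) ∈ R).card ^ 2 :=
    sq_sum_le_card_mul_sum_sq
  have e7 : (4 * A.card : ℝ) * (T.card : ℝ) ^ 2 ≤
      ((∑ c ∈ T, (A.filter fun a => (a, c) ∈ R).card : ℕ) : ℝ) ^ 2 := by
    have e8 : (T.card : ℝ) * √(4 * A.card : ℝ) ≤
        ((∑ c ∈ T, (A.filter fun a => (a, c) ∈ R).card : ℕ) : ℝ) := by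
      push_cast
      rw [← nsmul_eq_mul, ← Finset.sum_const]
      refine Finset.sum_le_sum fun c hc => ?_
      refine Real.sqrt_le_iff.2 ⟨by positivity, ?_⟩
      exact_mod_cast h2 c hc
    have e9 := pow_le_pow_left₀ (by positivity) e8 2
    rw [mul_pow, Real.sq_sqrt (by positivity)] at e9
    linarith
  have e8 : 4 * A.card * T.card ^ 2 ≤ (∑ c ∈ T, (A.filter fun a => (a, c) ∈ R).card) ^ 2 := by
    exact_mod_cast e7
  rw [← e1, e2] at e6
  set S := ∑ c ∈ T, (A.filter fun a => (a, c) ∈ R).card with hS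
  have e10 : S ^ 2 ≤ A.card * (S + 2 * T.card ^ 2) := e6.trans (Nat.mul_le_mul_left _ e4)
  by_contra hlt
  have hlt' : 2 * A.card < S := not_le.1 hlt
  have e11 : 2 * S ^ 2 ≤ 2 * A.card * S + S ^ 2 := by nlinarith
  have e12 : S ^ 2 ≤ 2 * A.card * S := by omega
  have e13 : 2 * A.card * S < S * S := Nat.mul_lt_mul_of_pos_right hlt' (by omega)
  rw [← pow_two] at e13
  omega

end Pool.Agent.GMU
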