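import Pool.Agent.GMU.St2

/-! GMU, part 2: incidences (helper78). -/

set_option autoImplicit false

namespace Pool.Agent.GMU

open Finset Pool.Agent.Helper53.Generic Pool.Agent.Helper60.Gap

private lemma KST_gen {n : ℕ} (R : Fin n → Fin n → Prop) [∀ a b, Decidable (R a b)] (P C : Finset (Fin n))
    (h1 : ∀ a a', a ≠ a' → (C.filter fun b => R a b ∧ R a' b).card ≤ 2) :
    (∑ b ∈ C, (P.filter fun a => R a b).card) ^ 2 ≤
      C.card * (∑ b ∈ C, (P.filter fun a => R a b).card + 2 * P.card ^ 2) := by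
  classical
  have e1 : ∑ b ∈ C, (P.filter fun a => R a b).card = ∑ a ∈ P, (C.filter fun b => R a b).card := by
    simp only [Finset.card_filter]
    exact Finset.sum_comm
  have e2 : ∑ b ∈ C, (P.filter fun a => R a b).card ^ 2 =
      ∑ a ∈ P, ∑ a' ∈ P, (C.filter fun b => R a b ∧ R a' b).card := by
    have e3 : ∀ b ∈ C, (P.filter fun a => R a b).card ^ 2 =
        ∑ a ∈ P, ∑ a' ∈ P, if R a b ∧ R a' b then 1 else 0 := by
      intro b _
      rw [pow_two, Finset.card_filter, Finset.sum_mul_sum]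
      refine Finset.sum_congr rfl fun c _ => Finset.sum_congr rfl fun c' _ => ?_
      by_cases hc : R c b <;> by_cases hc' : R c' b <;> simp [hc, hc']
    rw [Finset.sum_congr rfl e3, Finset.sum_comm]
    refine Finset.sum_congr rfl fun c _ => ?_
    rw [Finset.sum_comm]
    refine Finset.sum_congr rfl fun c' _ => ?_
    rw [Finset.card_filter]
  have e5 : ∀ a ∈ P, ∑ a' ∈ P, (C.filter fun b => R a b ∧ R a' b).card ≤
      (C.filter fun b => R a b).card + 2 * P.card := by
    intro c hc
    rw [← Finset.add_sum_erase P _ hc]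
    refine add_le_add (le_of_eq ?_) ?_
    · simp
    · calc ∑ c' ∈ P.erase c, (C.filter fun b => R c b ∧ R c' b).card
          ≤ ∑ c' ∈ P.erase c, 2 :=
            Finset.sum_le_sum fun c' hc' => h1 c c' (Finset.ne_of_mem_erase hc').symm
        _ = (P.erase c).card * 2 := by rw [Finset.sum_const, smul_eq_mul]
        _ ≤ 2 * P.card := by
            have := Finset.card_erase_le (s := P) (a := c)
            omega
  have e6 : (∑ b ∈ C, (P.filter fun a => R a b).card) ^ 2 ≤
      C.card * ∑ b ∈ C, (P.filter fun a => R a b).card ^ 2 := sq_sum_le_card_mul_sum_sq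
  refine e6.trans (Nat.mul_le_mul_left _ ?_)
  rw [e2]
  refine (Finset.sum_le_sum e5).trans (le_of_eq ?_)
  rw [Finset.sum_add_distrib, Finset.sum_const, smul_eq_mul, ← e1]
  ring

private lemma KST_real (I p c : ℝ) (hp : 0 ≤ p) (hc : 0 ≤ c) (h : I ^ 2 ≤ c * (I + 2 * p ^ 2)) :
    I ≤ √(2 * c) * p + c := by
  by_contra hlt
  push Not at hlt
  have h0 : 0 ≤ √(2 * c) * p := by positivity
  have h1 : √(2 * c) * p < I - c := by linarith
  have h2 : (√(2 * c) * p) ^ 2 < (I - c) ^ 2 := by
    exact pow_lt_pow_left₀ h1 h0 (by norm_num)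
  rw [mul_pow, Real.sq_sqrt (by positivity)] at h2
  nlinarith

/-- **KST** -/
theorem thm_KST : St_KST := by
  classical
  intro n x hx P C
  have key : ∀ a a', a ≠ a' → ∀ Q : Finset (Fin n),
      (Q.filter fun b => (b, a) ∈ Ed x 1 ∧ (b, a') ∈ Ed x 1).card ≤ 2 := by
    intro a a' haa Q
    refine le_trans (Finset.card_le_card ?_) (circle_two x 1 hx haa)
    intro b hb
    rw [Finset.mem_filter] at hb ⊢
    exact ⟨Finset.mem_univ _, hb.2⟩
  have sw : ∀ a b, ((a, b) ∈ Ed x 1) ↔ ((b, a) ∈ Ed x 1) := fun a b =>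
    ⟨fun h => Ed_swap x 1 h, fun h => Ed_swap x 1 h⟩
  have hc1 : ((Ed x 1).filter fun p => p.1 ∈ P ∧ p.2 ∈ C).card =
      ∑ b ∈ C, (P.filter fun a => (b, a) ∈ Ed x 1).card := by
    rw [Finset.card_eq_sum_card_fiberwise (f := fun p : Fin n × Fin n => p.2) (t := C)]
    · refine Finset.sum_congr rfl fun b hb => ?_
      refine Finset.card_bij' (fun p _ => p.1) (fun a _ => (a, b)) ?_ ?_ ?_ ?_
      · intro p hp
        simp only [Finset.mem_filter] at hp ⊢
        refine ⟨hp.1.2.1, ?_⟩
        rw [← hp.2]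
        exact (sw _ _).1 hp.1.1
      · intro a ha
        simp only [Finset.mem_filter] at ha ⊢
        exact ⟨⟨(sw _ _).1 ha.2, ha.1, hb⟩, trivial⟩
      · intro p hp
        simp only [Finset.mem_filter] at hp
        ext <;> simp [hp.2]
      · intro a _
        rfl
    · intro p hp
      simp only [Finset.coe_filter, Set.mem_ofPred_eq] at hp
      exact hp.2.2
  have hc2 : ((Ed x 1).filter fun p => p.1 ∈ P ∧ p.2 ∈ C).card =
      ∑ a ∈ P, (C.filter fun b => (a, b) ∈ Ed x 1).card := by
    rw [hc1]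
    simp only [Finset.card_filter]
    rw [Finset.sum_comm]
    refine Finset.sum_congr rfl fun a _ => Finset.sum_congr rfl fun b _ => ?_
    simp only [sw a b]
  constructor
  · have := KST_gen (fun a b => (b, a) ∈ Ed x 1) P C (fun a a' haa => key a a' haa C)
    rw [hc1]
    refine KST_real _ _ _ (by positivity) (by positivity) ?_
    exact_mod_cast this
  · have := KST_gen (fun b a => (a, b) ∈ Ed x 1) C P (fun a a' haa => key a a' haa P)
    rw [hc2]
    refine KST_real _ _ _ (by positivity) (by positivity) ?_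
    exact_mod_cast this

end Pool.Agent.GMU
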