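import Pool.Agent.GMU.St2
import Pool.Agent.RNK.All

/-! # GMU, module Low: `u n ≥ n^(1+δ)`, from the theorem of the hand-in AllRanks (MP_1cd194_co; helper42) -/

set_option autoImplicit false

namespace Pool.Agent.GMU

open Finset Pool.Agent.Helper53.Generic Pool.Agent.Helper60.Gap

theorem thm_Low : St_Low := by
  intro hU hR
  obtain ⟨δ, hδ, n₀, h⟩ := Pool.Agent.RNK.main (1 / 2) (by norm_num)
  refine ⟨δ, hδ, max n₀ 1, fun n hn => ?_⟩
  have hn0 : n₀ ≤ n := le_trans (le_max_left _ _) hn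
  have hn1 : 1 ≤ n := le_trans (le_max_right _ _) hn
  have h1 : (n : ℝ) ^ (1 + δ) ≤ (M 1 n : ℝ) := by
    refine h n hn0 1 le_rfl ?_
    rw [Nat.cast_one]
    refine Real.one_le_rpow (by exact_mod_cast hn1) (by norm_num)
  have h2 : ((M 1 n : ℕ) : ℝ) ≤ ((u n : ℕ) : ℝ) := by
    exact_mod_cast (hR hU).1 1 n le_rfl
  exact h1.trans h2

end Pool.Agent.GMU
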