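import Pool.Agent.GMU.St2

/-!
# GMU, part 2: rank one without the logarithm
-/

set_option autoImplicit false

namespace Pool.Agent.GMU

open Finset Pool.Agent.Helper53.Generic Pool.Agent.Helper60.Gap

theorem thm_OnB : St_OnB := by
  rintro ⟨hU1, -, -, -⟩ ⟨n₀, hn₀⟩
  have hc0 : (0 : ℝ) < 2048 * ((n₀ : ℝ) + 1) ^ 2 := by positivity
  refine ⟨1 / (2048 * ((n₀ : ℝ) + 1) ^ 2), by positivity, fun m hm => ?_⟩
  have hMp : 1 ≤ M 1 m := M_pos hm le_rfl (by
    have : 2 * 1 ≤ m * (m - 1) := Nat.mul_le_mul hm (by omega)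
    exact this)
  have hMp' : (1 : ℝ) ≤ M 1 m := by exact_mod_cast hMp
  have hn1 : (1 : ℝ) ≤ ((n₀ : ℝ) + 1) ^ 2 := by
    have : (0 : ℝ) ≤ n₀ := Nat.cast_nonneg _
    nlinarith
  rcases le_or_gt n₀ m with h | h
  · have h1 := hn₀ m h
    have h2 : √((m : ℝ) * u m) ≤ 2048 * M 1 m := by linarith
    rw [one_div_mul_eq_div, div_le_iff₀ hc0]
    have h3 : (0 : ℝ) ≤ M 1 m := by linarith
    nlinarith
  · have hum : u m ≤ m * m := by
      obtain ⟨A, hA, hf⟩ := hU1 m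
      have := f_le A 1
      rw [hA, hf] at this
      exact this
    have hum' : (u m : ℝ) ≤ m * m := by exact_mod_cast hum
    have hm' : (2 : ℝ) ≤ m := by exact_mod_cast hm
    have hmn : (m : ℝ) ≤ n₀ := by exact_mod_cast h.le
    have h1 : √((m : ℝ) * u m) ≤ (m : ℝ) ^ 2 := by
      rw [Real.sqrt_le_left (by positivity)]
      have h2 : (m : ℝ) * u m ≤ m * (m * m) := mul_le_mul_of_nonneg_left hum' (by linarith)
      have h3 : (m : ℝ) * (m * m) ≤ ((m : ℝ) ^ 2) ^ 2 := by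
        have h4 : (0 : ℝ) ≤ (m : ℝ) * (m * m) := by positivity
        nlinarith
      linarith
    have h5 : (m : ℝ) ^ 2 ≤ ((n₀ : ℝ) + 1) ^ 2 := by
      have : (m : ℝ) ≤ (n₀ : ℝ) + 1 := by linarith
      exact pow_le_pow_left₀ (by linarith) this 2
    rw [one_div_mul_eq_div, div_le_iff₀ hc0]
    nlinarith

end Pool.Agent.GMU
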