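import Pool.Agent.GMU.St

/-!
# GMU, part 2: without the logarithm (MP_1cd194_co; captain helper26)

Theorem: there is `c > 0` with `c (n u(n))^(1/2) / r^(3/2) ≤ M_r(n) ≤ u(n)` for `1 ≤ r < n`.

Two new ingredients: (1) a refined bound for the sum of the squares of the differences (`St_SB`), which for `n^(1+δ) ≤ u(n) ≤ n^(3/2-δ)` is smaller than `n u(n)` by a power of `n`, so that one copy (`k = 1`)
is enough for all distances; (2) a weak Szemeredi-Trotter bound `u(n) ≤ C n^(73/50)` (`St_STn`), by random circles and vertical slabs.  `u(n) ≥ n^(1+δ)` is contained in the hand-in AllRanks (`St_Low`).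

Every `St_X` is proved in `Pool/Agent/GMU/X.lean` (namespace `Pool.Agent.GMU`, import `Pool.Agent.GMU.St2`) as `theorem thm_X : St_X`.  Auxiliary lemmas private or with names starting with `X_`.
The hypotheses `St_Y →` are part of the statements.
-/

set_option autoImplicit false

namespace Pool.Agent.GMU

open Finset Pool.Agent.Helper53.Generic Pool.Agent.Helper60.Gap

/-- (Inc) Rich centres.  Proof.  `I c = #{a ∈ A : (a, c) ∈ R}`, `S = ∑_{c ∈ T} I c`, `g a = #{c ∈ T : (a, c) ∈ R}`.  `S² = (∑_{a ∈ A} g a)² ≤ |A| ∑_{a ∈ A} (g a)² = |A| ∑_{c, c' ∈ T} #{a ∈ A : (a, c), (a, c') ∈ R} ≤ |A| (S + 2 |T|²)`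
(`inner_mul_le_norm_mul_norm`/`sq_sum_le_card_mul_sum_sq`), and `4 |A| |T|² ≤ S²` (`I c ≥ √(4 |A|)` on `T`), so `S² ≤ |A| S + S² / 2`, `S ≤ 2 |A|`. -/
def St_Inc : Prop := ∀ {n : ℕ} (R : Finset (Fin n × Fin n)) (A T : Finset (Fin n)),
  (∀ c c', c ≠ c' → (A.filter fun a => (a, c) ∈ R ∧ (a, c') ∈ R).card ≤ 2) →
  (∀ c ∈ T, 4 * A.card ≤ (A.filter fun a => (a, c) ∈ R).card ^ 2) →
  ∑ c ∈ T, (A.filter fun a => (a, c) ∈ R).card ≤ 2 * A.card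

/-- (SB) The refined bound.  Write `D a = dg x d a`, `B c = ∑_{a ∈ W, (a, c) ∈ Ed x 1} D a`, `J = Nat.log 2 n`.
Proof.  `B c ≤ 3 n` (see `Var_B`, `Var_two`, `Var_dg` in Var.lean, private there: copy them).  `W₀ = {a ∈ W : 4 n ≤ D a ^ 2}`, `A_j = {a ∈ W : D a ≠ 0, D a ^ 2 < 4 n, Nat.log 2 (D a) = j}`, `j ≤ J` (`D a ≤ n`), so `2^j ≤ D a < 2^(j+1)` on `A_j`; `B c = B₀ c + ∑_{j ≤ J} B_j c` (`J + 2` terms), so
`B c ^ 2 ≤ (J + 2) (B₀ c ^ 2 + ∑_j B_j c ^ 2)`.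
(0) `St_Inc` with `R = Ed x d`, `A = univ`, `T = W₀` (`circle_two`): `∑_{a ∈ W₀} D a ≤ 2 n`.  `∑_c B₀ c ^ 2 ≤ 3 n ∑_c B₀ c = 3 n ∑_{a ∈ W₀} D a * dg x 1 a ≤ 3 n K 2 n = 6 n² K`.
(j) `I c = #{a ∈ A_j : (a, c) ∈ Ed x 1}`, `T_j = {c : 4 |A_j| ≤ I c ^ 2}`, `St_Inc` (`R = Ed x 1`): `∑_{T_j} I c ≤ 2 |A_j|`; `B_j c ≤ 3 n`, `B_j c ≤ 2^(j+1) I c`: `∑_{T_j} B_j c ^ 2 ≤ 3 n 2^(j+1) 2 |A_j| = 12 n 2^j |A_j| ≤ 12 n E` (`2^j |A_j| ≤ ∑_a D a = |Ed x d| ≤ E`, `sum_dg`).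
For `c ∉ T_j`: `I c ≤ 2 √|A_j|`, `B_j c ^ 2 ≤ 4^(j+1) 2 √|A_j| I c`, `∑_c I c = ∑_{a ∈ A_j} dg x 1 a ≤ K |A_j|`: in total `≤ 8 K 4^j |A_j| √|A_j| = 8 K √(2^j) (2^j |A_j|) √(2^j |A_j|) ≤ 8 K √(2 √n) E √E` (`2^j ≤ D a < 2 √n` if `A_j` is not empty).
Total: `(J + 2) (6 n² K + (J + 1) (12 n E + 8 K √(2 √n) E √E))`. -/
def St_SB : Prop := St_Inc → ∀ {n : ℕ} (x : Fin n → Plane), Function.Injective x →
  ∀ (W : Finset (Fin n)) (d K E : ℝ), 0 ≤ K → (∀ a ∈ W, (dg x 1 a : ℝ) ≤ K) → ((Ed x d).card : ℝ) ≤ E →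
  ∑ c, ((∑ a ∈ W.filter (fun a => (a, c) ∈ Ed x 1), dg x d a : ℕ) : ℝ) ^ 2 ≤
    ((Nat.log 2 n : ℝ) + 2) ^ 2 * (6 * (n : ℝ) ^ 2 * K + 12 * n * E + 8 * K * √(2 * √(n : ℝ)) * (E * √E))

/-- The bound for the variance. -/
noncomputable def VB (n : ℕ) (E : ℝ) : ℝ :=
  ((Nat.log 2 n : ℝ) + 2) ^ 2 * (96 * (n : ℝ) ^ 2 + 64 * √(2 * √(n : ℝ)) * (E * √E))

/-- (VarB) Proof.  `φ = √(n / E) / 2`, `φ² = n / (4 E)`, `K = 4 E / n`.  `Lc² ≤ 8 dg² + 8 φ² B²`; `∑ dg² ≤ 3 n²` (`sum_dg_sq`), `St_SB`: `8 φ² 6 n² K = 48 n²`, `8 φ² 12 n E = 24 n²`, `8 φ² 8 K (...) = 64 (...)`;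
`24 n² ≤ 24 n² (J + 2)²`. -/
def St_VarB : Prop := St_Inc → St_SB → ∀ {n : ℕ} (x : Fin n → Plane), Function.Injective x → 1 ≤ n →
  1 ≤ (Ed x 1).card → ∀ (W : Finset (Fin n)) (d : ℝ), (∀ a ∈ W, n * dg x 1 a ≤ 4 * (Ed x 1).card) →
  (Ed x d).card ≤ (Ed x 1).card →
  ∑ c, Lc x W (√((n : ℝ) / (Ed x 1).card) / 2) d c ^ 2 ≤ VB n (Ed x 1).card

/-- (StB) Good signs, with a general bound `V` of the variances.  Proof: that of `thm_StA` in StA.lean (same `φ = √(n / E) / 2`, `lam = √(n E) / 2048`), with `V` in place of `48 n E`: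
`k lam² / (2 V) = k n E / (8388608 V)`. -/
def St_StB : Prop := St_KT → St_Exp → St_Cos → St_Mean → St_Diff → ∀ {n k : ℕ} (x : Fin n → Plane),
  Function.Injective x → 1 ≤ n → 1 ≤ k → n ≤ (Ed x 1).card → (∀ d, (Ed x d).card ≤ (Ed x 1).card) →
  ∀ U W : Finset (Fin n), Disjoint U W → (∀ a ∈ W, n * dg x 1 a ≤ 4 * (Ed x 1).card) →
  3 * (Ed x 1).card ≤ 32 * ∑ a ∈ W, (nb x U a).card →
  ∀ V : ℝ, 0 < V → (∀ d, ∑ c, Lc x W (√((n : ℝ) / (Ed x 1).card) / 2) d c ^ 2 ≤ V) →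
  ∀ D : Finset ℝ, ((D.card : ℝ) + 1) * Real.exp (-((k : ℝ) * (n * (Ed x 1).card) / (8388608 * V))) < 1 →
  ∃ (φ : ℝ) (ω : Fin k → Fin n → Fin 2),
    (∀ d ∈ D, d ≠ 1 → ∑ i, hh x U W φ d (ω i) ≤
      k * (((Ed x 1).card : ℝ) / 4 + n / 8 + √(n * (Ed x 1).card) / 2048)) ∧
    k * (((Ed x 1).card : ℝ) / 4 + 11 / 2048 * √(n * (Ed x 1).card)) ≤ ∑ i, hh x U W φ 1 (ω i)

/-- (CorB) The gap.  Proof: that of `thm_Core` in Core.lean, with `St_StB` (`V = VB n E`, `E = |Ed x 1| = 2 u n`, `St_VarB`) in place of `St_StA`; the condition of `St_Rnd` with `lam = √(n E) / 2048` reads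
`k lam² / (24 n²) = k E / (100663296 n)`, `E = 2 u n`: `k u n / (50331648 n)`. -/
def St_CorB : Prop := St_KT → St_Exp → St_Cos → St_Mean → St_Diff → St_Inc → St_SB → St_VarB → St_Usp → St_Part →
  St_StB → St_Rnd → ∀ n k N : ℕ, 1 ≤ n → 1 ≤ k → 2048 * n ≤ u n →
  2 * ((n : ℝ) ^ 2 + 2) * Real.exp (-((k : ℝ) * (n * (2 * u n)) / (8388608 * VB n (2 * u n)))) < 1 →
  2 * ((n : ℝ) ^ 2 + 2) * Real.exp (-((k : ℝ) * u n / (50331648 * n))) < 1 → k * n ≤ N →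
    (k : ℝ) * √(n * u n) / 1024 ≤ M 1 N + 1

/-- (Hit) Hitting sets.  Proof.  The number of `ρ : Fin r → Fin n` with all `ρ i ∉ S` is `(n - |S|)^r ≤ n^r (1 - m / n)^r ≤ n^r exp (- r m / n)` (`Real.add_one_le_exp`; `Fintype.card_piFinset`), so some `ρ` meets all `S ∈ F`; `R` its image. -/
def St_Hit : Prop := ∀ (n r : ℕ) (F : Finset (Finset (Fin n))) (m : ℝ), 1 ≤ n → 0 ≤ m →
  (∀ S ∈ F, m ≤ (S.card : ℝ)) → (F.card : ℝ) * Real.exp (-((r : ℝ) * m / n)) < 1 →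
  ∃ R : Finset (Fin n), R.card ≤ r ∧ ∀ S ∈ F, ∃ b ∈ S, b ∈ R

/-- The upper (`s = true`) and the lower half of the unit circle around `b`, as a function of the abscissa. -/
noncomputable def arc (b : Plane) (s : Bool) (t : ℝ) : ℝ :=
  b 1 + (if s then 1 else -1) * √(1 - (t - b 0) ^ 2)

/-- The point `z` lies in the slab `[l, h]`, above the arc `β` and below the arc `τ` (`none`: no condition). -/
def inR {n : ℕ} (x : Fin n → Plane) (l h : ℝ) (β τ : Option (Fin n × Bool)) (z : Plane) : Prop :=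
  (l ≤ z 0 ∧ z 0 ≤ h) ∧ (∀ b s, β = some (b, s) → arc (x b) s (z 0) < z 1) ∧
    (∀ b s, τ = some (b, s) → z 1 < arc (x b) s (z 0))

/-- (Cel) The cell of a point.  Proof.  `b ∈ R` is spanning if `x b 0 - 1 < l` and `h < x b 0 + 1`; the circle of a `b ∈ R` which is not spanning has no point with abscissa in `[l, h]` (endpoint condition).
For spanning `b` the arcs are continuous on `[l, h]`, lower < upper, and a point `z` of the circle with abscissa in `[l, h]` has `z 1 = arc (x b) s (z 0)` for an `s`.  Two different arcs of spanning centres differ at every `t ∈ [l, h]`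
(a common point would be a point of both circles in the slab), so their order is constant on `[l, h]` (intermediate value theorem).  `τ`: the arc with the smallest value at `p 0` among those with a value `> p 1` (`none` if there is none), `β`: the largest value `< p 1`
(no arc has the value `p 1`, as `p` is on no circle of `R`).  If `z` is on the circle of `b ∈ R` and in the region, it is on an arc `g`, `β < g` and `g < τ` at `z 0`, so at `p 0`: so `g` is neither above `p` (minimality of `τ`) nor below `p` nor through `p`. -/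
def St_Cel : Prop := ∀ {n : ℕ} (x : Fin n → Plane), Function.Injective x → ∀ (R : Finset (Fin n)) (l h : ℝ),
  (∀ b ∈ R, (x b 0 - 1 < l ∨ h < x b 0 - 1) ∧ (x b 0 + 1 < l ∨ h < x b 0 + 1)) →
  (∀ b ∈ R, ∀ b' ∈ R, b ≠ b' → ∀ z : Plane, dist z (x b) = 1 → dist z (x b') = 1 → z 0 < l ∨ h < z 0) →
  ∀ p : Plane, l ≤ p 0 → p 0 ≤ h → (∀ b ∈ R, dist p (x b) ≠ 1) →
  ∃ β τ : Option (Fin n × Bool), (∀ b s, β = some (b, s) → b ∈ R) ∧ (∀ b s, τ = some (b, s) → b ∈ R) ∧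
    inR x l h β τ p ∧ ∀ b ∈ R, ∀ z : Plane, dist z (x b) = 1 → ¬ inR x l h β τ z

/-- (Srt) Sorted extremal sets.  Proof.  `A` extremal (`St_Usp` (1)).  A rotation `ρ` (`exists_rotation` in Union.lean, for the pairs `((0, ± |v|), v)`, `v = a - a'`, `a ≠ a'` in `A`) after which different points have different abscissae (if `(ρ v) 0 = 0` then `ρ v = (0, ± |v|)`);
`P_image_similar` with ratio `1`.  Enumerate the image by increasing abscissa (`Finset.orderEmbOfFin` for the set of the abscissae), `card_Ed` with `I = univ`, `P_even`. -/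
def St_Srt : Prop := St_Usp → ∀ n : ℕ, ∃ x : Fin n → Plane, StrictMono (fun i => x i 0) ∧ (Ed x 1).card = 2 * u n

/-- (KST) Incidences.  Proof.  `I = ∑_{b ∈ C} I b`, `I² ≤ |C| ∑_b (I b)² = |C| ∑_{a, a' ∈ P} #{b ∈ C : (a, b), (a', b) ∈ Ed x 1} ≤ |C| (I + 2 |P|²)` (`circle_two`), so `I ≤ |C| + √(2 |C|) |P|`.  Second claim: exchange the roles. -/
def St_KST : Prop := ∀ {n : ℕ} (x : Fin n → Plane), Function.Injective x → ∀ P C : Finset (Fin n),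
  (((Ed x 1).filter fun p => p.1 ∈ P ∧ p.2 ∈ C).card : ℝ) ≤ √(2 * (C.card : ℝ)) * P.card + C.card ∧
  (((Ed x 1).filter fun p => p.1 ∈ P ∧ p.2 ∈ C).card : ℝ) ≤ √(2 * (P.card : ℝ)) * C.card + P.card

/-- (STm) Main inequality.  Proof.  Slab `j` (`j ≤ n / q`): the indices `a` with `a / q = j` (at most `q`), `l_j`, `h_j` the smallest and the largest abscissa in it (nonempty slabs); the intervals `[l_j, h_j]` are disjoint (`StrictMono`).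
For `j`, `β`, `τ` let `conf j β τ = {b : some z with dist z (x b) = 1 and inR x l_j h_j β τ z}`; `F` = those of these sets with at least `m` elements, `|F| ≤ (n / q + 1) (2 n + 1)²`.  `R` from `St_Hit`, `|R| ≤ r`.
Bad slabs: those for which `l_j ≤ t ≤ h_j` for a `t ∈ T`, `T` = the `x b 0 ± 1` (`b ∈ R`) and the abscissae of the common points of two circles of `R` (at most two for every pair `b ≠ b'`: `EuclideanGeometry.eq_of_dist_eq_of_dist_eq_of_finrank_eq_two`; choose `z₁ b b'`, `z₂ b b'`): `|T| ≤ 2 r + 2 r² ≤ 4 r²`,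
every `t` is in at most one slab, so at most `4 r²` bad slabs.
The pairs `(a, b) ∈ Ed x 1`: (1) `a` on a circle of `R`: at most `∑_{c ∈ R} ∑_b #{a : |a - b| = |a - c| = 1} ≤ r (2 n + n)`.  (2) `a` in a bad slab: `St_KST` (2) with `P` = the union of the bad slabs, `|P| ≤ 4 r² q`, `C = univ`.
(3) the others: `St_Cel` (for the slab of `a`, `p = x a`) gives `β, τ` (over `R`; `2 r + 1` values each); the cell `(j, β, τ)` meets no circle of `R`, so `|conf j β τ| < m`; every `b` with `(a, b) ∈ Ed x 1` is in `conf j β τ`.  `St_KST` (1) for every cell (`P` = its points, `C = conf`):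
`≤ √(2 m) |P| + m`, sum over the cells `(j, β, τ)`: `≤ √(2 m) n + m (n / q + 1) (2 r + 1)²`. -/
def St_STm : Prop := St_Hit → St_Cel → St_KST → ∀ {n : ℕ} (x : Fin n → Plane), StrictMono (fun i => x i 0) →
  ∀ (r q : ℕ) (m : ℝ), 1 ≤ n → 1 ≤ r → 1 ≤ q → 0 ≤ m →
  ((n : ℝ) / q + 1) * (2 * n + 1) ^ 2 * Real.exp (-((r : ℝ) * m / n)) < 1 →
  ((Ed x 1).card : ℝ) ≤ 3 * r * n + (√(8 * (r : ℝ) ^ 2 * q) * n + 4 * (r : ℝ) ^ 2 * q) +
    (√(2 * m) * n + m * (((n : ℝ) / q + 1) * (2 * r + 1) ^ 2))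

/-- (STn) Weak Szemeredi-Trotter bound.  Proof.  `x` from `St_Srt`, `r` with `r^10 ≤ n < (r + 1)^10` (`n ≥ 1`), `q = n / r³ + 1` (natural division; so `n / q + 1 ≤ r³ + 1`, `q ≤ 2 n / r³`), `m = 6 (n / r) log (2 n + 1)`, so `exp (- r m / n) = (2 n + 1)^(-6)`.
`St_STm`: all terms are at most a constant times `n^(3/2) √(log (2n+1)) / √r + n r^4 log (2 n + 1)`, `r ≥ n^(1/10) / 2`; `n^(3/2) n^(-1/20) √(log (2n+1)) ≤ C n^(73/50)` (`29/20 = 1.45`), `n^(7/5) log (2n+1) ≤ C n^(73/50)`. -/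
def St_STn : Prop := St_Usp → St_Srt → St_Hit → St_Cel → St_KST → St_STm →
  ∃ C : ℝ, 0 < C ∧ ∀ n : ℕ, (u n : ℝ) ≤ C * (n : ℝ) ^ (73 / 50 : ℝ)

/-- (Low) Many unit distances.  Proof.  The theorem of the hand-in AllRanks (`Pool.Agent.RNK.main`, with `η = 1/2`, `r = 1`) and `St_Rank` (1). -/
def St_Low : Prop := St_Usp → St_Rank → ∃ δ : ℝ, 0 < δ ∧ ∃ n₀ : ℕ, ∀ n : ℕ, n₀ ≤ n → (n : ℝ) ^ (1 + δ) ≤ u n

/-- The conclusion of `St_CorB`. -/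
def ConB : Prop := ∀ n k N : ℕ, 1 ≤ n → 1 ≤ k → 2048 * n ≤ u n →
  2 * ((n : ℝ) ^ 2 + 2) * Real.exp (-((k : ℝ) * (n * (2 * u n)) / (8388608 * VB n (2 * u n)))) < 1 →
  2 * ((n : ℝ) ^ 2 + 2) * Real.exp (-((k : ℝ) * u n / (50331648 * n))) < 1 → k * n ≤ N →
    (k : ℝ) * √(n * u n) / 1024 ≤ M 1 N + 1

/-- (Big) Large `n`.  Proof.  `k = 1`, `N = n`.  `E = 2 u n`, `n^(1+δ) ≤ u n ≤ C n^(73/50)`: `VB n E / (n E) ≤ (log₂ n + 2)² (96 n / E + 64 √2 n^(1/4) √E / n) ≤ C' (log₂ n + 2)² (n^(-δ) + n^(-1/50))` (`1/4 + 73/100 - 1 = -1/50`),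
so the exponents `n E / (8388608 VB)` and `u n / (50331648 n) ≥ n^δ / 50331648` are larger than `3 log n` for large `n`, and `2048 n ≤ u n`. -/
def St_Big : Prop := ConB → (∃ δ : ℝ, 0 < δ ∧ ∃ n₀ : ℕ, ∀ n : ℕ, n₀ ≤ n → (n : ℝ) ^ (1 + δ) ≤ u n) →
  (∃ C : ℝ, 0 < C ∧ ∀ n : ℕ, (u n : ℝ) ≤ C * (n : ℝ) ^ (73 / 50 : ℝ)) →
  ∃ n₀ : ℕ, ∀ n : ℕ, n₀ ≤ n → √((n : ℝ) * u n) / 1024 ≤ M 1 n + 1

/-- (OnB) Rank one.  Proof.  `M 1 m ≥ 1` for `m ≥ 2` (`lower_all`).  `m ≥ n₀`: `M 1 m + 1 ≤ 2 M 1 m`.  `m < n₀`: `u m ≤ m²` (`f_le`), `√(m u m) ≤ √(n₀³)`. -/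
def St_OnB : Prop := St_Usp → (∃ n₀ : ℕ, ∀ n : ℕ, n₀ ≤ n → √((n : ℝ) * u n) / 1024 ≤ M 1 n + 1) →
  ∃ c : ℝ, 0 < c ∧ ∀ m : ℕ, 2 ≤ m → c * √((m : ℝ) * u m) ≤ M 1 m

/-- (FiB) All ranks.  Proof: that of `thm_Fin` in Fin.lean without the logarithm. -/
def St_FiB : Prop := St_Usp → St_Rank → (∃ c : ℝ, 0 < c ∧ ∀ m : ℕ, 2 ≤ m → c * √((m : ℝ) * u m) ≤ M 1 m) →
  ∃ c : ℝ, 0 < c ∧ ∀ n r : ℕ, 1 ≤ r → r < n →
    c * √((n : ℝ) * u n) / (r : ℝ) ^ (3 / 2 : ℝ) ≤ M r n ∧ M r n ≤ u n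

end Pool.Agent.GMU
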