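import Mathlib
import Pool.Agent.GMU.St2

/-!
# GMU, module SB: the refined bound of the sum of squares (dyadic decomposition)
-/

set_option autoImplicit false

namespace Pool.Agent.GMU

open Finset Pool.Agent.Helper53.Generic Pool.Agent.Helper60.Gap

private theorem SB_dg {n : ℕ} (x : Fin n → Plane) (d : ℝ) (i : Fin n) :
    dg x d i = (Finset.univ.filter (fun j => (i, j) ∈ Ed x d)).card := by
  classical
  unfold dg
  apply Finset.card_bij (fun p _ => p.2)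
  · rintro ⟨a, b⟩ hp
    rw [Finset.mem_filter] at hp
    rw [Finset.mem_filter]
    refine ⟨Finset.mem_univ _, ?_⟩
    have : a = i := hp.2
    rw [← this]
    exact hp.1
  · rintro ⟨a, b⟩ hp ⟨a', b'⟩ hp' h
    rw [Finset.mem_filter] at hp hp'
    have e1 : a = i := hp.2
    have e2 : a' = i := hp'.2
    have e3 : b = b' := h
    rw [e1, e2, e3]
  · intro j hj
    rw [Finset.mem_filter] at hj
    exact ⟨(i, j), by rw [Finset.mem_filter]; exact ⟨hj.2, rfl⟩, rfl⟩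

private theorem SB_dg' {n : ℕ} (x : Fin n → Plane) (d : ℝ) (i : Fin n) :
    (Finset.univ.filter (fun j => (j, i) ∈ Ed x d)).card = dg x d i := by
  rw [SB_dg]
  congr 1
  apply Finset.filter_congr
  intro j _
  exact ⟨fun h => Ed_swap x d h, fun h => Ed_swap x d h⟩

/-- two circles with different centres -/
private theorem SB_two {n : ℕ} (x : Fin n → Plane) (d : ℝ) (hx : Function.Injective x) {j k : Fin n}
    (hjk : j ≠ k) :
    (Finset.univ.filter (fun i => (i, j) ∈ Ed x 1 ∧ (i, k) ∈ Ed x d)).card ≤ 2 := by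
  classical
  by_contra hcon
  push Not at hcon
  rw [Finset.two_lt_card] at hcon
  obtain ⟨a, ha, b, hb, c, hc, hab, hac, hbc⟩ := hcon
  have hfin : Module.finrank ℝ Plane = 2 := by simp
  have key : ∀ i, i ∈ Finset.univ.filter (fun i => (i, j) ∈ Ed x 1 ∧ (i, k) ∈ Ed x d) →
      dist (x i) (x j) = 1 ∧ dist (x i) (x k) = d := by
    intro i hi
    rw [Finset.mem_filter] at hi
    unfold Ed at hi
    rw [Finset.mem_filter, Finset.mem_filter] at hi
    exact ⟨hi.2.1.2.2, hi.2.2.2.2⟩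
  obtain ⟨a1, a2⟩ := key a ha
  obtain ⟨b1, b2⟩ := key b hb
  obtain ⟨c1, c2⟩ := key c hc
  rcases EuclideanGeometry.eq_of_dist_eq_of_dist_eq_of_finrank_eq_two hfin
    (fun h => hjk (hx h)) (fun h => hab (hx h)) a1 b1 c1 a2 b2 c2 with h | h
  · exact hac (hx h).symm
  · exact hbc (hx h).symm

private theorem SB_B {n : ℕ} (x : Fin n → Plane) (d : ℝ) (hx : Function.Injective x)
    (W : Finset (Fin n)) (c : Fin n) :
    ∑ a ∈ W.filter (fun a => (a, c) ∈ Ed x 1), dg x d a ≤ 3 * n := by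
  classical
  have h1 : ∑ a ∈ W.filter (fun a => (a, c) ∈ Ed x 1), dg x d a ≤
      ∑ a, (if (a, c) ∈ Ed x 1 then dg x d a else 0) := by
    rw [Finset.sum_filter]
    exact Finset.sum_le_univ_sum_of_nonneg (fun a => Nat.zero_le _)
  have h2 : ∀ a, (if (a, c) ∈ Ed x 1 then dg x d a else 0) =
      ∑ b, (if (a, c) ∈ Ed x 1 ∧ (a, b) ∈ Ed x d then 1 else 0) := by
    intro a
    rw [SB_dg]
    split_ifs with h
    · rw [Finset.card_eq_sum_ones, Finset.sum_filter]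
      refine Finset.sum_congr rfl fun b _ => ?_
      simp [h]
    · symm
      apply Finset.sum_eq_zero
      intro b _
      rw [if_neg (fun hh => h hh.1)]
  rw [Finset.sum_congr rfl (fun a _ => h2 a), Finset.sum_comm] at h1
  refine h1.trans ?_
  have h3 : ∀ b : Fin n, ∑ a, (if (a, c) ∈ Ed x 1 ∧ (a, b) ∈ Ed x d then 1 else 0) ≤
      2 + (if c = b then n else 0) := by
    intro b
    rw [← Finset.sum_filter, ← Finset.card_eq_sum_ones]
    by_cases hp : c = b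
    · rw [if_pos hp]
      refine (Finset.card_le_univ _).trans ?_
      rw [Fintype.card_fin]
      omega
    · rw [if_neg hp]
      exact SB_two x d hx hp
  refine (Finset.sum_le_sum (fun b _ => h3 b)).trans (le_of_eq ?_)
  rw [Finset.sum_add_distrib, Finset.sum_const, Finset.card_univ, Fintype.card_fin,
    Finset.sum_ite_eq]
  simp only [Finset.mem_univ, if_true, smul_eq_mul]
  ring

private theorem SB_sum {n : ℕ} (x : Fin n → Plane) (g : Fin n → ℕ) (W : Finset (Fin n)) :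
    ∑ c, ∑ a ∈ W.filter (fun a => (a, c) ∈ Ed x 1), g a = ∑ a ∈ W, g a * dg x 1 a := by
  classical
  have h1 : ∀ c : Fin n, ∑ a ∈ W.filter (fun a => (a, c) ∈ Ed x 1), g a =
      ∑ a ∈ W, (if (a, c) ∈ Ed x 1 then g a else 0) := fun c => Finset.sum_filter _ _
  rw [Finset.sum_congr rfl (fun c _ => h1 c), Finset.sum_comm]
  refine Finset.sum_congr rfl fun a _ => ?_
  rw [SB_dg x 1 a, ← Finset.sum_filter, Finset.sum_const, smul_eq_mul, mul_comm]

private theorem SB_biUnion {α : Type} [DecidableEq α] (f : α → ℕ) (s : Finset ℕ) (t : ℕ → Finset α) :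
    ∑ a ∈ s.biUnion t, f a ≤ ∑ i ∈ s, ∑ a ∈ t i, f a := by
  induction s using Finset.induction_on with
  | empty => simp
  | insert i s hi ih =>
    rw [Finset.biUnion_insert, Finset.sum_insert hi]
    have h := Finset.sum_union_inter (s₁ := t i) (s₂ := s.biUnion t) (f := f)
    omega

/-- the class of the large degrees -/
private theorem SB_zero (hInc : St_Inc) {n : ℕ} (x : Fin n → Plane) (hx : Function.Injective x)
    (A : Finset (Fin n)) (d K : ℝ) (hK : 0 ≤ K) (hA : ∀ a ∈ A, (dg x 1 a : ℝ) ≤ K)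
    (hbig : ∀ a ∈ A, 4 * n ≤ dg x d a ^ 2) :
    ∑ c, ((∑ a ∈ A.filter (fun a => (a, c) ∈ Ed x 1), dg x d a : ℕ) : ℝ) ^ 2 ≤ 6 * (n : ℝ) ^ 2 * K := by
  classical
  have h1 : ∑ a ∈ A, dg x d a ≤ 2 * n := by
    have h2 := hInc (Ed x d) Finset.univ A (fun c c' hcc => circle_two x d hx hcc) (by
      intro c hc
      rw [SB_dg', Finset.card_univ, Fintype.card_fin]
      exact hbig c hc)
    rw [Finset.card_univ, Fintype.card_fin] at h2
    rw [Finset.sum_congr rfl (fun c _ => SB_dg' x d c)] at h2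
    exact h2
  have h2 : ∑ c, ((∑ a ∈ A.filter (fun a => (a, c) ∈ Ed x 1), dg x d a : ℕ) : ℝ) ^ 2 ≤
      ∑ c, 3 * (n : ℝ) * ((∑ a ∈ A.filter (fun a => (a, c) ∈ Ed x 1), dg x d a : ℕ) : ℝ) := by
    apply Finset.sum_le_sum
    intro c _
    have h3 : ((∑ a ∈ A.filter (fun a => (a, c) ∈ Ed x 1), dg x d a : ℕ) : ℝ) ≤ 3 * n := by
      exact_mod_cast SB_B x d hx A c
    rw [pow_two]
    exact mul_le_mul_of_nonneg_right h3 (Nat.cast_nonneg _)
  refine h2.trans ?_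
  rw [← Finset.mul_sum, ← Nat.cast_sum, SB_sum]
  have h4 : ((∑ a ∈ A, dg x d a * dg x 1 a : ℕ) : ℝ) ≤ K * (2 * n) := by
    push_cast
    have h5 : ∑ a ∈ A, (dg x d a : ℝ) * dg x 1 a ≤ ∑ a ∈ A, K * (dg x d a : ℝ) := by
      refine Finset.sum_le_sum fun a ha => ?_
      rw [mul_comm]
      exact mul_le_mul_of_nonneg_right (hA a ha) (Nat.cast_nonneg _)
    refine h5.trans ?_
    rw [← Finset.mul_sum]
    apply mul_le_mul_of_nonneg_left _ hK
    exact_mod_cast h1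
  calc 3 * (n : ℝ) * ((∑ a ∈ A, dg x d a * dg x 1 a : ℕ) : ℝ) ≤ 3 * (n : ℝ) * (K * (2 * n)) :=
        mul_le_mul_of_nonneg_left h4 (by positivity)
    _ = 6 * (n : ℝ) ^ 2 * K := by ring

/-- a dyadic class -/
private theorem SB_cls (hInc : St_Inc) {n : ℕ} (x : Fin n → Plane) (hx : Function.Injective x)
    (A : Finset (Fin n)) (d K E : ℝ) (j : ℕ) (hK : 0 ≤ K) (hA : ∀ a ∈ A, (dg x 1 a : ℝ) ≤ K)
    (hE : ((Ed x d).card : ℝ) ≤ E)
    (hsm : ∀ a ∈ A, 2 ^ j ≤ dg x d a ∧ dg x d a < 2 ^ (j + 1) ∧ dg x d a ^ 2 < 4 * n) :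
    ∑ c, ((∑ a ∈ A.filter (fun a => (a, c) ∈ Ed x 1), dg x d a : ℕ) : ℝ) ^ 2 ≤
      12 * n * E + 8 * K * √(2 * √(n : ℝ)) * (E * √E) := by
  classical
  have hE0 : 0 ≤ E := (Nat.cast_nonneg _).trans hE
  rcases A.eq_empty_or_nonempty with rfl | ⟨a₀, ha₀⟩
  · simp only [Finset.filter_empty, Finset.sum_empty, Nat.cast_zero]
    rw [Finset.sum_eq_zero (fun _ _ => by norm_num)]
    positivity
  obtain ⟨s1, s2, s3⟩ := hsm a₀ ha₀
  have hn : ((2 : ℝ) ^ j) ≤ 2 * √(n : ℝ) := by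
    have h1 : ((2 : ℝ) ^ j) ^ 2 ≤ (2 * √(n : ℝ)) ^ 2 := by
      rw [mul_pow, Real.sq_sqrt (Nat.cast_nonneg _)]
      have h2 : (2 ^ j) ^ 2 ≤ dg x d a₀ ^ 2 := Nat.pow_le_pow_left s1 2
      have h3 : (2 ^ j) ^ 2 ≤ 4 * n := by omega
      have h4 : (((2 ^ j) ^ 2 : ℕ) : ℝ) ≤ ((4 * n : ℕ) : ℝ) := by exact_mod_cast h3
      push_cast at h4
      linarith
    exact (abs_le_of_sq_le_sq' h1 (by positivity)).2
  -- the numbers `I c`
  set I : Fin n → ℕ := fun c => (A.filter fun a => (a, c) ∈ Ed x 1).card with hI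
  have hB1 : ∀ c, ((∑ a ∈ A.filter (fun a => (a, c) ∈ Ed x 1), dg x d a : ℕ) : ℝ) ≤ 2 ^ (j + 1) * I c := by
    intro c
    have h1 : ∑ a ∈ A.filter (fun a => (a, c) ∈ Ed x 1), dg x d a ≤ (A.filter fun a => (a, c) ∈ Ed x 1).card • 2 ^ (j + 1) :=
      Finset.sum_le_card_nsmul _ _ _ (fun a ha => (hsm a (Finset.mem_filter.1 ha).1).2.1.le)
    rw [smul_eq_mul, mul_comm] at h1
    exact_mod_cast h1
  have hB3 : ∀ c, ((∑ a ∈ A.filter (fun a => (a, c) ∈ Ed x 1), dg x d a : ℕ) : ℝ) ≤ 3 * n := by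
    intro c
    exact_mod_cast SB_B x d hx A c
  have hAE : (2 : ℝ) ^ j * A.card ≤ E := by
    have h1 : A.card • 2 ^ j ≤ ∑ a ∈ A, dg x d a := Finset.card_nsmul_le_sum _ _ _ (fun a ha => (hsm a ha).1)
    have h2 : ∑ a ∈ A, dg x d a ≤ (Ed x d).card := by
      rw [← sum_dg x d]
      exact Finset.sum_le_univ_sum_of_nonneg (fun a => Nat.zero_le _)
    rw [smul_eq_mul, mul_comm] at h1
    have h3 : ((2 ^ j * A.card : ℕ) : ℝ) ≤ ((Ed x d).card : ℝ) := by exact_mod_cast h1.trans h2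
    push_cast at h3
    linarith
  set T : Finset (Fin n) := Finset.univ.filter (fun c => 4 * A.card ≤ I c ^ 2) with hT
  have hIT : ∑ c ∈ T, I c ≤ 2 * A.card := by
    apply hInc (Ed x 1) A T
    · intro c c' hcc
      refine (Finset.card_le_card ?_).trans (circle_two x 1 hx hcc)
      exact Finset.filter_subset_filter _ (Finset.subset_univ A)
    · intro c hc
      rw [hT, Finset.mem_filter] at hc
      exact hc.2
  have hIall : ((∑ c, I c : ℕ) : ℝ) ≤ K * A.card := by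
    have h1 : ∑ c, I c = ∑ a ∈ A, dg x 1 a := by
      have h2 := SB_sum x (fun _ => 1) A
      simp only [Finset.sum_const, smul_eq_mul, mul_one, one_mul] at h2
      exact h2
    rw [h1]
    push_cast
    have h3 := Finset.sum_le_card_nsmul A (fun a => (dg x 1 a : ℝ)) K hA
    rw [nsmul_eq_mul, mul_comm] at h3
    exact h3
  rw [← Finset.sum_filter_add_sum_filter_not Finset.univ (fun c => 4 * A.card ≤ I c ^ 2)]
  rw [← hT]
  have hpart1 : ∑ c ∈ T, ((∑ a ∈ A.filter (fun a => (a, c) ∈ Ed x 1), dg x d a : ℕ) : ℝ) ^ 2 ≤ 12 * n * E := by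
    have h1 : ∀ c ∈ T, ((∑ a ∈ A.filter (fun a => (a, c) ∈ Ed x 1), dg x d a : ℕ) : ℝ) ^ 2 ≤
        3 * n * 2 ^ (j + 1) * (I c : ℝ) := by
      intro c _
      rw [pow_two]
      have h0 : (0 : ℝ) ≤ ((∑ a ∈ A.filter (fun a => (a, c) ∈ Ed x 1), dg x d a : ℕ) : ℝ) := Nat.cast_nonneg _
      calc _ ≤ 3 * (n : ℝ) * (2 ^ (j + 1) * I c) := mul_le_mul (hB3 c) (hB1 c) h0 (by positivity)
        _ = _ := by ring
    refine (Finset.sum_le_sum h1).trans ?_
    rw [← Finset.mul_sum, ← Nat.cast_sum]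
    have h2 : ((∑ c ∈ T, I c : ℕ) : ℝ) ≤ 2 * A.card := by exact_mod_cast hIT
    calc 3 * (n : ℝ) * 2 ^ (j + 1) * ((∑ c ∈ T, I c : ℕ) : ℝ) ≤ 3 * (n : ℝ) * 2 ^ (j + 1) * (2 * A.card) :=
          mul_le_mul_of_nonneg_left h2 (by positivity)
      _ = 12 * n * (2 ^ j * A.card) := by ring
      _ ≤ 12 * n * E := mul_le_mul_of_nonneg_left hAE (by positivity)
  have hpart2 : ∑ c ∈ Finset.univ.filter (fun c => ¬ 4 * A.card ≤ I c ^ 2),
      ((∑ a ∈ A.filter (fun a => (a, c) ∈ Ed x 1), dg x d a : ℕ) : ℝ) ^ 2 ≤ 8 * K * √(2 * √(n : ℝ)) * (E * √E) := by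
    have hsA : (0 : ℝ) ≤ √(A.card : ℝ) := Real.sqrt_nonneg _
    have h1 : ∀ c ∈ Finset.univ.filter (fun c => ¬ 4 * A.card ≤ I c ^ 2),
        ((∑ a ∈ A.filter (fun a => (a, c) ∈ Ed x 1), dg x d a : ℕ) : ℝ) ^ 2 ≤
        (2 ^ (j + 1)) ^ 2 * (2 * √(A.card : ℝ)) * (I c : ℝ) := by
      intro c hc
      have h2 := (Finset.mem_filter.1 hc).2
      have h3 : (I c : ℝ) ≤ 2 * √(A.card : ℝ) := by
        have h4 : (I c : ℝ) ^ 2 ≤ (2 * √(A.card : ℝ)) ^ 2 := by
          rw [mul_pow, Real.sq_sqrt (Nat.cast_nonneg _)]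
          have h5 : I c ^ 2 ≤ 4 * A.card := by omega
          have h6 : ((I c ^ 2 : ℕ) : ℝ) ≤ ((4 * A.card : ℕ) : ℝ) := by exact_mod_cast h5
          push_cast at h6
          linarith
        exact (abs_le_of_sq_le_sq' h4 (by positivity)).2
      have h0 : (0 : ℝ) ≤ ((∑ a ∈ A.filter (fun a => (a, c) ∈ Ed x 1), dg x d a : ℕ) : ℝ) := Nat.cast_nonneg _
      have h7 : ((∑ a ∈ A.filter (fun a => (a, c) ∈ Ed x 1), dg x d a : ℕ) : ℝ) ^ 2 ≤ (2 ^ (j + 1) * I c) ^ 2 :=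
        pow_le_pow_left₀ h0 (hB1 c) 2
      refine h7.trans ?_
      have h8 : (I c : ℝ) * I c ≤ 2 * √(A.card : ℝ) * I c := mul_le_mul_of_nonneg_right h3 (Nat.cast_nonneg _)
      calc (2 ^ (j + 1) * (I c : ℝ)) ^ 2 = (2 ^ (j + 1)) ^ 2 * ((I c : ℝ) * I c) := by ring
        _ ≤ (2 ^ (j + 1)) ^ 2 * (2 * √(A.card : ℝ) * I c) := mul_le_mul_of_nonneg_left h8 (by positivity)
        _ = _ := by ring
    refine (Finset.sum_le_sum h1).trans ?_
    rw [← Finset.mul_sum]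
    have h2 : ∑ c ∈ Finset.univ.filter (fun c => ¬ 4 * A.card ≤ I c ^ 2), (I c : ℝ) ≤ K * A.card := by
      refine le_trans ?_ hIall
      rw [Nat.cast_sum]
      exact Finset.sum_le_sum_of_subset_of_nonneg (Finset.filter_subset _ _) (fun _ _ _ => Nat.cast_nonneg _)
    have e1 : √((2 : ℝ) ^ j) * √((2 : ℝ) ^ j * A.card) = 2 ^ j * √(A.card : ℝ) := by
      rw [Real.sqrt_mul (by positivity), ← mul_assoc, Real.mul_self_sqrt (by positivity)]
    calc (2 ^ (j + 1)) ^ 2 * (2 * √(A.card : ℝ)) * ∑ c ∈ Finset.univ.filter (fun c => ¬ 4 * A.card ≤ I c ^ 2), (I c : ℝ)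
        ≤ (2 ^ (j + 1)) ^ 2 * (2 * √(A.card : ℝ)) * (K * A.card) := mul_le_mul_of_nonneg_left h2 (by positivity)
      _ = 8 * K * ((2 ^ j * A.card) * (2 ^ j * √(A.card : ℝ))) := by ring
      _ = 8 * K * ((2 ^ j * A.card) * (√((2 : ℝ) ^ j) * √((2 : ℝ) ^ j * A.card))) := by rw [e1]
      _ ≤ 8 * K * (E * (√(2 * √(n : ℝ)) * √E)) := by
          apply mul_le_mul_of_nonneg_left _ (by positivity)
          apply mul_le_mul hAE _ (by positivity) hE0
          exact mul_le_mul (Real.sqrt_le_sqrt hn) (Real.sqrt_le_sqrt hAE) (Real.sqrt_nonneg _) (Real.sqrt_nonneg _)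
      _ = 8 * K * √(2 * √(n : ℝ)) * (E * √E) := by ring
  linarith

/-- **SB** -/
theorem thm_SB : St_SB := by
  intro hInc n x hx W d K E hK hW hE
  classical
  have hE0 : 0 ≤ E := (Nat.cast_nonneg _).trans hE
  set J : ℕ := Nat.log 2 n with hJ
  -- the classes
  obtain ⟨C, hC0, hCs⟩ : ∃ C : ℕ → Finset (Fin n), (C 0 = W.filter (fun a => 4 * n ≤ dg x d a ^ 2)) ∧
      ∀ j, C (j + 1) = W.filter (fun a => dg x d a ≠ 0 ∧ dg x d a ^ 2 < 4 * n ∧ Nat.log 2 (dg x d a) = j) := by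
    refine ⟨fun i => Nat.casesOn i (W.filter (fun a => 4 * n ≤ dg x d a ^ 2))
      (fun j => W.filter (fun a => dg x d a ≠ 0 ∧ dg x d a ^ 2 < 4 * n ∧ Nat.log 2 (dg x d a) = j)), rfl, fun j => rfl⟩
  have hdgn : ∀ a, dg x d a ≤ n := by
    intro a
    rw [SB_dg]
    refine (Finset.card_le_univ _).trans ?_
    rw [Fintype.card_fin]
  have hdec : ∀ c, ∑ a ∈ W.filter (fun a => (a, c) ∈ Ed x 1), dg x d a ≤
      ∑ i ∈ Finset.range (J + 2), ∑ a ∈ (C i).filter (fun a => (a, c) ∈ Ed x 1), dg x d a := by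
    intro c
    have h1 : ∀ a ∈ W.filter (fun a => (a, c) ∈ Ed x 1), dg x d a ≠ 0 →
        a ∈ (Finset.range (J + 2)).biUnion (fun i => (C i).filter (fun a => (a, c) ∈ Ed x 1)) := by
      intro a ha h0
      rw [Finset.mem_filter] at ha
      rw [Finset.mem_biUnion]
      by_cases hb : 4 * n ≤ dg x d a ^ 2
      · refine ⟨0, Finset.mem_range.2 (by omega), ?_⟩
        rw [hC0, Finset.mem_filter, Finset.mem_filter]
        exact ⟨⟨ha.1, hb⟩, ha.2⟩
      · refine ⟨Nat.log 2 (dg x d a) + 1, Finset.mem_range.2 ?_, ?_⟩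
        · have := Nat.log_mono_right (b := 2) (hdgn a)
          omega
        · rw [hCs, Finset.mem_filter, Finset.mem_filter]
          exact ⟨⟨ha.1, h0, not_le.1 hb, rfl⟩, ha.2⟩
    have h2 : ∑ a ∈ W.filter (fun a => (a, c) ∈ Ed x 1), dg x d a ≤
        ∑ a ∈ (Finset.range (J + 2)).biUnion (fun i => (C i).filter (fun a => (a, c) ∈ Ed x 1)), dg x d a := by
      rw [← Finset.sum_filter_ne_zero]
      apply Finset.sum_le_sum_of_subset
      intro a ha
      rw [Finset.mem_filter] at ha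
      exact h1 a ha.1 ha.2
    refine h2.trans ?_
    exact SB_biUnion _ _ _
  set Tb : ℝ := 6 * (n : ℝ) ^ 2 * K + 12 * n * E + 8 * K * √(2 * √(n : ℝ)) * (E * √E) with hTb
  have hcl : ∀ i ∈ Finset.range (J + 2),
      ∑ c, ((∑ a ∈ (C i).filter (fun a => (a, c) ∈ Ed x 1), dg x d a : ℕ) : ℝ) ^ 2 ≤ Tb := by
    intro i _
    cases i with
    | zero =>
      have h1 := SB_zero hInc x hx (C 0) d K hK (fun a ha => hW a (by rw [hC0, Finset.mem_filter] at ha; exact ha.1))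
        (fun a ha => by rw [hC0, Finset.mem_filter] at ha; exact ha.2)
      have h2 : 0 ≤ 12 * (n : ℝ) * E + 8 * K * √(2 * √(n : ℝ)) * (E * √E) := by positivity
      linarith
    | succ j =>
      have h1 := SB_cls hInc x hx (C (j + 1)) d K E j hK
        (fun a ha => hW a (by rw [hCs, Finset.mem_filter] at ha; exact ha.1)) hE (by
          intro a ha
          rw [hCs, Finset.mem_filter] at ha
          obtain ⟨_, h0, h1, h2⟩ := ha
          refine ⟨?_, ?_, h1⟩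
          · rw [← h2]; exact Nat.pow_log_le_self 2 h0
          · rw [← h2]; exact Nat.lt_pow_succ_log_self (by norm_num) _)
      have h2 : 0 ≤ 6 * (n : ℝ) ^ 2 * K := by positivity
      linarith
  have hsq : ∀ c, ((∑ a ∈ W.filter (fun a => (a, c) ∈ Ed x 1), dg x d a : ℕ) : ℝ) ^ 2 ≤
      ((J : ℝ) + 2) * ∑ i ∈ Finset.range (J + 2), ((∑ a ∈ (C i).filter (fun a => (a, c) ∈ Ed x 1), dg x d a : ℕ) : ℝ) ^ 2 := by
    intro c
    have h1 : ((∑ a ∈ W.filter (fun a => (a, c) ∈ Ed x 1), dg x d a : ℕ) : ℝ) ≤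
        ∑ i ∈ Finset.range (J + 2), ((∑ a ∈ (C i).filter (fun a => (a, c) ∈ Ed x 1), dg x d a : ℕ) : ℝ) := by
      exact_mod_cast hdec c
    have h2 := sq_sum_le_card_mul_sum_sq (s := Finset.range (J + 2))
      (f := fun i => ((∑ a ∈ (C i).filter (fun a => (a, c) ∈ Ed x 1), dg x d a : ℕ) : ℝ))
    rw [Finset.card_range] at h2
    have h3 := pow_le_pow_left₀ (Nat.cast_nonneg _) h1 2
    refine h3.trans (h2.trans (le_of_eq ?_))
    push_cast
    rfl
  calc ∑ c, ((∑ a ∈ W.filter (fun a => (a, c) ∈ Ed x 1), dg x d a : ℕ) : ℝ) ^ 2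
      ≤ ∑ c, ((J : ℝ) + 2) * ∑ i ∈ Finset.range (J + 2),
          ((∑ a ∈ (C i).filter (fun a => (a, c) ∈ Ed x 1), dg x d a : ℕ) : ℝ) ^ 2 :=
        Finset.sum_le_sum (fun c _ => hsq c)
    _ = ((J : ℝ) + 2) * ∑ i ∈ Finset.range (J + 2), ∑ c,
          ((∑ a ∈ (C i).filter (fun a => (a, c) ∈ Ed x 1), dg x d a : ℕ) : ℝ) ^ 2 := by
        rw [← Finset.mul_sum, Finset.sum_comm]
    _ ≤ ((J : ℝ) + 2) * ∑ i ∈ Finset.range (J + 2), Tb :=
        mul_le_mul_of_nonneg_left (Finset.sum_le_sum hcl) (by positivity)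
    _ = ((J : ℝ) + 2) ^ 2 * Tb := by
        rw [Finset.sum_const, Finset.card_range, nsmul_eq_mul]
        push_cast
        ring

end Pool.Agent.GMU
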