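import Pool.Agent.GMU.St2

set_option autoImplicit false

/-! Main incidence inequality of GMU, part 2: slabs, cells and a hitting set. -/

namespace Pool.Agent.GMU

open Finset Pool.Agent.Helper53.Generic Pool.Agent.Helper60.Gap

/-- Two different unit circles have at most two common points. -/
private lemma STm_two {n : ℕ} (x : Fin n → Plane) (hx : Function.Injective x) (p : Fin n × Fin n)
    (h : p.1 ≠ p.2) :
    ∃ s : ℝ × ℝ, ∀ z : Plane, dist z (x p.1) = 1 → dist z (x p.2) = 1 →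
      z 0 = s.1 ∨ z 0 = s.2 := by
  by_cases h2 : ∃ z₁ z₂ : Plane, z₁ ≠ z₂ ∧ dist z₁ (x p.1) = 1 ∧ dist z₁ (x p.2) = 1 ∧
      dist z₂ (x p.1) = 1 ∧ dist z₂ (x p.2) = 1
  · obtain ⟨z₁, z₂, hne, a1, a2, b1, b2⟩ := h2
    refine ⟨(z₁ 0, z₂ 0), fun z c1 c2 => ?_⟩
    have hfin : Module.finrank ℝ Plane = 2 := by simp
    rcases EuclideanGeometry.eq_of_dist_eq_of_dist_eq_of_finrank_eq_two hfin
      (fun e => h (hx e)) hne a1 b1 c1 a2 b2 c2 with e | e
    · left; rw [e]
    · right; rw [e]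
  · by_cases h1 : ∃ z₁ : Plane, dist z₁ (x p.1) = 1 ∧ dist z₁ (x p.2) = 1
    · obtain ⟨z₁, a1, a2⟩ := h1
      refine ⟨(z₁ 0, z₁ 0), fun z c1 c2 => ?_⟩
      left
      by_contra hcon
      exact h2 ⟨z, z₁, fun e => hcon (by rw [e]), c1, c2, a1, a2⟩
    · exact ⟨(0, 0), fun z c1 c2 => absurd ⟨z, c1, c2⟩ h1⟩

/-- The forbidden abscissae. -/
private lemma STm_forb {n : ℕ} (x : Fin n → Plane) (hx : Function.Injective x)
    (R : Finset (Fin n)) (r : ℕ) (hR : R.card ≤ r) :
    ∃ T : Finset ℝ, T.card ≤ 4 * r ^ 2 ∧ (∀ b ∈ R, x b 0 - 1 ∈ T ∧ x b 0 + 1 ∈ T) ∧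
      ∀ b ∈ R, ∀ b' ∈ R, b ≠ b' → ∀ z : Plane, dist z (x b) = 1 → dist z (x b') = 1 →
        z 0 ∈ T := by
  classical
  have h2 : ∀ p : Fin n × Fin n, ∃ s : ℝ × ℝ, p.1 ≠ p.2 → ∀ z : Plane, dist z (x p.1) = 1 →
      dist z (x p.2) = 1 → z 0 = s.1 ∨ z 0 = s.2 := by
    intro p
    by_cases h : p.1 = p.2
    · exact ⟨(0, 0), fun h' => absurd h h'⟩
    · obtain ⟨s, hs⟩ := STm_two x hx p h
      exact ⟨s, fun _ => hs⟩
  choose s hs using h2
  refine ⟨((R.image fun b => x b 0 - 1) ∪ (R.image fun b => x b 0 + 1)) ∪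
    (((R ×ˢ R).image fun p => (s p).1) ∪ ((R ×ˢ R).image fun p => (s p).2)), ?_, ?_, ?_⟩
  · have h1 : (R.image fun b => x b 0 - 1).card ≤ r := card_image_le.trans hR
    have h2 : (R.image fun b => x b 0 + 1).card ≤ r := card_image_le.trans hR
    have h0 : (R ×ˢ R).card ≤ r * r := by
      rw [card_product]; exact Nat.mul_le_mul hR hR
    have h3 : ((R ×ˢ R).image fun p => (s p).1).card ≤ r * r := card_image_le.trans h0
    have h4 : ((R ×ˢ R).image fun p => (s p).2).card ≤ r * r := card_image_le.trans h0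
    have h5 := card_union_le ((R.image fun b => x b 0 - 1) ∪ (R.image fun b => x b 0 + 1))
      (((R ×ˢ R).image fun p => (s p).1) ∪ ((R ×ˢ R).image fun p => (s p).2))
    have h6 := card_union_le (R.image fun b => x b 0 - 1) (R.image fun b => x b 0 + 1)
    have h7 := card_union_le ((R ×ˢ R).image fun p => (s p).1) ((R ×ˢ R).image fun p => (s p).2)
    have h8 : r ≤ r * r := Nat.le_mul_self r
    have h9 : 4 * r ^ 2 = 4 * (r * r) := by ring
    omega
  · intro b hb
    constructor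
    · exact mem_union_left _ (mem_union_left _ (mem_image_of_mem _ hb))
    · exact mem_union_left _ (mem_union_right _ (mem_image_of_mem _ hb))
  · intro b hb b' hb' hne z h1 h2
    have hp : (b, b') ∈ R ×ˢ R := mem_product.2 ⟨hb, hb'⟩
    rcases hs (b, b') hne z h1 h2 with h | h
    · rw [h]
      exact mem_union_right _ (mem_union_left _ (mem_image.2 ⟨(b, b'), hp, rfl⟩))
    · rw [h]
      exact mem_union_right _ (mem_union_right _ (mem_image.2 ⟨(b, b'), hp, rfl⟩))

/-- The slabs. -/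
private lemma STm_slab {n : ℕ} (x : Fin n → Plane) (hx : StrictMono (fun i => x i 0)) (q : ℕ)
    (hn : 1 ≤ n) (hq : 1 ≤ q) :
    ∃ l h : ℕ → ℝ, (∀ a : Fin n, l (a.val / q) ≤ x a 0 ∧ x a 0 ≤ h (a.val / q)) ∧
      ∀ (a a' : Fin n) (t : ℝ), l (a.val / q) ≤ t → t ≤ h (a.val / q) → l (a'.val / q) ≤ t →
        t ≤ h (a'.val / q) → a.val / q = a'.val / q := by
  have hm : ∀ k, min k (n - 1) < n := fun k => by omega
  obtain ⟨g, hg⟩ : ∃ g : ℕ → ℝ, ∀ k, g k = x ⟨min k (n - 1), hm k⟩ 0 := ⟨_, fun _ => rfl⟩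
  have hmono : ∀ k k', k ≤ k' → g k ≤ g k' := by
    intro k k' h
    rw [hg, hg]
    apply hx.monotone
    rw [Fin.mk_le_mk]
    omega
  have hlt : ∀ k k', k < k' → k' ≤ n - 1 → g k < g k' := by
    intro k k' h h'
    rw [hg, hg]
    apply hx
    rw [Fin.mk_lt_mk]
    omega
  have hval : ∀ a : Fin n, g a.val = x a 0 := by
    intro a
    have e : (⟨min a.val (n - 1), hm a.val⟩ : Fin n) = a := by
      apply Fin.ext
      have := a.isLt
      simp only
      omega
    rw [hg, e]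
  have hdis : ∀ (a a' : Fin n) (t : ℝ), a.val / q < a'.val / q →
      t ≤ g (a.val / q * q + q - 1) → g (a'.val / q * q) ≤ t → False := by
    intro a a' t h1 h2 h3
    have h4 : (a.val / q + 1) * q ≤ a'.val / q * q := Nat.mul_le_mul_right q h1
    have h5 : (a.val / q + 1) * q = a.val / q * q + q := by ring
    have h6 : a'.val / q * q ≤ a'.val := Nat.div_mul_le_self _ _
    have h7 := a'.isLt
    have h8 := hlt (a.val / q * q + q - 1) (a'.val / q * q) (by omega) (by omega)
    linarith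
  refine ⟨fun j => g (j * q), fun j => g (j * q + q - 1), ?_, ?_⟩
  · intro a
    have h1 : a.val / q * q ≤ a.val := Nat.div_mul_le_self _ _
    have h2 : a.val < a.val / q * q + q := Nat.lt_div_mul_add hq
    constructor
    · have := hmono _ _ h1
      rw [hval] at this
      exact this
    · have := hmono a.val (a.val / q * q + q - 1) (by omega)
      rw [hval] at this
      exact this
  · intro a a' t h1 h2 h3 h4
    rcases lt_trichotomy (a.val / q) (a'.val / q) with h | h | h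
    · exact (hdis a a' t h h2 h3).elim
    · exact h
    · exact (hdis a' a t h h4 h1).elim

/-- The indices of one slab. -/
private lemma STm_fib {n : ℕ} (q j : ℕ) (hq : 1 ≤ q) :
    ((univ : Finset (Fin n)).filter fun a => a.val / q = j).card ≤ q := by
  rw [← card_map Fin.valEmbedding]
  have h : (((univ : Finset (Fin n)).filter fun a => a.val / q = j).map Fin.valEmbedding) ⊆
      Finset.Ico (j * q) (j * q + q) := by
    intro k hk
    rw [mem_map] at hk
    obtain ⟨a, ha, rfl⟩ := hk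
    rw [mem_filter] at ha
    rw [mem_Ico, Fin.valEmbedding_apply, ← ha.2]
    exact ⟨Nat.div_mul_le_self _ _, Nat.lt_div_mul_add hq⟩
  refine (card_le_card h).trans ?_
  rw [Nat.card_Ico]
  omega

/-- The indices in bad slabs. -/
private lemma STm_bad {n : ℕ} (q : ℕ) (hq : 1 ≤ q) (l h : ℕ → ℝ) (T : Finset ℝ)
    (hd : ∀ (a a' : Fin n) (t : ℝ), l (a.val / q) ≤ t → t ≤ h (a.val / q) → l (a'.val / q) ≤ t →
        t ≤ h (a'.val / q) → a.val / q = a'.val / q) (P : Finset (Fin n))
    (hP : ∀ a ∈ P, ∃ t ∈ T, l (a.val / q) ≤ t ∧ t ≤ h (a.val / q)) :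
    P.card ≤ T.card * q := by
  classical
  have h1 : P ⊆ T.biUnion fun t => (univ : Finset (Fin n)).filter fun a =>
      l (a.val / q) ≤ t ∧ t ≤ h (a.val / q) := by
    intro a ha
    obtain ⟨t, ht, h1⟩ := hP a ha
    exact mem_biUnion.2 ⟨t, ht, mem_filter.2 ⟨mem_univ _, h1⟩⟩
  refine (card_le_card h1).trans (card_biUnion_le_card_mul _ _ _ ?_)
  intro t _
  by_cases h2 : ∃ a : Fin n, l (a.val / q) ≤ t ∧ t ≤ h (a.val / q)
  · obtain ⟨a, h3, h4⟩ := h2
    refine le_trans (card_le_card ?_) (STm_fib (n := n) q (a.val / q) hq)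
    intro a' ha'
    rw [mem_filter] at ha' ⊢
    exact ⟨mem_univ _, (hd a a' t h3 h4 ha'.2.1 ha'.2.2).symm⟩
  · rw [card_eq_zero.2]
    · exact Nat.zero_le _
    · rw [filter_eq_empty_iff]
      intro a _ h3
      exact h2 ⟨a, h3⟩

/-- The pairs with the first point on a circle of `R`. -/
private lemma STm_on {n : ℕ} (x : Fin n → Plane) (hx : Function.Injective x)
    (R : Finset (Fin n)) (S : Finset (Fin n × Fin n)) (hS : S ⊆ Ed x 1)
    (hon : ∀ p ∈ S, ∃ c ∈ R, dist (x p.1) (x c) = 1) :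
    S.card ≤ R.card * (3 * n) := by
  classical
  have h1 : S ⊆ R.biUnion fun c => (Ed x 1).filter fun p => (p.1, c) ∈ Ed x 1 := by
    intro p hp
    obtain ⟨c, hc, h⟩ := hon p hp
    refine mem_biUnion.2 ⟨c, hc, mem_filter.2 ⟨hS hp, ?_⟩⟩
    unfold Ed
    rw [mem_filter]
    refine ⟨mem_univ _, ?_, h⟩
    intro e
    have e' : p.1 = c := e
    rw [e', dist_self] at h
    exact zero_ne_one h
  refine (card_le_card h1).trans (card_biUnion_le_card_mul _ _ _ ?_)
  intro c _
  rw [card_eq_sum_card_fiberwise (f := fun p : Fin n × Fin n => p.2)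
    (t := (univ : Finset (Fin n))) (fun p _ => mem_coe.2 (mem_univ _))]
  have h2 : ∀ b : Fin n, (((Ed x 1).filter fun p => (p.1, c) ∈ Ed x 1).filter
      fun p => p.2 = b).card ≤ 2 + if b = c then n else 0 := by
    intro b
    have h3 : (((Ed x 1).filter fun p => (p.1, c) ∈ Ed x 1).filter fun p => p.2 = b).card ≤
        ((univ : Finset (Fin n)).filter fun a => (a, b) ∈ Ed x 1 ∧ (a, c) ∈ Ed x 1).card := by
      apply card_le_card_of_injOn (fun p => p.1)
      · intro p hp
        rw [mem_coe, mem_filter, mem_filter] at hp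
        rw [mem_coe, mem_filter]
        refine ⟨mem_univ _, ?_, hp.1.2⟩
        have e : p = (p.1, b) := by rw [← hp.2]
        rw [← e]
        exact hp.1.1
      · intro p hp p' hp' e
        rw [mem_coe, mem_filter, mem_filter] at hp hp'
        exact Prod.ext e (hp.2.trans hp'.2.symm)
    refine h3.trans ?_
    by_cases hb : b = c
    · rw [if_pos hb]
      refine (card_le_univ _).trans ?_
      rw [Fintype.card_fin]
      omega
    · rw [if_neg hb]
      exact circle_two x 1 hx hb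
  refine (sum_le_sum fun b _ => h2 b).trans ?_
  rw [sum_add_distrib, sum_const, card_univ, Fintype.card_fin, sum_ite_eq' univ c,
    if_pos (mem_univ _), smul_eq_mul]
  omega

/-- The arcs of the circles of `R`. -/
private lemma STm_opt {n : ℕ} (R : Finset (Fin n)) (r : ℕ) (hR : R.card ≤ r) :
    ∃ O : Finset (Option (Fin n × Bool)), O.card ≤ 2 * r + 1 ∧ none ∈ O ∧
      ∀ β : Option (Fin n × Bool), (∀ b s, β = some (b, s) → b ∈ R) → β ∈ O := by
  classical
  refine ⟨insertNone (R ×ˢ (univ : Finset Bool)), ?_, none_mem_insertNone, ?_⟩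
  · rw [card_insertNone, card_product, card_univ, Fintype.card_bool]
    omega
  · intro β hβ
    rcases β with _ | ⟨b, s⟩
    · exact none_mem_insertNone
    · rw [some_mem_insertNone, mem_product]
      exact ⟨hβ b s rfl, mem_univ _⟩

/-- The pairs with the first point in a good cell. -/
private lemma STm_cells {n : ℕ} (hKST : St_KST) (x : Fin n → Plane) (hx : Function.Injective x)
    {κ : Type} [DecidableEq κ] (K : Finset κ) (cell : Fin n → κ) (hcell : ∀ a, cell a ∈ K)
    (conf : κ → Finset (Fin n)) (m : ℝ) (hm : 0 ≤ m) (S : Finset (Fin n × Fin n))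
    (hS : S ⊆ Ed x 1) (h1 : ∀ p ∈ S, p.2 ∈ conf (cell p.1))
    (h2 : ∀ p ∈ S, ((conf (cell p.1)).card : ℝ) ≤ m) :
    (S.card : ℝ) ≤ √(2 * m) * n + m * K.card := by
  classical
  have e1 : S.card = ∑ k ∈ K, (S.filter fun p => cell p.1 = k).card :=
    card_eq_sum_card_fiberwise (f := fun p : Fin n × Fin n => cell p.1)
      (fun p _ => mem_coe.2 (hcell p.1))
  have e2 : (univ : Finset (Fin n)).card =
      ∑ k ∈ K, ((univ : Finset (Fin n)).filter fun a => cell a = k).card :=
    card_eq_sum_card_fiberwise (f := cell) (fun a _ => mem_coe.2 (hcell a))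
  rw [card_univ, Fintype.card_fin] at e2
  have e3 : ∀ k ∈ K, ((S.filter fun p => cell p.1 = k).card : ℝ) ≤
      √(2 * m) * (((univ : Finset (Fin n)).filter fun a => cell a = k).card : ℝ) + m := by
    intro k _
    rcases (S.filter fun p => cell p.1 = k).eq_empty_or_nonempty with he | ⟨p0, hp0⟩
    · rw [he, card_empty, Nat.cast_zero]
      positivity
    · rw [mem_filter] at hp0
      have hc : ((conf k).card : ℝ) ≤ m := by
        have := h2 p0 hp0.1
        rw [hp0.2] at this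
        exact this
      have hsub : (S.filter fun p => cell p.1 = k) ⊆ (Ed x 1).filter fun p =>
          p.1 ∈ ((univ : Finset (Fin n)).filter fun a => cell a = k) ∧ p.2 ∈ conf k := by
        intro p hp
        rw [mem_filter] at hp
        rw [mem_filter, mem_filter]
        refine ⟨hS hp.1, ⟨mem_univ _, hp.2⟩, ?_⟩
        have := h1 p hp.1
        rw [hp.2] at this
        exact this
      have h3 : ((S.filter fun p => cell p.1 = k).card : ℝ) ≤ (((Ed x 1).filter fun p =>
          p.1 ∈ ((univ : Finset (Fin n)).filter fun a => cell a = k) ∧ p.2 ∈ conf k).card : ℝ) := by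
        exact_mod_cast card_le_card hsub
      have h4 := (hKST x hx ((univ : Finset (Fin n)).filter fun a => cell a = k) (conf k)).1
      have h5 : √(2 * ((conf k).card : ℝ)) ≤ √(2 * m) := Real.sqrt_le_sqrt (by linarith)
      have h6 : √(2 * ((conf k).card : ℝ)) *
          (((univ : Finset (Fin n)).filter fun a => cell a = k).card : ℝ) ≤
          √(2 * m) * (((univ : Finset (Fin n)).filter fun a => cell a = k).card : ℝ) :=
        mul_le_mul_of_nonneg_right h5 (Nat.cast_nonneg _)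
      linarith
  have e4 : (S.card : ℝ) = ∑ k ∈ K, ((S.filter fun p => cell p.1 = k).card : ℝ) := by
    rw [e1]; push_cast; rfl
  have e5 : (n : ℝ) =
      ∑ k ∈ K, (((univ : Finset (Fin n)).filter fun a => cell a = k).card : ℝ) := by
    exact_mod_cast e2
  rw [e4]
  refine (sum_le_sum e3).trans ?_
  rw [sum_add_distrib, ← mul_sum, ← e5, sum_const, nsmul_eq_mul, mul_comm (K.card : ℝ) m]

theorem thm_STm : St_STm := by
  classical
  intro hHit hCel hKST n x hxm r q m hn hr hq hm hexp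
  have hx : Function.Injective x := by
    intro a a' e
    exact hxm.injective (congrArg (fun z : Plane => z 0) e)
  obtain ⟨l, h, hlh, hd⟩ := STm_slab x hxm q hn hq
  obtain ⟨conf, hconf⟩ : ∃ conf : ℕ × Option (Fin n × Bool) × Option (Fin n × Bool) →
      Finset (Fin n), ∀ k, conf k = univ.filter fun b => ∃ z : Plane, dist z (x b) = 1 ∧
        inR x (l k.1) (h k.1) k.2.1 k.2.2 z := ⟨_, fun _ => rfl⟩
  obtain ⟨F, hF⟩ : ∃ F : Finset (Finset (Fin n)), F =
      ((range (n / q + 1) ×ˢ (univ : Finset (Option (Fin n × Bool) × Option (Fin n × Bool)))).image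
        conf).filter fun S => m ≤ (S.card : ℝ) := ⟨_, rfl⟩
  have hnq : ((n / q + 1 : ℕ) : ℝ) ≤ (n : ℝ) / q + 1 := by
    push_cast
    have := @Nat.cast_div_le ℝ _ _ _ n q
    linarith
  have hnq0 : (0 : ℝ) ≤ (n : ℝ) / q + 1 := by positivity
  have hFc : (F.card : ℝ) ≤ ((n : ℝ) / q + 1) * (2 * n + 1) ^ 2 := by
    have h1 : F.card ≤ (n / q + 1) * (2 * n + 1) ^ 2 := by
      rw [hF]
      refine (card_filter_le _ _).trans (card_image_le.trans ?_)
      rw [card_product, card_range, card_univ, Fintype.card_prod, Fintype.card_option,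
        Fintype.card_prod, Fintype.card_fin, Fintype.card_bool]
      apply le_of_eq
      ring
    have h2 : (F.card : ℝ) ≤ ((n / q + 1 : ℕ) : ℝ) * (2 * n + 1) ^ 2 := by exact_mod_cast h1
    exact h2.trans (mul_le_mul_of_nonneg_right hnq (by positivity))
  obtain ⟨R, hR, hit⟩ := hHit n r F m hn hm (fun S hS => by
    rw [hF] at hS
    exact (mem_filter.1 hS).2) (lt_of_le_of_lt (mul_le_mul_of_nonneg_right hFc
      (Real.exp_pos _).le) hexp)
  obtain ⟨T, hTc, hT1, hT2⟩ := STm_forb x hx R r hR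
  obtain ⟨O, hOc, hO1, hO2⟩ := STm_opt R r hR
  -- the cells
  have hch : ∀ a : Fin n, ∃ k : Option (Fin n × Bool) × Option (Fin n × Bool),
      k.1 ∈ O ∧ k.2 ∈ O ∧ ((¬ ∃ c ∈ R, dist (x a) (x c) = 1) →
        (¬ ∃ t ∈ T, l (a.val / q) ≤ t ∧ t ≤ h (a.val / q)) →
        inR x (l (a.val / q)) (h (a.val / q)) k.1 k.2 (x a) ∧
          ∀ b ∈ R, ∀ z : Plane, dist z (x b) = 1 →
            ¬ inR x (l (a.val / q)) (h (a.val / q)) k.1 k.2 z) := by
    intro a
    by_cases h1 : ∃ c ∈ R, dist (x a) (x c) = 1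
    · exact ⟨(none, none), hO1, hO1, fun h' => absurd h1 h'⟩
    by_cases h2 : ∃ t ∈ T, l (a.val / q) ≤ t ∧ t ≤ h (a.val / q)
    · exact ⟨(none, none), hO1, hO1, fun _ h' => absurd h2 h'⟩
    have hout : ∀ t ∈ T, t < l (a.val / q) ∨ h (a.val / q) < t := by
      intro t ht
      by_contra hcon
      push Not at hcon
      exact h2 ⟨t, ht, hcon⟩
    obtain ⟨β, τ, g1, g2, g3, g4⟩ := hCel x hx R (l (a.val / q)) (h (a.val / q))
      (fun b hb => ⟨hout _ (hT1 b hb).1, hout _ (hT1 b hb).2⟩)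
      (fun b hb b' hb' hne z e1 e2 => hout _ (hT2 b hb b' hb' hne z e1 e2))
      (x a) (hlh a).1 (hlh a).2 (fun b hb e => h1 ⟨b, hb, e⟩)
    exact ⟨(β, τ), hO2 β g1, hO2 τ g2, fun _ _ => ⟨g3, g4⟩⟩
  choose bt hbt using hch
  -- the three parts
  obtain ⟨S1, hS1⟩ : ∃ S1 : Finset (Fin n × Fin n), S1 = (Ed x 1).filter fun p =>
      ∃ c ∈ R, dist (x p.1) (x c) = 1 := ⟨_, rfl⟩
  obtain ⟨P, hP⟩ : ∃ P : Finset (Fin n), P = univ.filter fun a =>
      ∃ t ∈ T, l (a.val / q) ≤ t ∧ t ≤ h (a.val / q) := ⟨_, rfl⟩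
  obtain ⟨S2, hS2⟩ : ∃ S2 : Finset (Fin n × Fin n), S2 = (Ed x 1).filter fun p =>
      p.1 ∈ P ∧ p.2 ∈ (univ : Finset (Fin n)) := ⟨_, rfl⟩
  obtain ⟨S3, hS3⟩ : ∃ S3 : Finset (Fin n × Fin n), S3 = (Ed x 1).filter fun p =>
      (¬ ∃ c ∈ R, dist (x p.1) (x c) = 1) ∧
        ¬ ∃ t ∈ T, l (p.1.val / q) ≤ t ∧ t ≤ h (p.1.val / q) := ⟨_, rfl⟩
  have hcov : Ed x 1 ⊆ S1 ∪ (S2 ∪ S3) := by
    intro p hp
    rw [mem_union, mem_union]
    by_cases h1 : ∃ c ∈ R, dist (x p.1) (x c) = 1
    · left; rw [hS1]; exact mem_filter.2 ⟨hp, h1⟩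
    by_cases h2 : ∃ t ∈ T, l (p.1.val / q) ≤ t ∧ t ≤ h (p.1.val / q)
    · right; left
      rw [hS2, hP]
      exact mem_filter.2 ⟨hp, mem_filter.2 ⟨mem_univ _, h2⟩, mem_univ _⟩
    · right; right
      rw [hS3]
      exact mem_filter.2 ⟨hp, h1, h2⟩
  have hcard : ((Ed x 1).card : ℝ) ≤ S1.card + (S2.card + S3.card) := by
    have h1 := card_le_card hcov
    have h2 := card_union_le S1 (S2 ∪ S3)
    have h3 := card_union_le S2 S3
    exact_mod_cast (by omega : (Ed x 1).card ≤ S1.card + (S2.card + S3.card))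
  -- first part
  have b1 : (S1.card : ℝ) ≤ 3 * r * n := by
    have h1 : S1.card ≤ R.card * (3 * n) := by
      apply STm_on x hx R S1
      · rw [hS1]; exact filter_subset _ _
      · intro p hp
        rw [hS1] at hp
        exact (mem_filter.1 hp).2
    have h2 : S1.card ≤ r * (3 * n) := h1.trans (Nat.mul_le_mul_right _ hR)
    have h3 : (S1.card : ℝ) ≤ (r : ℝ) * (3 * n) := by exact_mod_cast h2
    linarith
  -- second part
  have b2 : (S2.card : ℝ) ≤ √(8 * (r : ℝ) ^ 2 * q) * n + 4 * (r : ℝ) ^ 2 * q := by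
    have h1 : P.card ≤ T.card * q := by
      apply STm_bad q hq l h T hd P
      intro a ha
      rw [hP] at ha
      exact (mem_filter.1 ha).2
    have h2 : P.card ≤ 4 * r ^ 2 * q := h1.trans (Nat.mul_le_mul_right _ hTc)
    have h3 : (P.card : ℝ) ≤ 4 * (r : ℝ) ^ 2 * q := by exact_mod_cast h2
    have h4 := (hKST x hx P univ).2
    rw [← hS2, card_univ, Fintype.card_fin] at h4
    have h5 : √(2 * (P.card : ℝ)) ≤ √(8 * (r : ℝ) ^ 2 * q) := Real.sqrt_le_sqrt (by linarith)
    have h6 : √(2 * (P.card : ℝ)) * n ≤ √(8 * (r : ℝ) ^ 2 * q) * n :=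
      mul_le_mul_of_nonneg_right h5 (Nat.cast_nonneg _)
    linarith
  -- third part
  have b3 : (S3.card : ℝ) ≤ √(2 * m) * n + m * (((n : ℝ) / q + 1) * (2 * r + 1) ^ 2) := by
    have hmem : ∀ p ∈ S3, (p ∈ Ed x 1 ∧ (¬ ∃ c ∈ R, dist (x p.1) (x c) = 1) ∧
        ¬ ∃ t ∈ T, l (p.1.val / q) ≤ t ∧ t ≤ h (p.1.val / q)) := by
      intro p hp
      rw [hS3] at hp
      exact mem_filter.1 hp
    have h1 := STm_cells hKST x hx (range (n / q + 1) ×ˢ (O ×ˢ O))
      (fun a => ((a.val / q, bt a) : ℕ × Option (Fin n × Bool) × Option (Fin n × Bool)))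
      (fun a => by
        rw [mem_product, mem_product, mem_range]
        refine ⟨?_, (hbt a).1, (hbt a).2.1⟩
        have := Nat.div_le_div_right (c := q) a.isLt.le
        exact Nat.lt_succ_of_le this) conf m hm S3 (fun p hp => (hmem p hp).1)
      (fun p hp => by
        obtain ⟨g1, g2, g3⟩ := hmem p hp
        rw [hconf, mem_filter]
        refine ⟨mem_univ _, x p.1, ?_, ((hbt p.1).2.2 g2 g3).1⟩
        unfold Ed at g1
        exact (mem_filter.1 g1).2.2)
      (fun p hp => by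
        obtain ⟨g1, g2, g3⟩ := hmem p hp
        by_contra hcon
        push Not at hcon
        have g4 : conf (p.1.val / q, bt p.1) ∈ F := by
          rw [hF, mem_filter]
          refine ⟨mem_image.2 ⟨(p.1.val / q, bt p.1), ?_, rfl⟩, hcon.le⟩
          rw [mem_product, mem_range]
          refine ⟨?_, mem_univ _⟩
          have := Nat.div_le_div_right (c := q) p.1.isLt.le
          exact Nat.lt_succ_of_le this
        obtain ⟨b, hb1, hb2⟩ := hit _ g4
        rw [hconf, mem_filter] at hb1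
        obtain ⟨-, z, hz1, hz2⟩ := hb1
        exact ((hbt p.1).2.2 g2 g3).2 b hb2 z hz1 hz2)
    have h2 : ((range (n / q + 1) ×ˢ (O ×ˢ O)).card : ℝ) ≤
        ((n : ℝ) / q + 1) * (2 * r + 1) ^ 2 := by
      rw [card_product, card_range, card_product]
      have h3 : (n / q + 1) * (O.card * O.card) ≤ (n / q + 1) * ((2 * r + 1) * (2 * r + 1)) :=
        Nat.mul_le_mul_left _ (Nat.mul_le_mul hOc hOc)
      have h4 : (((n / q + 1) * (O.card * O.card) : ℕ) : ℝ) ≤
          ((n / q + 1 : ℕ) : ℝ) * ((2 * r + 1) * (2 * r + 1)) := by exact_mod_cast h3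
      have h5 : ((n / q + 1 : ℕ) : ℝ) * ((2 * r + 1) * (2 * r + 1)) ≤
          ((n : ℝ) / q + 1) * ((2 * r + 1) * (2 * r + 1)) :=
        mul_le_mul_of_nonneg_right hnq (by positivity)
      have h6 : ((n : ℝ) / q + 1) * (2 * r + 1) ^ 2 =
        ((n : ℝ) / q + 1) * ((2 * r + 1) * (2 * r + 1)) := by ring
      rw [h6]
      exact h4.trans h5
    have h7 := mul_le_mul_of_nonneg_left h2 hm
    linarith
  linarith

end Pool.Agent.GMU
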