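import Pool.Agent.GMU.St2

/-!
# GMU: numerics for the weak Szemeredi-Trotter bound (module STn, helper47)
-/

set_option autoImplicit false

namespace Pool.Agent.GMU

open Finset Pool.Agent.Helper53.Generic Pool.Agent.Helper60.Gap

/-- the logarithm -/
private theorem STn_log (t n : ℝ) (hn : 1 ≤ n) (ht : t = n ^ (1 / 100 : ℝ)) :
    Real.log (2 * n + 1) ≤ 150 * t ^ 2 := by
  have hn0 : 0 ≤ n := by linarith
  have h1 := Real.log_le_rpow_div (x := 2 * n + 1) (ε := 1 / 50) (by linarith) (by norm_num)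
  have h2 : (2 * n + 1) ^ (1 / 50 : ℝ) ≤ (3 * n) ^ (1 / 50 : ℝ) :=
    Real.rpow_le_rpow (by linarith) (by linarith) (by norm_num)
  have h3 : (3 * n) ^ (1 / 50 : ℝ) = 3 ^ (1 / 50 : ℝ) * n ^ (1 / 50 : ℝ) :=
    Real.mul_rpow (by norm_num) hn0
  have h4 : (3 : ℝ) ^ (1 / 50 : ℝ) ≤ 3 := by
    calc (3 : ℝ) ^ (1 / 50 : ℝ) ≤ 3 ^ (1 : ℝ) :=
          Real.rpow_le_rpow_of_exponent_le (by norm_num) (by norm_num)
      _ = 3 := Real.rpow_one 3
  have h5 : t ^ 2 = n ^ (1 / 50 : ℝ) := by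
    rw [ht, ← Real.rpow_natCast, ← Real.rpow_mul hn0]
    norm_num
  have h6 : 0 ≤ n ^ (1 / 50 : ℝ) := Real.rpow_nonneg hn0 _
  have h7 : (2 * n + 1) ^ (1 / 50 : ℝ) ≤ 3 * n ^ (1 / 50 : ℝ) := by
    rw [h3] at h2
    exact h2.trans (mul_le_mul_of_nonneg_right h4 h6)
  rw [h5]
  have h8 : (2 * n + 1) ^ (1 / 50 : ℝ) / (1 / 50) = 50 * (2 * n + 1) ^ (1 / 50 : ℝ) := by ring
  rw [h8] at h1
  linarith

/-- the sum of the terms -/
private theorem STn_sum (t n r q m L : ℝ) (ht : 1 ≤ t) (hn : n = t ^ 100) (hr1 : t ^ 10 ≤ r)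
    (hr2 : r ≤ 2 * t ^ 10) (hq1 : t ^ 70 ≤ q) (hq2 : q ≤ 2 * t ^ 70) (hL0 : 0 ≤ L)
    (hL : L ≤ 150 * t ^ 2) (hm : m = 6 * (n / r) * L) :
    3 * r * n + (√(8 * r ^ 2 * q) * n + 4 * r ^ 2 * q) +
      (√(2 * m) * n + m * ((n / q + 1) * (2 * r + 1) ^ 2)) ≤ 50000 * t ^ 146 := by
  have ht0 : 0 < t := by linarith
  have hp : ∀ k : ℕ, 0 < t ^ k := fun k => pow_pos ht0 k
  have hmono : ∀ k : ℕ, k ≤ 146 → t ^ k ≤ t ^ 146 := fun k hk => pow_le_pow_right₀ ht hk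
  have hr0 : 0 < r := lt_of_lt_of_le (hp 10) hr1
  have hq0 : 0 < q := lt_of_lt_of_le (hp 70) hq1
  have hn0 : 0 < n := by rw [hn]; exact hp 100
  have hr2q : r ^ 2 * q ≤ 8 * t ^ 90 := by
    calc r ^ 2 * q ≤ (2 * t ^ 10) ^ 2 * (2 * t ^ 70) := by
          apply mul_le_mul _ hq2 hq0.le (by positivity)
          exact pow_le_pow_left₀ hr0.le hr2 2
      _ = 8 * t ^ 90 := by ring
  have e1 : 3 * r * n ≤ 6 * t ^ 146 := by
    calc 3 * r * n ≤ 3 * (2 * t ^ 10) * n := by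
          apply mul_le_mul_of_nonneg_right _ hn0.le
          linarith
      _ = 6 * t ^ 110 := by rw [hn]; ring
      _ ≤ 6 * t ^ 146 := mul_le_mul_of_nonneg_left (hmono 110 (by norm_num)) (by norm_num)
  have e2 : √(8 * r ^ 2 * q) * n ≤ 8 * t ^ 146 := by
    have h1 : √(8 * r ^ 2 * q) ≤ 8 * t ^ 45 := by
      apply Real.sqrt_le_iff.mpr
      refine ⟨by positivity, ?_⟩
      calc 8 * r ^ 2 * q = 8 * (r ^ 2 * q) := by ring
        _ ≤ 8 * (8 * t ^ 90) := mul_le_mul_of_nonneg_left hr2q (by norm_num)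
        _ = (8 * t ^ 45) ^ 2 := by ring
    calc √(8 * r ^ 2 * q) * n ≤ 8 * t ^ 45 * n := mul_le_mul_of_nonneg_right h1 hn0.le
      _ = 8 * t ^ 145 := by rw [hn]; ring
      _ ≤ 8 * t ^ 146 := mul_le_mul_of_nonneg_left (hmono 145 (by norm_num)) (by norm_num)
  have e3 : 4 * r ^ 2 * q ≤ 32 * t ^ 146 := by
    calc 4 * r ^ 2 * q = 4 * (r ^ 2 * q) := by ring
      _ ≤ 4 * (8 * t ^ 90) := mul_le_mul_of_nonneg_left hr2q (by norm_num)
      _ = 32 * t ^ 90 := by ring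
      _ ≤ 32 * t ^ 146 := mul_le_mul_of_nonneg_left (hmono 90 (by norm_num)) (by norm_num)
  have hnr : n / r ≤ t ^ 90 := by
    rw [div_le_iff₀ hr0]
    calc n = t ^ 90 * t ^ 10 := by rw [hn]; ring
      _ ≤ t ^ 90 * r := mul_le_mul_of_nonneg_left hr1 (hp 90).le
  have hnr0 : 0 ≤ n / r := by positivity
  have hm0 : 0 ≤ m := by
    rw [hm]
    positivity
  have hm1 : m ≤ 900 * t ^ 92 := by
    rw [hm]
    calc 6 * (n / r) * L ≤ 6 * t ^ 90 * (150 * t ^ 2) := by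
          apply mul_le_mul _ hL hL0 (by positivity)
          linarith
      _ = 900 * t ^ 92 := by ring
  have e4 : √(2 * m) * n ≤ 43 * t ^ 146 := by
    have h1 : √(2 * m) ≤ 43 * t ^ 46 := by
      apply Real.sqrt_le_iff.mpr
      refine ⟨by positivity, ?_⟩
      have h2 : (43 * t ^ 46) ^ 2 = 1849 * t ^ 92 := by ring
      rw [h2]
      have := hp 92
      linarith
    calc √(2 * m) * n ≤ 43 * t ^ 46 * n := mul_le_mul_of_nonneg_right h1 hn0.le
      _ = 43 * t ^ 146 := by rw [hn]; ring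
  have e5 : m * ((n / q + 1) * (2 * r + 1) ^ 2) ≤ 45000 * t ^ 146 := by
    have h1 : n / q ≤ t ^ 30 := by
      rw [div_le_iff₀ hq0]
      calc n = t ^ 30 * t ^ 70 := by rw [hn]; ring
        _ ≤ t ^ 30 * q := mul_le_mul_of_nonneg_left hq1 (hp 30).le
    have h30 : 1 ≤ t ^ 30 := one_le_pow₀ ht
    have h10 : 1 ≤ t ^ 10 := one_le_pow₀ ht
    have h2 : n / q + 1 ≤ 2 * t ^ 30 := by linarith
    have h3 : (2 * r + 1) ^ 2 ≤ (5 * t ^ 10) ^ 2 :=
      pow_le_pow_left₀ (by linarith) (by linarith) 2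
    calc m * ((n / q + 1) * (2 * r + 1) ^ 2)
        ≤ 900 * t ^ 92 * (2 * t ^ 30 * (5 * t ^ 10) ^ 2) := by
          apply mul_le_mul hm1 _ (by positivity) (by positivity)
          exact mul_le_mul h2 h3 (by positivity) (by positivity)
      _ = 45000 * t ^ 142 := by ring
      _ ≤ 45000 * t ^ 146 := mul_le_mul_of_nonneg_left (hmono 142 (by norm_num)) (by norm_num)
  have := hp 146
  linarith

theorem thm_STn : St_STn := by
  intro hUsp hSrt hHit hCel hKST hSTm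
  refine ⟨50000, by norm_num, ?_⟩
  intro n
  rcases Nat.eq_zero_or_pos n with h0 | hn
  · subst h0
    obtain ⟨A, hA, hAf⟩ := hUsp.1 0
    have h1 := f_le A 1
    rw [hA, hAf] at h1
    have h2 : u 0 = 0 := by omega
    rw [h2, Nat.cast_zero]
    positivity
  · obtain ⟨x, hx, hE⟩ := hSrt hUsp n
    have hn1 : (1 : ℝ) ≤ n := by exact_mod_cast hn
    have hn0 : (0 : ℝ) ≤ n := by linarith
    obtain ⟨t, ht⟩ : ∃ t : ℝ, t = (n : ℝ) ^ (1 / 100 : ℝ) := ⟨_, rfl⟩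
    have ht1 : 1 ≤ t := by
      rw [ht]
      exact Real.one_le_rpow hn1 (by norm_num)
    have ht100 : (n : ℝ) = t ^ 100 := by
      rw [ht, ← Real.rpow_natCast, ← Real.rpow_mul hn0]
      norm_num
    have ht146 : (n : ℝ) ^ (73 / 50 : ℝ) = t ^ 146 := by
      rw [ht, ← Real.rpow_natCast, ← Real.rpow_mul hn0]
      norm_num
    have h10 : 1 ≤ t ^ 10 := one_le_pow₀ ht1
    have h70 : 1 ≤ t ^ 70 := one_le_pow₀ ht1
    obtain ⟨r, hrdef⟩ : ∃ r : ℕ, r = ⌈t ^ 10⌉₊ := ⟨_, rfl⟩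
    obtain ⟨q, hqdef⟩ : ∃ q : ℕ, q = ⌈t ^ 70⌉₊ := ⟨_, rfl⟩
    have hr1 : t ^ 10 ≤ (r : ℝ) := by rw [hrdef]; exact Nat.le_ceil _
    have hq1 : t ^ 70 ≤ (q : ℝ) := by rw [hqdef]; exact Nat.le_ceil _
    have hr2 : (r : ℝ) ≤ 2 * t ^ 10 := by
      have := Nat.ceil_lt_add_one (a := t ^ 10) (by linarith)
      rw [← hrdef] at this
      linarith
    have hq2 : (q : ℝ) ≤ 2 * t ^ 70 := by
      have := Nat.ceil_lt_add_one (a := t ^ 70) (by linarith)
      rw [← hqdef] at this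
      linarith
    have hr : 1 ≤ r := by
      have : (1 : ℝ) ≤ r := h10.trans hr1
      exact_mod_cast this
    have hq : 1 ≤ q := by
      have : (1 : ℝ) ≤ q := h70.trans hq1
      exact_mod_cast this
    have hr0 : (0 : ℝ) < r := by linarith
    have hq0 : (0 : ℝ) < q := by linarith
    have hL0 : 0 ≤ Real.log (2 * (n : ℝ) + 1) := Real.log_nonneg (by linarith)
    have hL := STn_log t n hn1 ht
    obtain ⟨m, hm⟩ : ∃ m : ℝ, m = 6 * ((n : ℝ) / r) * Real.log (2 * (n : ℝ) + 1) := ⟨_, rfl⟩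
    have hm0 : 0 ≤ m := by
      rw [hm]
      positivity
    have hexp : Real.exp (-((r : ℝ) * m / n)) = ((2 * (n : ℝ) + 1) ^ 6)⁻¹ := by
      have h1 : (r : ℝ) * m / n = ((6 : ℕ) : ℝ) * Real.log (2 * (n : ℝ) + 1) := by
        rw [hm]
        have : (n : ℝ) ≠ 0 := by linarith
        have : (r : ℝ) ≠ 0 := hr0.ne'
        push_cast
        field_simp
      rw [h1, Real.exp_neg, Real.exp_nat_mul, Real.exp_log (by linarith)]
    have hcond : ((n : ℝ) / q + 1) * (2 * n + 1) ^ 2 * Real.exp (-((r : ℝ) * m / n)) < 1 := by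
      rw [hexp]
      have ha : (1 : ℝ) < 2 * n + 1 := by linarith
      have ha0 : (0 : ℝ) < 2 * n + 1 := by linarith
      have h1 : (n : ℝ) / q ≤ n := div_le_self hn0 (by exact_mod_cast hq)
      have h2 : (n : ℝ) / q + 1 ≤ 2 * n + 1 := by linarith
      calc ((n : ℝ) / q + 1) * (2 * n + 1) ^ 2 * ((2 * (n : ℝ) + 1) ^ 6)⁻¹
          ≤ (2 * n + 1) * (2 * n + 1) ^ 2 * ((2 * (n : ℝ) + 1) ^ 6)⁻¹ := by
            apply mul_le_mul_of_nonneg_right _ (by positivity)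
            exact mul_le_mul_of_nonneg_right h2 (by positivity)
        _ = ((2 * (n : ℝ) + 1) ^ 3)⁻¹ := by
            field_simp
        _ < 1 := inv_lt_one_of_one_lt₀ (one_lt_pow₀ ha (by norm_num))
    have h := hSTm hHit hCel hKST x hx r q m hn hr hq hm0 hcond
    have h2 := STn_sum t n r q m _ ht1 ht100 hr1 hr2 hq1 hq2 hL0 hL hm
    rw [ht146]
    have h3 : ((Ed x 1).card : ℝ) = 2 * (u n : ℝ) := by
      rw [hE]
      push_cast
      rfl
    have h4 : (0 : ℝ) ≤ (u n : ℝ) := Nat.cast_nonneg _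
    linarith

end Pool.Agent.GMU
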