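import Pool.Agent.GMU.St2

/-!
# GMU, part 2: existence of good signs, general bound for the variances (helper18; adapted from StA.lean)
-/

set_option autoImplicit false

namespace Pool.Agent.GMU

open Finset Pool.Agent.Helper53.Generic Pool.Agent.Helper60.Gap

private lemma StB_nb_le {n : ℕ} (x : Fin n → Plane) (U : Finset (Fin n)) (a : Fin n) :
    (nb x U a).card ≤ dg x 1 a := by
  unfold nb dg
  refine card_le_card_of_injOn (fun j => (a, j)) ?_ ?_
  · intro j hj
    simp only [coe_filter, Set.mem_ofPred_eq] at hj ⊢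
    exact ⟨hj.2, trivial⟩
  · intro j _ j' _ h
    exact (Prod.mk.inj h).2

/-- the numerical facts on `φ` -/
private lemma StB_num (n E : ℝ) (hn : 1 ≤ n) (hE : n ≤ E) :
    0 < √(n / E) / 2 ∧ √(n / E) / 2 ≤ 1 / 2 ∧ (√(n / E) / 2) ^ 2 = n / (4 * E) ∧
    √(n / E) / 2 * E = √(n * E) / 2 := by
  have hn0 : 0 < n := by linarith
  have hE0 : 0 < E := by linarith
  have h1 : √(n / E) ^ 2 = n / E := Real.sq_sqrt (by positivity)
  refine ⟨by positivity, ?_, ?_, ?_⟩
  · have h2 : √(n / E) ≤ 1 := by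
      rw [Real.sqrt_le_one]
      exact (div_le_one hE0).2 hE
    linarith
  · rw [div_pow, h1]
    field_simp
    norm_num
  · have h2 : √(n / E) * E = √(n * E) := by
      have h3 : n * E = (n / E) * E ^ 2 := by field_simp
      rw [h3, Real.sqrt_mul (by positivity), Real.sqrt_sq hE0.le]
    rw [← h2]
    ring

/-- the bad events -/
private noncomputable def StB_bad {n k : ℕ} (h : (Fin n → Fin 2) → ℝ) (lam : ℝ) :
    Finset (Fin k → Fin n → Fin 2) :=
  Finset.univ.filter fun ω => (k : ℝ) * lam ≤ ∑ i, (h (ω i) - (∑ ω', h ω') / ((2 : ℕ) : ℝ) ^ n)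

theorem thm_StB : St_StB := by
  intro hKT hExp hCos hMean hDiff n k x hx hn hk hnE hEd U W hUW hW h3 V hV0 hvar D hD
  set E : ℝ := ((Ed x 1).card : ℝ) with hEdef
  have hn1 : (1 : ℝ) ≤ n := by exact_mod_cast hn
  have hn0 : (0 : ℝ) < n := by linarith
  have hE1 : (n : ℝ) ≤ E := by rw [hEdef]; exact_mod_cast hnE
  have hE0 : (0 : ℝ) < E := by linarith
  obtain ⟨hφ0, hφ1, hφ2, hφ3⟩ := StB_num n E hn1 hE1
  set φ : ℝ := √((n : ℝ) / E) / 2 with hφ
  set r : ℝ := √((n : ℝ) * E) with hr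
  have hr0 : 0 < r := Real.sqrt_pos.2 (by positivity)
  have hr2 : r ^ 2 = n * E := Real.sq_sqrt (by positivity)
  set lam : ℝ := r / 2048 with hlam
  have hlam0 : 0 ≤ lam := by positivity
  have hexp : (k : ℝ) * lam ^ 2 / (2 * V) = (k : ℝ) * (n * E) / (8388608 * V) := by
    rw [hlam, div_pow, hr2]
    field_simp
    norm_num
  -- the degrees
  have hm1 : ∀ a ∈ W, (nb x U a).card ≤ 4 * (Ed x 1).card / n := by
    intro a ha
    refine (StB_nb_le x U a).trans ?_
    rw [Nat.le_div_iff_mul_le (by omega), mul_comm]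
    exact hW a ha
  have hm2 : ((4 * (Ed x 1).card / n : ℕ) : ℝ) * φ ^ 2 ≤ 1 := by
    have h1 : ((4 * (Ed x 1).card / n : ℕ) : ℝ) ≤ 4 * E / n := by
      refine (Nat.cast_div_le).trans (le_of_eq ?_)
      rw [hEdef]
      push_cast
      ring
    calc ((4 * (Ed x 1).card / n : ℕ) : ℝ) * φ ^ 2 ≤ 4 * E / n * φ ^ 2 :=
          mul_le_mul_of_nonneg_right h1 (sq_nonneg _)
      _ = 1 := by
          rw [hφ2]
          field_simp
  obtain ⟨hme1, hme2⟩ := hMean hExp hCos x hx U W φ (4 * (Ed x 1).card / n) hUW hφ0 hφ1 hm1 hm2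
  have hLc : ∀ d c, 0 ≤ Lc x W φ d c := by
    intro d c
    unfold Lc
    have := hφ0.le
    positivity
  -- the number of bad `ω`
  have hbad : ∀ (s : ℝ) (d : ℝ), s = 1 ∨ s = -1 →
      ((StB_bad (k := k) (fun ω => s * hh x U W φ d ω) lam).card : ℝ) ≤
        (((2 : ℕ) : ℝ) ^ n) ^ k * Real.exp (-((k : ℝ) * (n * E) / (8388608 * V))) := by
    intro s d hs
    have h1 := hKT (q := 2) (by norm_num) n k (fun _ ω => s * hh x U W φ d ω)
      (fun _ c => Lc x W φ d c) V lam (fun _ c => hLc d c) ?_ (fun _ => hvar d) hV0 hlam0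
    · rw [hexp] at h1
      exact h1
    · intro _ a ω ω' hω
      have h2 := hDiff x U W φ d hUW hφ0.le a ω ω' hω
      have h4 : s * hh x U W φ d ω - s * hh x U W φ d ω' =
          s * (hh x U W φ d ω - hh x U W φ d ω') := by ring
      rw [h4, abs_mul]
      have h5 : |s| = 1 := by
        rcases hs with rfl | rfl <;> norm_num
      rw [h5, one_mul]
      exact h2
  -- a good `ω`
  set B : Finset (Fin k → Fin n → Fin 2) :=
    (D.filter fun d => d ≠ 1).biUnion (fun d => StB_bad (fun ω => 1 * hh x U W φ d ω) lam) ∪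
      StB_bad (fun ω => (-1) * hh x U W φ 1 ω) lam with hB
  have hBc : (B.card : ℝ) < (((2 : ℕ) : ℝ) ^ n) ^ k := by
    have h1 : B.card ≤ ∑ d ∈ D.filter (fun d => d ≠ 1),
        (StB_bad (k := k) (fun ω => 1 * hh x U W φ d ω) lam).card +
        (StB_bad (k := k) (fun ω => (-1) * hh x U W φ 1 ω) lam).card :=
      (card_union_le _ _).trans (Nat.add_le_add_right card_biUnion_le _)
    set t : ℝ := (((2 : ℕ) : ℝ) ^ n) ^ k * Real.exp (-((k : ℝ) * (n * E) / (8388608 * V))) with ht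
    have ht0 : 0 ≤ t := by positivity
    have h2 : (B.card : ℝ) ≤ ∑ d ∈ D.filter (fun d => d ≠ 1), t + t := by
      refine (Nat.cast_le (α := ℝ).2 h1).trans ?_
      push_cast
      refine add_le_add (sum_le_sum fun d _ => hbad 1 d (Or.inl rfl)) (hbad (-1) 1 (Or.inr rfl))
    have h4 : ∑ _d ∈ D.filter (fun d => d ≠ 1), t + t ≤ ((D.card : ℝ) + 1) * t := by
      rw [sum_const, nsmul_eq_mul]
      have h5 : ((D.filter fun d => d ≠ 1).card : ℝ) ≤ D.card := by
        exact_mod_cast card_filter_le _ _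
      nlinarith
    have h6 : ((D.card : ℝ) + 1) * t < (((2 : ℕ) : ℝ) ^ n) ^ k := by
      have h7 : (0 : ℝ) < (((2 : ℕ) : ℝ) ^ n) ^ k := by positivity
      calc ((D.card : ℝ) + 1) * t = (((2 : ℕ) : ℝ) ^ n) ^ k *
            (((D.card : ℝ) + 1) * Real.exp (-((k : ℝ) * (n * E) / (8388608 * V)))) := by rw [ht]; ring
        _ < (((2 : ℕ) : ℝ) ^ n) ^ k * 1 := mul_lt_mul_of_pos_left hD h7
        _ = _ := mul_one _
    exact (h2.trans h4).trans_lt h6
  obtain ⟨ω, hω⟩ : ∃ ω : Fin k → Fin n → Fin 2, ω ∉ B := by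
    by_contra hcon
    have h1 : B = univ := eq_univ_of_forall fun ω => by
      by_contra hc
      exact hcon ⟨ω, hc⟩
    rw [h1, card_univ, Fintype.card_fun, Fintype.card_fun, Fintype.card_fin, Fintype.card_fin,
      Fintype.card_fin] at hBc
    push_cast at hBc
    exact lt_irrefl _ hBc
  rw [hB, mem_union, not_or] at hω
  refine ⟨φ, ω, ?_, ?_⟩
  · intro d hd hd1
    have h1 : ω ∉ StB_bad (fun ω => 1 * hh x U W φ d ω) lam := fun hc =>
      hω.1 (mem_biUnion.2 ⟨d, mem_filter.2 ⟨hd, hd1⟩, hc⟩)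
    simp only [StB_bad, mem_filter, mem_univ, true_and, not_le, one_mul, sum_sub_distrib,
      sum_const, card_univ, Fintype.card_fin, nsmul_eq_mul, Nat.cast_ofNat] at h1
    have h2 := hme1 d hd1
    have h4 : (1 + 2 * φ ^ 2) / 4 * ((Ed x d).card : ℝ) ≤ E / 4 + n / 8 := by
      have h5 : ((Ed x d).card : ℝ) ≤ E := by rw [hEdef]; exact_mod_cast hEd d
      calc (1 + 2 * φ ^ 2) / 4 * ((Ed x d).card : ℝ) ≤ (1 + 2 * φ ^ 2) / 4 * E :=
            mul_le_mul_of_nonneg_left h5 (by positivity)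
        _ = E / 4 + n / 8 := by
            rw [hφ2]
            field_simp
            ring
    have hk0 : (0 : ℝ) ≤ k := Nat.cast_nonneg _
    have h6 : (k : ℝ) * ((∑ ω, hh x U W φ d ω) / 2 ^ n) ≤ k * (E / 4 + n / 8) :=
      mul_le_mul_of_nonneg_left (h2.trans h4) hk0
    have h7 : (k : ℝ) * (E / 4 + n / 8 + r / 2048) = k * (E / 4 + n / 8) + k * lam := by
      rw [hlam]
      ring
    rw [h7]
    linarith
  · have h1 := hω.2
    simp only [StB_bad, mem_filter, mem_univ, true_and, not_le, neg_mul, one_mul,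
      sum_neg_distrib, Nat.cast_ofNat, neg_div, sub_neg_eq_add] at h1
    rw [sum_add_distrib, sum_neg_distrib, sum_const, card_univ, Fintype.card_fin,
      nsmul_eq_mul] at h1
    have hk0 : (0 : ℝ) ≤ k := Nat.cast_nonneg _
    have h4 : E / 4 + 12 / 2048 * r ≤ (∑ ω, hh x U W φ 1 ω) / 2 ^ n := by
      refine le_trans ?_ hme2
      have h5 : 3 * E ≤ 32 * ((∑ a ∈ W, (nb x U a).card : ℕ) : ℝ) := by
        rw [hEdef]
        exact_mod_cast h3
      have h6 : φ / 8 * (3 / 32 * E) ≤ φ / 8 * ((∑ a ∈ W, (nb x U a).card : ℕ) : ℝ) :=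
        mul_le_mul_of_nonneg_left (by linarith) (by positivity)
      have h7 : φ / 8 * (3 / 32 * E) = 12 / 2048 * r := by
        have h8 : φ / 8 * (3 / 32 * E) = 3 / 256 * (φ * E) := by ring
        rw [h8, hφ3]
        ring
      linarith
    have h6 : (k : ℝ) * (E / 4 + 12 / 2048 * r) ≤ k * ((∑ ω, hh x U W φ 1 ω) / 2 ^ n) :=
      mul_le_mul_of_nonneg_left h4 hk0
    have h7 : (k : ℝ) * (E / 4 + 11 / 2048 * r) = k * (E / 4 + 12 / 2048 * r) - k * lam := by
      rw [hlam]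
      ring
    rw [h7]
    linarith

end Pool.Agent.GMU
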