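import Pool.Agent.GMU.St2

/-!
# GMU, module VarB: the bound of the variances (helper91)
-/

set_option autoImplicit false

namespace Pool.Agent.GMU

open Finset Pool.Agent.Helper53.Generic Pool.Agent.Helper60.Gap

theorem thm_VarB : St_VarB := by
  intro hInc hSB n x hx hn hE W d hW hd
  obtain ⟨E, hEd⟩ : ∃ E : ℝ, E = ((Ed x 1).card : ℝ) := ⟨_, rfl⟩
  have hE1 : (1 : ℝ) ≤ E := by
    rw [hEd]
    exact_mod_cast hE
  have hn1 : (1 : ℝ) ≤ n := by exact_mod_cast hn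
  have hE0 : (0 : ℝ) < E := by linarith
  have hn0 : (0 : ℝ) < n := by linarith
  rw [← hEd]
  obtain ⟨φ, hφ⟩ : ∃ φ : ℝ, φ = √((n : ℝ) / E) / 2 := ⟨_, rfl⟩
  rw [← hφ]
  have hφ2 : φ ^ 2 = n / (4 * E) := by
    rw [hφ, div_pow, Real.sq_sqrt (by positivity)]
    field_simp
    norm_num
  have hK : ∀ a ∈ W, (dg x 1 a : ℝ) ≤ 4 * E / n := by
    intro a ha
    rw [le_div_iff₀ hn0, hEd]
    have h := hW a ha
    have h' : (n : ℝ) * dg x 1 a ≤ 4 * (Ed x 1).card := by exact_mod_cast h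
    linarith
  have hdE : ((Ed x d).card : ℝ) ≤ E := by
    rw [hEd]
    exact_mod_cast hd
  have hS := hSB hInc x hx W d (4 * E / n) E (by positivity) hK hdE
  have h1 : ∀ c, Lc x W φ d c ^ 2 ≤ 8 * (dg x d c : ℝ) ^ 2 +
      8 * φ ^ 2 * ((∑ a ∈ W.filter (fun a => (a, c) ∈ Ed x 1), dg x d a : ℕ) : ℝ) ^ 2 := by
    intro c
    unfold Lc
    obtain ⟨B, hB⟩ : ∃ B : ℝ, B = ((∑ a ∈ W.filter (fun a => (a, c) ∈ Ed x 1), dg x d a : ℕ) : ℝ) :=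
      ⟨_, rfl⟩
    rw [← hB]
    nlinarith [sq_nonneg ((dg x d c : ℝ) - φ * B)]
  refine (Finset.sum_le_sum (fun c _ => h1 c)).trans ?_
  rw [Finset.sum_add_distrib, ← Finset.mul_sum, ← Finset.mul_sum]
  have h2 : ∑ c, (dg x d c : ℝ) ^ 2 ≤ 3 * (n : ℝ) ^ 2 := by
    have h3 : ((∑ c, dg x d c ^ 2 : ℕ) : ℝ) ≤ ((3 * n ^ 2 : ℕ) : ℝ) := by
      exact_mod_cast sum_dg_sq x d hx
    push_cast at h3
    exact h3
  have h3 : 8 * φ ^ 2 * ∑ c, ((∑ a ∈ W.filter (fun a => (a, c) ∈ Ed x 1), dg x d a : ℕ) : ℝ) ^ 2 ≤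
      8 * φ ^ 2 * (((Nat.log 2 n : ℝ) + 2) ^ 2 * (6 * (n : ℝ) ^ 2 * (4 * E / n) + 12 * n * E +
        8 * (4 * E / n) * √(2 * √(n : ℝ)) * (E * √E))) :=
    mul_le_mul_of_nonneg_left hS (by positivity)
  have h4 : 8 * φ ^ 2 * (((Nat.log 2 n : ℝ) + 2) ^ 2 * (6 * (n : ℝ) ^ 2 * (4 * E / n) + 12 * n * E +
        8 * (4 * E / n) * √(2 * √(n : ℝ)) * (E * √E))) =
      ((Nat.log 2 n : ℝ) + 2) ^ 2 * (72 * (n : ℝ) ^ 2 + 64 * √(2 * √(n : ℝ)) * (E * √E)) := by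
    rw [hφ2]
    generalize √(2 * √(n : ℝ)) = a
    generalize √E = b
    generalize ((Nat.log 2 n : ℝ) + 2) = J
    field_simp
    ring
  have h5 : (1 : ℝ) ≤ ((Nat.log 2 n : ℝ) + 2) ^ 2 := by
    have : (0 : ℝ) ≤ (Nat.log 2 n : ℝ) := Nat.cast_nonneg _
    nlinarith
  have h6 : 24 * (n : ℝ) ^ 2 * 1 ≤ 24 * (n : ℝ) ^ 2 * ((Nat.log 2 n : ℝ) + 2) ^ 2 :=
    mul_le_mul_of_nonneg_left h5 (by positivity)
  unfold VB
  rw [h4] at h3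
  linarith

end Pool.Agent.GMU
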