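import Pool.Agent.GMU.KT
import Pool.Agent.GMU.Cos
import Pool.Agent.GMU.Exp
import Pool.Agent.GMU.Mean
import Pool.Agent.GMU.Diff
import Pool.Agent.GMU.Usp
import Pool.Agent.GMU.Part
import Pool.Agent.GMU.Rnd
import Pool.Agent.GMU.Rank
import Pool.Agent.GMU.Inc
import Pool.Agent.GMU.SB
import Pool.Agent.GMU.VarB
import Pool.Agent.GMU.StB
import Pool.Agent.GMU.CorB
import Pool.Agent.GMU.Hit
import Pool.Agent.GMU.Cel
import Pool.Agent.GMU.Srt2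
import Pool.Agent.GMU.KST
import Pool.Agent.GMU.STm
import Pool.Agent.GMU.STn
import Pool.Agent.GMU.Low
import Pool.Agent.GMU.Big
import Pool.Agent.GMU.OnB
import Pool.Agent.GMU.FiB

/-!
# GMU, part 2, assembly (helper26)
-/

set_option autoImplicit false

namespace Pool.Agent.GMU

open Pool.Agent.Helper60.Gap

theorem conB : ConB :=
  thm_CorB thm_KT thm_Exp thm_Cos thm_Mean thm_Diff thm_Inc thm_SB thm_VarB thm_Usp thm_Part thm_StB thm_Rnd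

theorem big : ∃ n₀ : ℕ, ∀ n : ℕ, n₀ ≤ n → √((n : ℝ) * u n) / 1024 ≤ M 1 n + 1 :=
  thm_Big conB (thm_Low thm_Usp thm_Rank) (thm_STn thm_Usp thm_Srt2 thm_Hit thm_Cel thm_KST thm_STm)

/-- `c (n u(n))^(1/2) / r^(3/2) ≤ M_r(n) ≤ u(n)`. -/
theorem geometric_mean' : ∃ c : ℝ, 0 < c ∧ ∀ n r : ℕ, 1 ≤ r → r < n →
    c * √((n : ℝ) * u n) / (r : ℝ) ^ (3 / 2 : ℝ) ≤ M r n ∧ M r n ≤ u n :=
  thm_FiB thm_Usp thm_Rank (thm_OnB thm_Usp big)

end Pool.Agent.GMU
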