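import Pool.Agent.Helper60.Gap.Color
import Pool.Agent.Helper60.Gap.Compare

/-!
# Campaign GMU (captain helper26): the gap `M_1(n)` is at least the geometric mean of `n` and the number of unit
distances, up to a logarithm (MP_1cd194_co)

`M_r(n) ≥ c r^(-3/2) (n u(n) / log n)^(1/2)`, where `u n` is the largest number of occurrences of a distance among `n` points.
-/

set_option autoImplicit false

namespace Pool.Agent.GMU

open Finset Pool.Agent.Helper60.Gap

/-- `u n`: the largest number of pairs at distance `1` among `n` points of the plane. -/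
noncomputable def u (n : ℕ) : ℕ :=
  sSup {g | ∃ A : Finset Plane, A.card = n ∧ g = f A 1}

/-- the sign of a colour -/
noncomputable def sg (c : Fin 2) : ℝ := if c = 0 then 1 else -1

/-- the neighbours of `a` in `U` (distance `1`) -/
noncomputable def nb {n : ℕ} (x : Fin n → Plane) (U : Finset (Fin n)) (a : Fin n) : Finset (Fin n) :=
  U.filter fun j => (a, j) ∈ Ed x 1

/-- the signed weights: random signs on `U`, the sine of the sum of the signs of the neighbours on `W`, zero elsewhere -/
noncomputable def vv {n : ℕ} (x : Fin n → Plane) (U W : Finset (Fin n)) (φ : ℝ) (ω : Fin n → Fin 2) (a : Fin n) : ℝ :=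
  open scoped Classical in
  if a ∈ U then sg (ω a) else if a ∈ W then Real.sin (∑ j ∈ nb x U a, φ * sg (ω j)) else 0

/-- the number of (ordered) pairs at distance `d`, with the weights `(1 + v) / 2` -/
noncomputable def hh {n : ℕ} (x : Fin n → Plane) (U W : Finset (Fin n)) (φ d : ℝ) (ω : Fin n → Fin 2) : ℝ :=
  ∑ p ∈ Ed x d, ((1 + vv x U W φ ω p.1) / 2) * ((1 + vv x U W φ ω p.2) / 2)

end Pool.Agent.GMU
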