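import Pool.Agent.GMU.St

/-!
# GMU, module KT: bounded differences for independent copies (helper26)
-/

set_option autoImplicit false

namespace Pool.Agent.GMU

open Finset Pool.Agent.Helper53.Generic Pool.Agent.Helper60.Gap

theorem thm_KT : St_KT := by
  intro q hq n k h c V lam hc hF hV hV0 hlam
  set s := lam / V with hs
  have hs0 : 0 ≤ s := div_nonneg hlam hV0.le
  set m : Fin k → ℝ := fun i => (∑ ω', h i ω') / (q : ℝ) ^ n with hm
  have h1 : ∀ i, ∑ ω, Real.exp (s * (h i ω - m i)) ≤ (q : ℝ) ^ n * Real.exp (s ^ 2 * V / 2) := by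
    intro i
    refine (mgf_bound hq n (h i) (c i) (hc i) (hF i) s).trans ?_
    have := hV i
    gcongr
  have h2 : ∑ ω : Fin k → Fin n → Fin q, ∏ i, Real.exp (s * (h i (ω i) - m i)) =
      ∏ i, ∑ ω, Real.exp (s * (h i ω - m i)) := by
    rw [Finset.prod_univ_sum, Fintype.piFinset_univ]
  have h3 : ∏ i, ∑ ω, Real.exp (s * (h i ω - m i)) ≤
      ((q : ℝ) ^ n * Real.exp (s ^ 2 * V / 2)) ^ k := by
    calc ∏ i, ∑ ω, Real.exp (s * (h i ω - m i))
        ≤ ∏ _i : Fin k, ((q : ℝ) ^ n * Real.exp (s ^ 2 * V / 2)) := by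
          apply Finset.prod_le_prod
          · intro i _
            exact Finset.sum_nonneg fun _ _ => (Real.exp_pos _).le
          · intro i _
            exact h1 i
      _ = _ := by rw [Finset.prod_const, Finset.card_univ, Fintype.card_fin]
  set S := (Finset.univ : Finset (Fin k → Fin n → Fin q)).filter
    (fun ω => (k : ℝ) * lam ≤ ∑ i, (h i (ω i) - m i)) with hS
  have h4 : (S.card : ℝ) * Real.exp (s * (k * lam)) ≤
      ∑ ω : Fin k → Fin n → Fin q, ∏ i, Real.exp (s * (h i (ω i) - m i)) := by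
    have e1 : ∑ ω ∈ S, ∏ i, Real.exp (s * (h i (ω i) - m i)) ≤
        ∑ ω : Fin k → Fin n → Fin q, ∏ i, Real.exp (s * (h i (ω i) - m i)) :=
      Finset.sum_le_sum_of_subset_of_nonneg (Finset.subset_univ S)
        (fun _ _ _ => Finset.prod_nonneg fun _ _ => (Real.exp_pos _).le)
    refine le_trans ?_ e1
    rw [← nsmul_eq_mul, ← Finset.sum_const]
    apply Finset.sum_le_sum
    intro ω hω
    rw [hS, Finset.mem_filter] at hω
    rw [← Real.exp_sum, ← Finset.mul_sum]
    apply Real.exp_le_exp.mpr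
    exact mul_le_mul_of_nonneg_left hω.2 hs0
  have h5 := h4.trans (h2.le.trans h3)
  rw [← le_div_iff₀ (Real.exp_pos _), mul_pow, ← Real.exp_nat_mul, mul_div_assoc,
    ← Real.exp_sub] at h5
  refine h5.trans (le_of_eq ?_)
  congr 2
  rw [hs]
  field_simp
  ring

end Pool.Agent.GMU
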