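import Pool.Agent.GMU.St2

/-!
# GMU, module Srt: sorted extremal sets (helper26)
-/

set_option autoImplicit false

namespace Pool.Agent.GMU

open Finset Pool.Agent.Helper53.Generic Pool.Agent.Helper60.Gap

private noncomputable def Srt2_e (r : ℝ) : Plane := EuclideanSpace.single 1 r

private theorem Srt2_vert (z : Plane) (h : z 0 = 0) : z = Srt2_e ‖z‖ ∨ z = Srt2_e (-‖z‖) := by
  have h1 : ‖z‖ = |z 1| := by
    rw [EuclideanSpace.norm_eq, Fin.sum_univ_two, h, norm_zero, Real.norm_eq_abs]
    norm_num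
    exact Real.sqrt_sq_eq_abs _ |>.trans rfl
  rcases abs_choice (z 1) with h2 | h2
  · left
    rw [h1, h2]
    ext i
    fin_cases i
    · simp [Srt2_e, h]
    · simp [Srt2_e]
  · right
    rw [h1, h2, neg_neg]
    ext i
    fin_cases i
    · simp [Srt2_e, h]
    · simp [Srt2_e]

theorem thm_Srt2 : St_Srt := by
  classical
  intro hUsp n
  obtain ⟨A, hA, hAf⟩ := hUsp.1 n
  obtain ⟨ρ, hρ⟩ := exists_rotation
    (A.offDiag.image (fun q => (Srt2_e ‖q.1 - q.2‖, q.1 - q.2)) ∪
      A.offDiag.image (fun q => (Srt2_e (-‖q.1 - q.2‖), q.1 - q.2))) (by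
    intro p hp
    rw [Finset.mem_union, Finset.mem_image, Finset.mem_image] at hp
    rcases hp with ⟨q, hq, rfl⟩ | ⟨q, hq, rfl⟩
    · rw [Finset.mem_offDiag] at hq
      exact sub_ne_zero.2 hq.2.2
    · rw [Finset.mem_offDiag] at hq
      exact sub_ne_zero.2 hq.2.2)
  have habs : ∀ a ∈ A, ∀ a' ∈ A, (ρ a) 0 = (ρ a') 0 → a = a' := by
    intro a ha a' ha' h
    by_contra hne
    have hq : (a, a') ∈ A.offDiag := Finset.mem_offDiag.2 ⟨ha, ha', hne⟩
    have h1 : (ρ (a - a')) 0 = 0 := by
      rw [map_sub]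
      simp [h]
    have h2 : ‖ρ (a - a')‖ = ‖a - a'‖ := ρ.norm_map _
    rcases Srt2_vert _ h1 with h3 | h3
    · rw [h2] at h3
      exact hρ _ (Finset.mem_union_left _ (Finset.mem_image.2 ⟨(a, a'), hq, rfl⟩)) h3
    · rw [h2] at h3
      exact hρ _ (Finset.mem_union_right _ (Finset.mem_image.2 ⟨(a, a'), hq, rfl⟩)) h3
  set B : Finset Plane := A.image ρ with hB
  have hBcard : B.card = n := by
    rw [hB, Finset.card_image_of_injective _ ρ.injective, hA]
  have hBP : P B 1 = 2 * u n := by
    have h1 := P_image_similar A ρ one_pos (fun x y => by rw [one_mul]; exact ρ.dist_map x y) 1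
    rw [one_mul] at h1
    rw [hB, h1, P_even, hAf]
  have hBinj : Set.InjOn (fun z : Plane => z 0) (B : Set Plane) := by
    intro z hz z' hz' h
    rw [Finset.mem_coe, hB, Finset.mem_image] at hz hz'
    obtain ⟨a, ha, rfl⟩ := hz
    obtain ⟨a', ha', rfl⟩ := hz'
    rw [habs a ha a' ha' h]
  set T : Finset ℝ := B.image (fun z => z 0) with hT
  have hTcard : T.card = n := by
    rw [hT, Finset.card_image_of_injOn hBinj, hBcard]
  set e := T.orderEmbOfFin hTcard with he
  have hex : ∀ i, ∃ z ∈ B, z 0 = e i := by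
    intro i
    have h1 : e i ∈ T := T.orderEmbOfFin_mem hTcard i
    rw [hT, Finset.mem_image] at h1
    exact h1
  choose x hxB hxe using hex
  have hmono : StrictMono (fun i => x i 0) := by
    intro i j hij
    simp only [hxe]
    exact e.strictMono hij
  have hinj : Function.Injective x := by
    intro i j hij
    apply hmono.injective
    simp only [hij]
  have himg : (Finset.univ : Finset (Fin n)).image x = B := by
    apply Finset.eq_of_subset_of_card_le
    · intro z hz
      rw [Finset.mem_image] at hz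
      obtain ⟨i, -, rfl⟩ := hz
      exact hxB i
    · rw [Finset.card_image_of_injective _ hinj, Finset.card_univ, Fintype.card_fin, hBcard]
  refine ⟨x, hmono, ?_⟩
  have h := card_Ed x hinj 1 Finset.univ
  rw [himg, hBP] at h
  rw [h]
  congr 1
  ext p
  simp

end Pool.Agent.GMU
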